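import Mathlib

/-!
Algebra of polynomials vanishing on the germ of an analytic graph: they form a principal ideal.
-/

set_option autoImplicit false

namespace Pool.FB74

open Topology Filter

section abstract

variable {A : Type*} [CommRing A] [IsDomain A]

open Polynomial in
theorem prime_divides {q : Polynomial A} (hq : Prime q) (I : Ideal (Polynomial A)) (hqI : q ∈ I)
    (hmin : ∀ f ∈ I, f ≠ 0 → q.natDegree ≤ f.natDegree) (hA : ∀ a : A, C a ∈ I → a = 0) :
    ∀ f ∈ I, q ∣ f := by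
  have hq0 : q ≠ 0 := hq.ne_zero
  have hqdeg : q.natDegree ≠ 0 := by
    intro h
    have h1 := eq_C_of_natDegree_eq_zero h
    rw [h1] at hqI
    have h2 := hA _ hqI
    rw [h2, C_0] at h1
    exact hq0 h1
  have hlc : q.leadingCoeff ≠ 0 := leadingCoeff_ne_zero.2 hq0
  have key : ∀ n, ∀ f ∈ I, f.natDegree = n → q ∣ f := by
    intro n
    induction n using Nat.strong_induction_on with
    | _ n ih =>
      intro f hf hfn
      by_cases hf0 : f = 0
      · rw [hf0]; exact dvd_zero q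
      have hle := hmin f hf hf0
      set g1 : Polynomial A := C q.leadingCoeff * f with hg1
      set g2 : Polynomial A := C f.leadingCoeff * X ^ (f.natDegree - q.natDegree) * q with hg2
      have hflc : f.leadingCoeff ≠ 0 := leadingCoeff_ne_zero.2 hf0
      have hg10 : g1 ≠ 0 := mul_ne_zero (C_ne_zero.2 hlc) hf0
      have hg1d : g1.degree = f.degree := by
        rw [hg1, degree_mul, degree_C hlc, zero_add]
      have hg2d : g2.degree = f.degree := by
        rw [hg2, degree_mul, degree_C_mul_X_pow _ hflc, degree_eq_natDegree hq0,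
          degree_eq_natDegree hf0, ← Nat.cast_add, Nat.sub_add_cancel hle]
      have hlcs : g1.leadingCoeff = g2.leadingCoeff := by
        rw [hg1, hg2, leadingCoeff_mul, leadingCoeff_mul, leadingCoeff_mul, leadingCoeff_C,
          leadingCoeff_C, leadingCoeff_X_pow, mul_one, mul_comm]
      have hlt := degree_sub_lt_left (hg1d.trans hg2d.symm) hg10 hlcs
      have hg2q : q ∣ g2 := Dvd.intro_left _ rfl
      have hdiff : q ∣ g1 - g2 := by
        by_cases h0 : g1 - g2 = 0
        · rw [h0]; exact dvd_zero q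
        · have hI : g1 - g2 ∈ I := I.sub_mem (I.mul_mem_left _ hf) (I.mul_mem_left _ hqI)
          have hn : (g1 - g2).natDegree < n := by
            rw [← hfn]
            rw [hg1d] at hlt
            exact natDegree_lt_natDegree h0 hlt
          exact ih _ hn _ hI rfl
      have h3 : q ∣ g1 := by
        have := dvd_add hdiff hg2q
        rwa [sub_add_cancel] at this
      rcases hq.dvd_or_dvd h3 with h4 | h4
      · exfalso
        have := natDegree_le_of_dvd h4 (C_ne_zero.2 hlc)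
        rw [natDegree_C] at this
        omega
      · exact h4
  exact fun f hf => key _ f hf rfl

theorem exists_prime_gen [UniqueFactorizationMonoid A] (I : Ideal (Polynomial A)) (hI : I.IsPrime)
    (hne : I ≠ ⊥) (hA : ∀ a : A, Polynomial.C a ∈ I → a = 0) :
    ∃ q ∈ I, q ≠ 0 ∧ ∀ f ∈ I, q ∣ f := by
  obtain ⟨h, hhI, hh0⟩ := Submodule.exists_mem_ne_zero_of_ne_bot hne
  obtain ⟨f0, ⟨hf0I, hf00⟩, hmin⟩ := WellFounded.has_min (measure Polynomial.natDegree).wf
    {f : Polynomial A | f ∈ I ∧ f ≠ 0} ⟨h, hhI, hh0⟩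
  obtain ⟨s, hs, has⟩ := UniqueFactorizationMonoid.exists_prime_factors f0 hf00
  have hsI : s.prod ∈ I := I.mem_of_dvd has.symm.dvd hf0I
  obtain ⟨q, hqs, hqI⟩ := (hI.multiset_prod_mem_iff_exists_mem s).1 hsI
  refine ⟨q, hqI, (hs q hqs).ne_zero, prime_divides (hs q hqs) I hqI ?_ hA⟩
  intro f hf hf0
  have h1 : q ∣ f0 := (Multiset.dvd_prod hqs).trans has.dvd
  have h2 := Polynomial.natDegree_le_of_dvd h1 hf00
  have h3 : ¬ f.natDegree < f0.natDegree := hmin f ⟨hf, hf0⟩
  omega

end abstract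

section graph

/-- polynomials vanishing on the germ of a graph at `a` -/
noncomputable def vanI (φ : ℂ → ℂ) (a : ℂ) : Ideal (MvPolynomial (Fin 2) ℂ) where
  carrier := {f | ∀ᶠ t in 𝓝 a, MvPolynomial.eval ![φ t, t] f = 0}
  add_mem' := by
    intro f g hf hg
    have hf : ∀ᶠ t in 𝓝 a, MvPolynomial.eval ![φ t, t] f = 0 := hf
    have hg : ∀ᶠ t in 𝓝 a, MvPolynomial.eval ![φ t, t] g = 0 := hg
    show ∀ᶠ t in 𝓝 a, MvPolynomial.eval ![φ t, t] (f + g) = 0
    filter_upwards [hf, hg] with t h1 h2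
    rw [map_add, h1, h2, add_zero]
  zero_mem' := Eventually.of_forall fun t => map_zero _
  smul_mem' := by
    intro c f hf
    have hf : ∀ᶠ t in 𝓝 a, MvPolynomial.eval ![φ t, t] f = 0 := hf
    show ∀ᶠ t in 𝓝 a, MvPolynomial.eval ![φ t, t] (c * f) = 0
    filter_upwards [hf] with t h1
    rw [map_mul, h1, mul_zero]

theorem mem_vanI {φ : ℂ → ℂ} {a : ℂ} {f : MvPolynomial (Fin 2) ℂ} :
    f ∈ vanI φ a ↔ ∀ᶠ t in 𝓝 a, MvPolynomial.eval ![φ t, t] f = 0 := Iff.rfl

theorem eval_ana {φ : ℂ → ℂ} {a : ℂ} (hφ : AnalyticAt ℂ φ a) (f : MvPolynomial (Fin 2) ℂ) :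
    AnalyticAt ℂ (fun t => MvPolynomial.eval ![φ t, t] f) a := by
  have := AnalyticAt.aeval_mvPolynomial (𝕜 := ℂ) (A := ℂ) (B := ℂ)
    (f := fun t => (![φ t, t] : Fin 2 → ℂ)) (z := a) (fun i => by
      fin_cases i
      · exact hφ
      · exact analyticAt_id) f
  refine this.congr (Eventually.of_forall fun t => ?_)
  simp only [MvPolynomial.aeval_eq_eval]

theorem vanI_prime {φ : ℂ → ℂ} {a : ℂ} (hφ : AnalyticAt ℂ φ a) : (vanI φ a).IsPrime := by
  refine ⟨?_, ?_⟩
  · intro h
    have h1 : (1 : MvPolynomial (Fin 2) ℂ) ∈ vanI φ a := by rw [h]; trivial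
    rw [mem_vanI] at h1
    have h2 := h1.self_of_nhds
    rw [map_one] at h2
    exact one_ne_zero h2
  · intro f g hfg
    rw [mem_vanI] at hfg
    rcases (eval_ana hφ f).eventually_eq_zero_or_eventually_ne_zero with hf | hf
    · exact Or.inl hf
    rcases (eval_ana hφ g).eventually_eq_zero_or_eventually_ne_zero with hg | hg
    · exact Or.inr hg
    exfalso
    obtain ⟨t, ht1, ht2, ht3⟩ := (hf.and (hg.and (nhdsWithin_le_nhds hfg))).exists
    have ht3 : MvPolynomial.eval ![φ t, t] (f * g) = 0 := ht3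
    rw [map_mul] at ht3
    exact (mul_ne_zero ht1 ht2) ht3

theorem exists_gen {φ : ℂ → ℂ} {a : ℂ} (hφ : AnalyticAt ℂ φ a) {h : MvPolynomial (Fin 2) ℂ}
    (hh0 : h ≠ 0) (hhI : h ∈ vanI φ a) :
    ∃ q ∈ vanI φ a, q ≠ 0 ∧ ∀ f ∈ vanI φ a, q ∣ f := by
  set σ := MvPolynomial.finSuccEquiv ℂ 1 with hσ
  set I : Ideal (Polynomial (MvPolynomial (Fin 1) ℂ)) :=
    Ideal.comap (σ.symm : Polynomial (MvPolynomial (Fin 1) ℂ) →+* MvPolynomial (Fin 2) ℂ)
      (vanI φ a) with hI
  have hIp : I.IsPrime := by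
    have := vanI_prime hφ
    exact Ideal.comap_isPrime _ _
  have hmem : ∀ f, f ∈ vanI φ a → σ f ∈ I := by
    intro f hf
    rw [hI, Ideal.mem_comap]
    show σ.symm (σ f) ∈ vanI φ a
    rwa [AlgEquiv.symm_apply_apply]
  have hne : I ≠ ⊥ := by
    intro h0
    have h1 := hmem h hhI
    rw [h0] at h1
    have h2 : σ h = 0 := h1
    exact hh0 ((map_eq_zero_iff σ σ.injective).1 h2)
  have hA : ∀ c : MvPolynomial (Fin 1) ℂ, Polynomial.C c ∈ I → c = 0 := by
    intro c hc
    rw [hI, Ideal.mem_comap] at hc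
    have hc : ∀ᶠ t in 𝓝 a, MvPolynomial.eval ![φ t, t] (σ.symm (Polynomial.C c)) = 0 := hc
    have h1 : ∀ t, MvPolynomial.eval ![φ t, t] (σ.symm (Polynomial.C c))
        = MvPolynomial.eval ![t] c := by
      intro t
      have h2 := MvPolynomial.eval_eq_eval_mv_eval' ![t] (φ t) (σ.symm (Polynomial.C c))
      rw [← hσ, AlgEquiv.apply_symm_apply, Polynomial.map_C, Polynomial.eval_C] at h2
      exact h2
    have h2 : AnalyticOnNhd ℂ (fun t => MvPolynomial.eval ![t] c) Set.univ := by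
      intro t _
      have := AnalyticAt.aeval_mvPolynomial (𝕜 := ℂ) (A := ℂ) (B := ℂ)
        (f := fun t => (![t] : Fin 1 → ℂ)) (z := t) (fun i => by
          fin_cases i
          exact analyticAt_id) c
      refine this.congr (Eventually.of_forall fun t => ?_)
      simp only [MvPolynomial.aeval_eq_eval]
    have h3 : (fun t => MvPolynomial.eval ![t] c) =ᶠ[𝓝 a] 0 := by
      filter_upwards [hc] with t ht
      rw [h1] at ht
      exact ht
    have h4 := h2.eqOn_zero_of_preconnected_of_eventuallyEq_zero isPreconnected_univ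
      (Set.mem_univ a) h3
    refine MvPolynomial.funext fun x => ?_
    have h5 : x = ![x 0] := by
      funext i
      fin_cases i
      rfl
    rw [h5, map_zero]
    exact h4 (Set.mem_univ (x 0))
  obtain ⟨q, hqI, hq0, hq⟩ := exists_prime_gen I hIp hne hA
  refine ⟨σ.symm q, hqI, ?_, ?_⟩
  · intro h0
    exact hq0 ((map_eq_zero_iff σ.symm σ.symm.injective).1 h0)
  · intro f hf
    have h1 := hq _ (hmem f hf)
    have h2 := map_dvd (σ.symm : Polynomial (MvPolynomial (Fin 1) ℂ) →+* MvPolynomial (Fin 2) ℂ) h1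
    have h3 : σ.symm q ∣ σ.symm (σ f) := h2
    rwa [AlgEquiv.symm_apply_apply] at h3

end graph

end Pool.FB74
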