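import Mathlib

/-!
Entire functions that are small with respect to a growth function `T`, and the mean value `m(g, r)`
of the positive part of the real part.
-/

set_option autoImplicit false

open Set Filter Topology Metric Real

namespace Pool.FB74

/-- a nowhere vanishing entire function is an exponential. -/
theorem exists_log {h : ℂ → ℂ} (hh : Differentiable ℂ h) (h0 : ∀ z, h z ≠ 0) :
    ∃ g : ℂ → ℂ, Differentiable ℂ g ∧ ∀ z, Complex.exp (g z) = h z := by
  have hd : Differentiable ℂ (deriv h) :=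
    fun z => (hh.analyticAt z).deriv.differentiableAt
  set f : ℂ → ℂ := fun z => deriv h z / h z with hf
  have hfd : Differentiable ℂ f := hd.div hh h0
  have hprim : ∀ z, HasDerivAt (fun w => Complex.wedgeIntegral 0 w f) (f z) z := by
    intro z
    have hz : z ∈ ball (0 : ℂ) (‖z‖ + 1) := by
      rw [mem_ball_zero_iff]; linarith
    exact Complex.IsConservativeOn.hasDerivAt_wedgeIntegral hfd.continuous.continuousOn hz
      (hfd.differentiableOn.isConservativeOn)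
  set G : ℂ → ℂ := fun w => Complex.wedgeIntegral 0 w f with hG
  have hGd : Differentiable ℂ G := fun z => (hprim z).differentiableAt
  have hconst : ∀ z, h z * Complex.exp (-(G z)) = h 0 * Complex.exp (-(G 0)) := by
    have hder : ∀ z, HasDerivAt (fun z => h z * Complex.exp (-(G z))) 0 z := by
      intro z
      have e1 := ((hprim z).neg.cexp)
      have e2 := (hh z).hasDerivAt.mul e1
      refine e2.congr_deriv ?_
      simp only [hf]
      field_simp [h0 z]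
      ring
    intro z
    exact is_const_of_deriv_eq_zero (fun z => (hder z).differentiableAt)
      (fun z => (hder z).deriv) z 0
  have hc : h 0 * Complex.exp (-(G 0)) ≠ 0 := mul_ne_zero (h0 0) (Complex.exp_ne_zero _)
  refine ⟨fun z => G z + Complex.log (h 0 * Complex.exp (-(G 0))), hGd.add_const _, ?_⟩
  intro z
  rw [Complex.exp_add, Complex.exp_log hc, ← hconst z, mul_comm (h z), ← mul_assoc,
    ← Complex.exp_add, add_neg_cancel, Complex.exp_zero, one_mul]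

/-- the gauge -/
noncomputable def gauge (T : ℝ → ℝ) (ρ r : ℝ) : ℝ :=
  1 + log (2 + T r) + log (2 + r) + log⁺ ((r - ρ)⁻¹)

/-- functions that are small with respect to `T`. -/
def Small (T : ℝ → ℝ) (Q : ℂ → ℂ) : Prop :=
  Differentiable ℂ Q ∧ ∃ C : ℝ, 0 ≤ C ∧ ∀ ρ r : ℝ, 0 ≤ ρ → ρ < r → ∀ z : ℂ, ‖z‖ ≤ ρ →
    log⁺ ‖Q z‖ ≤ C * gauge T ρ r

section

variable {T : ℝ → ℝ}

theorem one_le_gauge (hT : ∀ r, 0 ≤ r → 0 ≤ T r) {ρ r : ℝ} (hρ : 0 ≤ ρ) (hr : ρ < r) :
    1 ≤ gauge T ρ r := by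
  unfold gauge
  have h1 : 0 ≤ log (2 + T r) := log_nonneg (by linarith [hT r (by linarith)])
  have h2 : 0 ≤ log (2 + r) := log_nonneg (by linarith)
  have h3 : 0 ≤ log⁺ ((r - ρ)⁻¹) := posLog_nonneg
  linarith

theorem gauge_nonneg (hT : ∀ r, 0 ≤ r → 0 ≤ T r) {ρ r : ℝ} (hρ : 0 ≤ ρ) (hr : ρ < r) :
    0 ≤ gauge T ρ r := zero_le_one.trans (one_le_gauge hT hρ hr)

theorem gauge_half (hT : ∀ r, 0 ≤ r → 0 ≤ T r) {ρ r : ℝ} (hρ : 0 ≤ ρ) (hr : ρ < r) :
    gauge T ((ρ + r) / 2) r ≤ 2 * gauge T ρ r := by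
  have h1 : 0 ≤ log (2 + T r) := log_nonneg (by linarith [hT r (by linarith)])
  have h2 : 0 ≤ log (2 + r) := log_nonneg (by linarith)
  have h3 : 0 ≤ log⁺ ((r - ρ)⁻¹) := posLog_nonneg
  have h4 : log⁺ ((r - (ρ + r) / 2)⁻¹) ≤ 1 + log⁺ ((r - ρ)⁻¹) := by
    have e : (r - (ρ + r) / 2)⁻¹ = 2 * (r - ρ)⁻¹ := by
      have h6 : r - (ρ + r) / 2 = (r - ρ) / 2 := by ring
      rw [h6, inv_div]; ring
    rw [e]
    refine posLog_mul.trans ?_
    have h5 : log⁺ (2 : ℝ) ≤ 1 := by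
      rw [posLog_eq_log (by norm_num)]
      have := Real.log_le_sub_one_of_pos (show (0 : ℝ) < 2 by norm_num)
      linarith
    linarith
  unfold gauge
  linarith

theorem gauge_mono {s ρ r : ℝ} (hs : s ≤ ρ) (hr : ρ < r) :
    gauge T s r ≤ gauge T ρ r := by
  unfold gauge
  have h1 : (r - s)⁻¹ ≤ (r - ρ)⁻¹ := by
    apply inv_anti₀ <;> linarith
  have h2 : 0 ≤ (r - s)⁻¹ := inv_nonneg.2 (by linarith)
  have := posLog_le_posLog h2 h1
  linarith

theorem Small.const (hT : ∀ r, 0 ≤ r → 0 ≤ T r) (c : ℂ) : Small T (fun _ => c) := by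
  refine ⟨differentiable_const c, log⁺ ‖c‖, posLog_nonneg, fun ρ r hρ hr z hz => ?_⟩
  have := one_le_gauge hT hρ hr
  have h2 : 0 ≤ log⁺ ‖c‖ := posLog_nonneg
  nlinarith

theorem Small.mul {P Q : ℂ → ℂ} (hP : Small T P) (hQ : Small T Q) :
    Small T (fun z => P z * Q z) := by
  obtain ⟨dP, C, hC, hP⟩ := hP
  obtain ⟨dQ, D, hD, hQ⟩ := hQ
  refine ⟨dP.mul dQ, C + D, by positivity, fun ρ r hρ hr z hz => ?_⟩
  rw [norm_mul]
  refine posLog_mul.trans ?_
  have h1 := hP ρ r hρ hr z hz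
  have h2 := hQ ρ r hρ hr z hz
  linarith

theorem Small.add (hT : ∀ r, 0 ≤ r → 0 ≤ T r) {P Q : ℂ → ℂ} (hP : Small T P) (hQ : Small T Q) :
    Small T (fun z => P z + Q z) := by
  obtain ⟨dP, C, hC, hP⟩ := hP
  obtain ⟨dQ, D, hD, hQ⟩ := hQ
  refine ⟨dP.add dQ, 1 + C + D, by positivity, fun ρ r hρ hr z hz => ?_⟩
  refine (posLog_norm_add_le _ _).trans ?_
  have h1 := hP ρ r hρ hr z hz
  have h2 := hQ ρ r hρ hr z hz
  have h3 := one_le_gauge hT hρ hr
  have h5 : log (2 : ℝ) ≤ 1 := by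
    have := Real.log_le_sub_one_of_pos (show (0 : ℝ) < 2 by norm_num)
    linarith
  linarith

theorem Small.neg {P : ℂ → ℂ} (hP : Small T P) : Small T (fun z => - P z) := by
  obtain ⟨dP, C, hC, hP⟩ := hP
  refine ⟨dP.neg, C, hC, fun ρ r hρ hr z hz => ?_⟩
  rw [norm_neg]; exact hP ρ r hρ hr z hz

theorem Small.sub (hT : ∀ r, 0 ≤ r → 0 ≤ T r) {P Q : ℂ → ℂ} (hP : Small T P) (hQ : Small T Q) :
    Small T (fun z => P z - Q z) := by
  simp only [sub_eq_add_neg]
  exact hP.add hT hQ.neg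

theorem norm_le_exp_posLog (x : ℝ) (hx : 0 ≤ x) : x ≤ Real.exp (log⁺ x) := by
  rcases hx.eq_or_lt with h | h
  · rw [← h]; positivity
  · calc x = Real.exp (Real.log x) := (Real.exp_log h).symm
      _ ≤ _ := Real.exp_le_exp.2 (le_max_right _ _)

theorem posLog_exp (x : ℝ) (hx : 0 ≤ x) : log⁺ (Real.exp x) = x := by
  rw [posLog_apply, Real.log_exp, max_eq_right hx]

theorem Small.deriv (hT : ∀ r, 0 ≤ r → 0 ≤ T r) {P : ℂ → ℂ} (hP : Small T P) :
    Small T (deriv P) := by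
  obtain ⟨dP, C, hC, hP⟩ := hP
  refine ⟨fun z => (dP.analyticAt z).deriv.differentiableAt, 2 * C + 2, by positivity,
    fun ρ r hρ hr z hz => ?_⟩
  set δ := (r - ρ) / 2 with hδ
  have hδ0 : 0 < δ := by rw [hδ]; linarith
  have hg0 := one_le_gauge hT hρ hr
  have hgh := gauge_half hT hρ hr
  have hbd : ∀ w ∈ sphere z δ, ‖P w‖ ≤ Real.exp (C * gauge T ((ρ + r) / 2) r) := by
    intro w hw
    have hw' : ‖w‖ ≤ (ρ + r) / 2 := by
      have : ‖w‖ ≤ ‖z‖ + ‖w - z‖ := by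
        have := norm_add_le z (w - z); simpa using this
      rw [mem_sphere_iff_norm] at hw
      rw [hw] at this
      linarith
    have h1 := hP ((ρ + r) / 2) r (by linarith) (by linarith) w hw'
    exact (norm_le_exp_posLog _ (norm_nonneg _)).trans (Real.exp_le_exp.2 h1)
  have hc := Complex.norm_deriv_le_of_forall_mem_sphere_norm_le hδ0
    (dP.diffContOnCl) hbd
  have h1 : ‖_root_.deriv P z‖ ≤ Real.exp (C * gauge T ((ρ + r) / 2) r) * (2 * (r - ρ)⁻¹) := by
    refine hc.trans_eq ?_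
    have : r - ρ ≠ 0 := by linarith
    rw [hδ]; field_simp
  refine (posLog_le_posLog (norm_nonneg _) h1).trans ?_
  refine posLog_mul.trans ?_
  have hgn : 0 ≤ C * gauge T ((ρ + r) / 2) r :=
    mul_nonneg hC (gauge_nonneg hT (by linarith) (by linarith))
  rw [posLog_exp _ hgn]
  have h2 : log⁺ (2 * (r - ρ)⁻¹) ≤ log⁺ (2 : ℝ) + log⁺ ((r - ρ)⁻¹) := posLog_mul
  have h5 : log⁺ (2 : ℝ) ≤ 1 := by
    rw [posLog_eq_log (by norm_num)]
    have := Real.log_le_sub_one_of_pos (show (0 : ℝ) < 2 by norm_num)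
    linarith
  have h6 : log⁺ ((r - ρ)⁻¹) ≤ gauge T ρ r := by
    unfold gauge
    have h1 : 0 ≤ log (2 + T r) := log_nonneg (by linarith [hT r (by linarith)])
    have h2 : 0 ≤ log (2 + r) := log_nonneg (by linarith)
    linarith
  have h7 : C * gauge T ((ρ + r) / 2) r ≤ C * (2 * gauge T ρ r) :=
    mul_le_mul_of_nonneg_left hgh hC
  linarith

end

end Pool.FB74
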