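import Mathlib
import Pool.Agent.FB74.Small

set_option autoImplicit false

open Set Filter Topology Metric Real

namespace Pool.FB74

/-- mean value of the positive part of the real part on the circle of radius `r`. -/
noncomputable def mv (g : ℂ → ℂ) (r : ℝ) : ℝ :=
  circleAverage (fun z => max (g z).re 0) 0 r

theorem mv_nonneg (g : ℂ → ℂ) (r : ℝ) : 0 ≤ mv g r :=
  circleAverage_nonneg_of_nonneg (fun _ _ => le_max_right _ _)

theorem continuous_mv {g : ℂ → ℂ} (hg : Continuous g) : Continuous (mv g) := by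
  have h : Continuous (fun z => max (g z).re 0) := by fun_prop
  exact h.circleAverage

/-- Poisson bound. -/
theorem re_le_mv {g : ℂ → ℂ} (hg : Differentiable ℂ g) {w : ℂ} {r : ℝ} (hw : ‖w‖ < r) :
    (g w).re ≤ (r + ‖w‖) / (r - ‖w‖) * mv g r := by
  have hr : 0 < r := (norm_nonneg w).trans_lt hw
  have hwb : w ∈ ball (0 : ℂ) r := by rwa [mem_ball_zero_iff]
  have h1 := DiffContOnCl.circleAverage_re_herglotzRieszKernel_smul' (f := g) (c := 0) (R := r)
    hg.diffContOnCl hwb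
  simp only [sub_zero] at h1
  set F : ℂ → ℂ := fun z => ((z + w) / (z - w)).re • g z with hF
  have hne : ∀ z ∈ sphere (0 : ℂ) |r|, z - w ≠ 0 := by
    intro z hz h
    rw [mem_sphere_zero_iff_norm, abs_of_pos hr] at hz
    rw [sub_eq_zero] at h
    rw [h] at hz; linarith
  have hk : ContinuousOn (fun z : ℂ => ((z + w) / (z - w)).re) (sphere (0 : ℂ) |r|) := by
    refine Complex.continuous_re.comp_continuousOn ?_
    exact ContinuousOn.div (by fun_prop) (by fun_prop) hne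
  have hFc : ContinuousOn F (sphere (0 : ℂ) |r|) := hk.smul hg.continuous.continuousOn
  have hFi : CircleIntegrable F 0 r := hFc.circleIntegrable'
  have h2 := Complex.reCLM.circleAverage_comp_comm hFi
  rw [h1] at h2
  have h3 : (g w).re = circleAverage (Complex.reCLM ∘ F) 0 r := h2.symm
  rw [h3]
  have h4 : (r + ‖w‖) / (r - ‖w‖) * mv g r =
      circleAverage (fun z => ((r + ‖w‖) / (r - ‖w‖)) • max (g z).re 0) 0 r := by
    rw [circleAverage_fun_smul]; rfl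
  rw [h4]
  refine circleAverage_mono ?_ ?_ ?_
  · exact (Complex.continuous_re.comp_continuousOn hFc).circleIntegrable'
  · have : Continuous (fun z => ((r + ‖w‖) / (r - ‖w‖)) • max (g z).re 0) := by
      have := hg.continuous
      fun_prop
    exact this.continuousOn.circleIntegrable'
  · intro z hz
    have hz' : z ∈ sphere (0 : ℂ) r := by rwa [abs_of_pos hr] at hz
    have k1 := re_herglotzRieszKernel_le hz' hwb
    have k2 := le_re_herglotzRieszKernel hz' hwb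
    simp only [sub_zero] at k1 k2
    have k0 : 0 ≤ (r - ‖w‖) / (r + ‖w‖) :=
      div_nonneg (by linarith) (by linarith [norm_nonneg w])
    have k3 : (Complex.reCLM ∘ F) z = ((z + w) / (z - w)).re * (g z).re := by
      simp [hF]
    rw [k3, smul_eq_mul]
    calc ((z + w) / (z - w)).re * (g z).re ≤ ((z + w) / (z - w)).re * max (g z).re 0 :=
          mul_le_mul_of_nonneg_left (le_max_left _ _) (k0.trans k2)
      _ ≤ _ := mul_le_mul_of_nonneg_right k1 (le_max_right _ _)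

/-- Jensen's inequality. -/
theorem jensen_lower {Q : ℂ → ℂ} (hQ : Differentiable ℂ Q) {ρ : ℝ} (hρ : 1 ≤ ρ) :
    log ‖meromorphicTrailingCoeffAt Q 0‖ ≤ circleAverage (fun z => log ‖Q z‖) 0 ρ := by
  have hρ0 : ρ ≠ 0 := by linarith
  have hρp : 0 < ρ := by linarith
  have han : AnalyticOnNhd ℂ Q (closedBall 0 |ρ|) := fun z _ => hQ.analyticAt z
  rw [MeromorphicOn.circleAverage_log_norm hρ0 han.meromorphicOn]
  have h1 : 0 ≤ ∑ᶠ u, (MeromorphicOn.divisor Q (closedBall 0 |ρ|) u : ℝ) *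
      log (ρ * ‖(0 : ℂ) - u‖⁻¹) := by
    refine finsum_nonneg fun u => ?_
    by_cases hu : u ∈ closedBall (0 : ℂ) |ρ|
    · refine mul_nonneg (mod_cast (MeromorphicOn.AnalyticOnNhd.divisor_nonneg han) _) ?_
      rw [zero_sub, norm_neg]
      by_cases h0 : u = 0
      · simp [h0]
      · have hup : 0 < ‖u‖ := norm_pos_iff.2 h0
        apply log_nonneg
        rw [mem_closedBall_zero_iff, abs_of_pos hρp] at hu
        rw [← div_eq_mul_inv, one_le_div hup]
        exact hu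
    · simp [hu]
  have h2 : 0 ≤ (MeromorphicOn.divisor Q (closedBall 0 |ρ|) 0 : ℝ) * log ρ :=
    mul_nonneg (mod_cast (MeromorphicOn.AnalyticOnNhd.divisor_nonneg han) _) (log_nonneg hρ)
  linarith

/-- the mean value of an exponent that is a quotient of small functions is small. -/
theorem mv_le_of_quot {T : ℝ → ℝ} (hT : ∀ r, 0 ≤ r → 0 ≤ T r) {g P Q : ℂ → ℂ}
    (hg : Differentiable ℂ g) (hP : Small T P) (hQ : Small T Q) (hQ0 : ∃ x, Q x ≠ 0)
    (h : ∀ z, Q z * Complex.exp (g z) = P z) :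
    ∃ C : ℝ, 0 ≤ C ∧ ∀ ρ r : ℝ, 1 ≤ ρ → ρ < r → mv g ρ ≤ C * gauge T ρ r := by
  obtain ⟨dP, C, hC, bP⟩ := hP
  obtain ⟨dQ, D, hD, bQ⟩ := hQ
  obtain ⟨x0, hx0⟩ := hQ0
  set K := |log ‖meromorphicTrailingCoeffAt Q 0‖| with hK
  refine ⟨C + D + K, by positivity, fun ρ r hρ hr => ?_⟩
  have hρp : 0 < ρ := by linarith
  have hρ0 : ρ ≠ 0 := hρp.ne'
  have hg1 := one_le_gauge hT hρp.le hr
  set F : ℂ → ℝ := fun z => log⁺ ‖P z‖ + log⁺ ‖Q z‖ - log ‖Q z‖ with hF
  set F' : ℂ → ℝ := fun z => open Classical in if Q z = 0 then max (g z).re 0 else F z with hF'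
  have hcod : F' =ᶠ[codiscreteWithin (sphere (0 : ℂ) |ρ|)] F := by
    have han : AnalyticOnNhd ℂ Q univ := fun z _ => dQ.analyticAt z
    have h1 := han.preimage_zero_mem_codiscrete hx0
    have h2 : Q ⁻¹' {0}ᶜ ∈ codiscreteWithin (sphere (0 : ℂ) |ρ|) :=
      Filter.codiscreteWithin_mono (subset_univ _) h1
    filter_upwards [h2] with z hz
    have hz' : Q z ≠ 0 := hz
    simp [hF', hz']
  have cPos : CircleIntegrable (fun z => log⁺ ‖P z‖) 0 ρ := by
    have : Continuous (fun z => log⁺ ‖P z‖) := continuous_posLog.comp dP.continuous.norm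
    exact this.continuousOn.circleIntegrable'
  have cQos : CircleIntegrable (fun z => log⁺ ‖Q z‖) 0 ρ := by
    have : Continuous (fun z => log⁺ ‖Q z‖) := continuous_posLog.comp dQ.continuous.norm
    exact this.continuousOn.circleIntegrable'
  have cLog : CircleIntegrable (fun z => log ‖Q z‖) 0 ρ := by
    have han : AnalyticOnNhd ℂ Q (sphere 0 |ρ|) := fun z _ => dQ.analyticAt z
    exact han.meromorphicOn.circleIntegrable_log_norm
  have cPQ : CircleIntegrable (fun z => log⁺ ‖P z‖ + log⁺ ‖Q z‖) 0 ρ := cPos.add cQos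
  have cF : CircleIntegrable F 0 ρ := cPQ.sub cLog
  have cF' : CircleIntegrable F' 0 ρ := cF.congr_codiscreteWithin hcod.symm
  have cg : CircleIntegrable (fun z => max (g z).re 0) 0 ρ := by
    have : Continuous (fun z => max (g z).re 0) := by
      have := hg.continuous
      fun_prop
    exact this.continuousOn.circleIntegrable'
  have h1 : mv g ρ ≤ circleAverage F' 0 ρ := by
    refine circleAverage_mono cg cF' ?_
    intro z _
    by_cases hz : Q z = 0
    · simp [hF', hz]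
    · have e1 : F' z = F z := by simp [hF', hz]
      rw [e1]
      have hQp : 0 < ‖Q z‖ := norm_pos_iff.2 hz
      have e2 : (g z).re = log ‖P z‖ - log ‖Q z‖ := by
        have hne : ‖Complex.exp (g z)‖ ≠ 0 := by simp
        rw [← h z, norm_mul, log_mul hQp.ne' hne, Complex.norm_exp, log_exp]
        ring
      have e3 : log ‖P z‖ ≤ log⁺ ‖P z‖ := le_max_right _ _
      have e4 : log ‖Q z‖ ≤ log⁺ ‖Q z‖ := le_max_right _ _
      have e5 : 0 ≤ log⁺ ‖P z‖ := posLog_nonneg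
      have e6 : 0 ≤ log⁺ ‖Q z‖ := posLog_nonneg
      refine max_le ?_ ?_
      · rw [e2]; simp only [hF]; linarith
      · simp only [hF]; linarith
  have h2 : circleAverage F' 0 ρ = circleAverage F 0 ρ := circleAverage_congr_codiscreteWithin hcod hρ0
  have h3 : circleAverage F 0 ρ = circleAverage (fun z => log⁺ ‖P z‖) 0 ρ
      + circleAverage (fun z => log⁺ ‖Q z‖) 0 ρ - circleAverage (fun z => log ‖Q z‖) 0 ρ := by
    rw [hF, circleAverage_fun_sub cPQ cLog, circleAverage_fun_add cPos cQos]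
  have h4 : circleAverage (fun z => log⁺ ‖P z‖) 0 ρ ≤ C * gauge T ρ r := by
    refine circleAverage_mono_on_of_le_circle cPos ?_
    intro z hz
    rw [mem_sphere_zero_iff_norm, abs_of_pos hρp] at hz
    exact bP ρ r hρp.le hr z hz.le
  have h5 : circleAverage (fun z => log⁺ ‖Q z‖) 0 ρ ≤ D * gauge T ρ r := by
    refine circleAverage_mono_on_of_le_circle cQos ?_
    intro z hz
    rw [mem_sphere_zero_iff_norm, abs_of_pos hρp] at hz
    exact bQ ρ r hρp.le hr z hz.le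
  have h6 := jensen_lower dQ hρ
  have h7 : -K ≤ log ‖meromorphicTrailingCoeffAt Q 0‖ := neg_abs_le _
  have h8 : K ≤ K * gauge T ρ r := le_mul_of_one_le_right (abs_nonneg _) hg1
  rw [h2, h3] at h1
  linarith

/-- exponents with mean value below `T` are small. -/
theorem small_of_mv {T : ℝ → ℝ} (hT : ∀ r, 0 ≤ r → 0 ≤ T r) {g : ℂ → ℂ}
    (hg : Differentiable ℂ g) (hm : ∀ r, 0 ≤ r → mv g r ≤ T r) : Small T g := by
  refine ⟨hg, 20 + 2 * log⁺ (1 + ‖g 0‖), by
    have : 0 ≤ log⁺ (1 + ‖g 0‖) := posLog_nonneg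
    positivity, fun ρ r hρ hr z hz => ?_⟩
  have hr0 : 0 < r := by linarith
  have hrρ : 0 < r - ρ := by linarith
  have hTr := hT r hr0.le
  set ρ' := (ρ + r) / 2 with hρ'
  set M := 4 * r * (r - ρ)⁻¹ * T r + 1 with hM
  have hinv : 0 < (r - ρ)⁻¹ := inv_pos.2 hrρ
  have hMp : 0 < M := by positivity
  have hmaps : MapsTo g (ball 0 ρ') {z | z.re ≤ M} := by
    intro w hw
    rw [mem_ball_zero_iff] at hw
    have hwr : ‖w‖ < r := by linarith
    have h1 := re_le_mv hg hwr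
    have h2 : (r + ‖w‖) / (r - ‖w‖) ≤ 4 * r * (r - ρ)⁻¹ := by
      rw [div_le_iff₀ (by linarith)]
      have h3 : (r - ρ) / 2 ≤ r - ‖w‖ := by linarith
      calc r + ‖w‖ ≤ 2 * r := by linarith
        _ = 4 * r * (r - ρ)⁻¹ * ((r - ρ) / 2) := by field_simp; ring
        _ ≤ 4 * r * (r - ρ)⁻¹ * (r - ‖w‖) := by gcongr
    have h3 : (r + ‖w‖) / (r - ‖w‖) * mv g r ≤ 4 * r * (r - ρ)⁻¹ * T r := by
      refine mul_le_mul h2 (hm r hr0.le) (mv_nonneg g r) (by positivity)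
    show (g w).re ≤ M
    rw [hM]; linarith
  have hzb : z ∈ ball (0 : ℂ) ρ' := by rw [mem_ball_zero_iff]; linarith
  have hBC := Complex.borelCaratheodory hMp hg.differentiableOn hmaps (by linarith) hzb
  have hd : (r - ρ) / 2 ≤ ρ' - ‖z‖ := by linarith
  have hdp : 0 < ρ' - ‖z‖ := by linarith
  have k1 : 2 * M * ‖z‖ / (ρ' - ‖z‖) ≤ 4 * r * (r - ρ)⁻¹ * M := by
    rw [div_le_iff₀ hdp]
    calc 2 * M * ‖z‖ ≤ 2 * M * r := by gcongr; linarith
      _ = 4 * r * (r - ρ)⁻¹ * M * ((r - ρ) / 2) := by field_simp; ring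
      _ ≤ 4 * r * (r - ρ)⁻¹ * M * (ρ' - ‖z‖) := by gcongr
  have k2 : ‖g 0‖ * (ρ' + ‖z‖) / (ρ' - ‖z‖) ≤ 4 * r * (r - ρ)⁻¹ * ‖g 0‖ := by
    rw [div_le_iff₀ hdp]
    calc ‖g 0‖ * (ρ' + ‖z‖) ≤ ‖g 0‖ * (2 * r) := by gcongr; linarith
      _ = 4 * r * (r - ρ)⁻¹ * ‖g 0‖ * ((r - ρ) / 2) := by field_simp; ring
      _ ≤ 4 * r * (r - ρ)⁻¹ * ‖g 0‖ * (ρ' - ‖z‖) := by gcongr
  have k3 : ‖g z‖ ≤ (4 * r * (r - ρ)⁻¹) * (4 * r * (r - ρ)⁻¹ * T r + (1 + ‖g 0‖)) := by
    refine hBC.trans ?_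
    have : 4 * r * (r - ρ)⁻¹ * M + 4 * r * (r - ρ)⁻¹ * ‖g 0‖ =
      (4 * r * (r - ρ)⁻¹) * (4 * r * (r - ρ)⁻¹ * T r + (1 + ‖g 0‖)) := by rw [hM]; ring
    linarith
  have q1 : 0 ≤ log (2 + T r) := log_nonneg (by linarith)
  have q2 : 0 ≤ log (2 + r) := log_nonneg (by linarith)
  have q3 : 0 ≤ log⁺ ((r - ρ)⁻¹) := posLog_nonneg
  have q4 : log⁺ (4 : ℝ) ≤ 3 := by
    rw [posLog_eq_log (by norm_num)]
    have := Real.log_le_sub_one_of_pos (show (0 : ℝ) < 4 by norm_num)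
    linarith
  have q5 : log⁺ r ≤ log (2 + r) := by
    rw [posLog_eq_log_max_one hr0.le]
    apply log_le_log (by positivity)
    exact max_le (by linarith) (by linarith)
  have q6 : log⁺ (T r) ≤ log (2 + T r) := by
    rw [posLog_eq_log_max_one hTr]
    apply log_le_log (by positivity)
    exact max_le (by linarith) (by linarith)
  have l1 : log⁺ (4 * r * (r - ρ)⁻¹) ≤ 3 * gauge T ρ r := by
    have a1 : log⁺ (4 * r * (r - ρ)⁻¹) ≤ log⁺ (4 * r) + log⁺ ((r - ρ)⁻¹) := posLog_mul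
    have a2 : log⁺ (4 * r) ≤ log⁺ (4 : ℝ) + log⁺ r := posLog_mul
    unfold gauge
    linarith
  have hge := one_le_gauge hT hρ hr
  have l2 : log⁺ (4 * r * (r - ρ)⁻¹ * T r + (1 + ‖g 0‖)) ≤
      (5 + log⁺ (1 + ‖g 0‖)) * gauge T ρ r := by
    have a1 := posLog_add (x := 4 * r * (r - ρ)⁻¹ * T r) (y := 1 + ‖g 0‖)
    have a2 : log⁺ (4 * r * (r - ρ)⁻¹ * T r) ≤ log⁺ (4 * r * (r - ρ)⁻¹) + log⁺ (T r) := posLog_mul
    have a3 : log⁺ (T r) ≤ gauge T ρ r := by unfold gauge; linarith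
    have a4 : log (2 : ℝ) ≤ 1 := by
      have := Real.log_le_sub_one_of_pos (show (0 : ℝ) < 2 by norm_num)
      linarith
    have a5 : log⁺ (1 + ‖g 0‖) ≤ log⁺ (1 + ‖g 0‖) * gauge T ρ r :=
      le_mul_of_one_le_right posLog_nonneg hge
    linarith
  have hpos : 0 ≤ (4 * r * (r - ρ)⁻¹) * (4 * r * (r - ρ)⁻¹ * T r + (1 + ‖g 0‖)) := by positivity
  calc log⁺ ‖g z‖ ≤ log⁺ ((4 * r * (r - ρ)⁻¹) * (4 * r * (r - ρ)⁻¹ * T r + (1 + ‖g 0‖))) :=
        posLog_le_posLog (norm_nonneg _) k3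
    _ ≤ log⁺ (4 * r * (r - ρ)⁻¹) + log⁺ (4 * r * (r - ρ)⁻¹ * T r + (1 + ‖g 0‖)) := posLog_mul
    _ ≤ 3 * gauge T ρ r + (5 + log⁺ (1 + ‖g 0‖)) * gauge T ρ r := add_le_add l1 l2
    _ ≤ (20 + 2 * log⁺ (1 + ‖g 0‖)) * gauge T ρ r := by
        have : 0 ≤ log⁺ (1 + ‖g 0‖) := posLog_nonneg
        nlinarith

end Pool.FB74
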