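import Mathlib
import Pool.Agent.FB74.Mean

set_option autoImplicit false

open Set Filter Topology Metric Real

namespace Pool.FB74

/-- Borel's growth lemma. -/
theorem exists_growth_point {T : ℝ → ℝ} (hmono : MonotoneOn T (Ici 0)) (hT : ∀ r, 0 ≤ r → 1 ≤ T r)
    {R : ℝ} (hR : 0 ≤ R) : ∃ ρ, R ≤ ρ ∧ T (ρ + (T ρ)⁻¹) ≤ 2 * T ρ := by
  by_contra hcon
  push Not at hcon
  let a : ℕ → ℝ := fun n => Nat.rec R (fun _ x => x + (T x)⁻¹) n
  have ha0 : a 0 = R := rfl
  have ha : ∀ n, a (n + 1) = a n + (T (a n))⁻¹ := fun n => rfl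
  have key : ∀ n, R ≤ a n ∧ (2 : ℝ) ^ n ≤ T (a n) ∧ a n ≤ R + 2 - 2 * (1 / 2) ^ n := by
    intro n
    induction n with
    | zero =>
      refine ⟨le_rfl, ?_, ?_⟩
      · rw [pow_zero]; exact hT _ hR
      · rw [ha0]; norm_num
    | succ n ih =>
      obtain ⟨h1, h2, h3⟩ := ih
      have hp : (0 : ℝ) < 2 ^ n := by positivity
      have hTp : 0 < T (a n) := hp.trans_le h2
      have h4 := hcon (a n) h1
      refine ⟨?_, ?_, ?_⟩
      · rw [ha]; have : 0 < (T (a n))⁻¹ := inv_pos.2 hTp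
        linarith
      · rw [ha, pow_succ]; linarith
      · rw [ha]
        have h5 : (T (a n))⁻¹ ≤ (1 / 2) ^ n := by
          rw [one_div, inv_pow]
          exact inv_anti₀ hp h2
        have h6 : (1 / 2 : ℝ) ^ (n + 1) = (1 / 2) ^ n / 2 := by rw [pow_succ]; ring
        rw [h6]; linarith
  obtain ⟨n, hn⟩ := pow_unbounded_of_one_lt (T (R + 2)) (one_lt_two : (1 : ℝ) < 2)
  obtain ⟨h1, h2, h3⟩ := key n
  have h4 : a n ≤ R + 2 := by
    have : (0 : ℝ) < (1 / 2) ^ n := by positivity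
    linarith
  have h5 := hmono (show (0 : ℝ) ≤ a n by linarith) (show (0 : ℝ) ≤ R + 2 by linarith) h4
  linarith

theorem log_le_lin {x a : ℝ} (hx : 0 < x) (ha : 0 < a) : log x ≤ x / a + log a := by
  have h1 : log x = log (x / a) + log a := by
    rw [log_div hx.ne' ha.ne']; ring
  have h2 := Real.log_le_sub_one_of_pos (div_pos hx ha)
  linarith

theorem growth {T : ℝ → ℝ} (hmono : MonotoneOn T (Ici 0)) (hT : ∀ r, 0 ≤ r → 0 ≤ T r)
    {C : ℝ} (hC : 0 ≤ C) (h : ∀ ρ r, 1 ≤ ρ → ρ < r → T ρ ≤ C * gauge T ρ r) :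
    ∃ C', 0 ≤ C' ∧ ∀ R, ∃ ρ, R ≤ ρ ∧ 1 ≤ ρ ∧ T ρ ≤ C' * (1 + log (3 + ρ)) := by
  set a := 4 * (C + 1) with ha
  have hap : 1 ≤ a := by rw [ha]; linarith
  have hla : 0 ≤ log a := log_nonneg hap
  refine ⟨2 * C + (1 + 2 * C * (2 + 2 * log a)), by positivity, fun R => ?_⟩
  obtain ⟨ρ, hρR, hρ⟩ := exists_growth_point (T := fun r => T r + 1)
    (fun x hx y hy hxy => by simpa using hmono hx hy hxy)
    (fun r hr => by have := hT r hr; linarith) (R := max R 1) (by positivity)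
  have hρ1 : 1 ≤ ρ := (le_max_right _ _).trans hρR
  refine ⟨ρ, (le_max_left _ _).trans hρR, hρ1, ?_⟩
  have hTρ := hT ρ (by linarith)
  set t := T ρ + 1 with ht
  have ht1 : 1 ≤ t := by linarith
  have hti : 0 < t⁻¹ := by positivity
  have hti1 : t⁻¹ ≤ 1 := inv_le_one_of_one_le₀ ht1
  have h1 := h ρ (ρ + t⁻¹) hρ1 (by linarith)
  have hTr := hT (ρ + t⁻¹) (by linarith)
  have e1 : gauge T ρ (ρ + t⁻¹) ≤ 1 + (log 3 + log t) + log (3 + ρ) + log t := by
    unfold gauge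
    have e2 : (ρ + t⁻¹ - ρ)⁻¹ = t := by rw [add_sub_cancel_left, inv_inv]
    rw [e2, posLog_eq_log (by rw [abs_of_nonneg (by linarith)]; exact ht1)]
    have e3 : log (2 + T (ρ + t⁻¹)) ≤ log 3 + log t := by
      rw [← log_mul (by norm_num) (by positivity)]
      apply log_le_log (by linarith)
      have : T (ρ + t⁻¹) + 1 ≤ 2 * t := hρ
      linarith
    have e4 : log (2 + (ρ + t⁻¹)) ≤ log (3 + ρ) := by
      apply log_le_log (by linarith)
      linarith
    linarith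
  have h3 : log (3 : ℝ) ≤ 2 := by
    have := Real.log_le_sub_one_of_pos (show (0 : ℝ) < 3 by norm_num)
    linarith
  have h4 : log t ≤ t / a + log a := log_le_lin (by linarith) (by linarith)
  have h5 : C * gauge T ρ (ρ + t⁻¹) ≤ C * (1 + log (3 + ρ) + (2 + 2 * (t / a + log a))) := by
    refine mul_le_mul_of_nonneg_left ?_ hC
    linarith
  have h6 : C * (2 * (t / a)) ≤ t / 2 := by
    rw [ha]
    have : C * (2 * (t / (4 * (C + 1)))) = (C / (C + 1)) * (t / 2) := by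
      field_simp; ring
    rw [this]
    have h7 : C / (C + 1) ≤ 1 := by
      rw [div_le_one (by linarith)]; linarith
    have h8 : 0 ≤ t / 2 := by linarith
    calc C / (C + 1) * (t / 2) ≤ 1 * (t / 2) := mul_le_mul_of_nonneg_right h7 h8
      _ = t / 2 := one_mul _
  have h7 : 0 ≤ log (3 + ρ) := log_nonneg (by linarith)
  have h8 : T ρ ≤ 2 * C * (1 + log (3 + ρ)) + (1 + 2 * C * (2 + 2 * log a)) := by
    have : C * (1 + log (3 + ρ) + (2 + 2 * (t / a + log a))) =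
      C * (1 + log (3 + ρ)) + C * (2 * (t / a)) + C * (2 + 2 * log a) := by ring
    linarith
  have h9 : (1 + 2 * C * (2 + 2 * log a)) ≤
      (1 + 2 * C * (2 + 2 * log a)) * (1 + log (3 + ρ)) := by
    refine le_mul_of_one_le_right (by positivity) (by linarith)
  calc T ρ ≤ _ := h8
    _ ≤ 2 * C * (1 + log (3 + ρ)) + (1 + 2 * C * (2 + 2 * log a)) * (1 + log (3 + ρ)) := by linarith
    _ = _ := by ring

/-- exponents of logarithmic growth are constant. -/
theorem const_of_growth {g : ℂ → ℂ} (hg : Differentiable ℂ g) {C : ℝ} (hC : 0 ≤ C)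
    (h : ∀ R, ∃ ρ, R ≤ ρ ∧ 1 ≤ ρ ∧ mv g ρ ≤ C * (1 + log (3 + ρ))) (z : ℂ) : g z = g 0 := by
  by_contra hne
  set dd := ‖g z - g 0‖ with hd
  have hdp : 0 < dd := norm_pos_iff.2 (sub_ne_zero.2 hne)
  set A := 2 * ‖z‖ * (3 * C + ‖g 0‖ + 1) with hA
  set B := 2 * ‖z‖ * (3 * C) with hB
  have hA0 : 0 ≤ A := by positivity
  have hB0 : 0 ≤ B := by positivity
  set a := 4 * (B + 1) / dd with ha
  have hap : 0 < a := by positivity
  set L := |log a| with hL
  obtain ⟨ρ, h1, h2, h3⟩ := h (2 * ‖z‖ + 1 + (4 / dd) * (‖z‖ * dd + A + dd + B * L))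
  have hpos : 0 ≤ (4 / dd) * (‖z‖ * dd + A + dd + B * L) := by positivity
  have hρz : ‖z‖ < ρ / 2 := by linarith
  have hl0 : 0 ≤ log (3 + ρ) := log_nonneg (by linarith)
  set M := 3 * (C * (1 + log (3 + ρ))) + ‖g 0‖ + 1 with hM
  have hMp : 0 < M := by positivity
  have hmaps : MapsTo (fun w => g w - g 0) (ball 0 (ρ / 2)) {z | z.re ≤ M} := by
    intro w hw
    rw [mem_ball_zero_iff] at hw
    have k1 := re_le_mv hg (show ‖w‖ < ρ by linarith)
    have k2 : (ρ + ‖w‖) / (ρ - ‖w‖) ≤ 3 := by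
      rw [div_le_iff₀ (by linarith)]; linarith
    have k3 : (ρ + ‖w‖) / (ρ - ‖w‖) * mv g ρ ≤ 3 * (C * (1 + log (3 + ρ))) :=
      mul_le_mul k2 h3 (mv_nonneg g ρ) (by norm_num)
    show (g w - g 0).re ≤ M
    rw [Complex.sub_re]
    have k4 := Complex.abs_re_le_norm (g 0)
    have k5 := neg_abs_le (g 0).re
    linarith
  have hBC := Complex.borelCaratheodory_zero hMp (hg.sub_const (g 0)).differentiableOn hmaps
    (by linarith) (z := z) (by rw [mem_ball_zero_iff]; exact hρz) (by simp)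
  rw [le_div_iff₀ (by linarith)] at hBC
  have h4 : 2 * M * ‖z‖ = A + B * log (3 + ρ) := by rw [hM, hA, hB]; ring
  rw [h4] at hBC
  have h5 : log (3 + ρ) ≤ (3 + ρ) / a + L :=
    (log_le_lin (by linarith) hap).trans (by linarith [le_abs_self (log a)])
  have h6 : B * ((3 + ρ) / a) ≤ (dd / 4) * (3 + ρ) := by
    rw [ha]
    have : B * ((3 + ρ) / (4 * (B + 1) / dd)) = (B / (B + 1)) * ((dd / 4) * (3 + ρ)) := by
      field_simp
    rw [this]
    have h7 : B / (B + 1) ≤ 1 := by rw [div_le_one (by linarith)]; linarith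
    have h8 : 0 ≤ (dd / 4) * (3 + ρ) := by
      have : 0 ≤ 3 + ρ := by linarith
      positivity
    calc _ ≤ 1 * ((dd / 4) * (3 + ρ)) := mul_le_mul_of_nonneg_right h7 h8
      _ = _ := one_mul _
  have h7 : B * log (3 + ρ) ≤ (dd / 4) * (3 + ρ) + B * L := by
    calc B * log (3 + ρ) ≤ B * ((3 + ρ) / a + L) := mul_le_mul_of_nonneg_left h5 hB0
      _ = B * ((3 + ρ) / a) + B * L := by ring
      _ ≤ _ := by linarith
  have hBC' : dd * (ρ / 2 - ‖z‖) ≤ A + B * log (3 + ρ) := hBC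
  have h8 : (dd / 4) * ρ ≤ ‖z‖ * dd + A + dd * (3 / 4) + B * L := by
    have : dd * (ρ / 2 - ‖z‖) = 2 * ((dd / 4) * ρ) - ‖z‖ * dd := by ring
    linarith
  have h9 : ‖z‖ * dd + A + dd + B * L < (dd / 4) * ρ := by
    have k1 : (4 / dd) * (‖z‖ * dd + A + dd + B * L) < ρ := by linarith [norm_nonneg z]
    have k2 := mul_lt_mul_of_pos_left k1 (show 0 < dd / 4 by positivity)
    have k3 : dd / 4 * (4 / dd * (‖z‖ * dd + A + dd + B * L)) = ‖z‖ * dd + A + dd + B * L := by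
      field_simp
    rwa [k3] at k2
  linarith

end Pool.FB74
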