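import Mathlib
import Pool.Agent.FB74.Growth

/-!
Borel's theorem: if a finite sum of exponentials of entire functions vanishes identically then two
of the exponents differ by a constant.
-/

set_option autoImplicit false

open Set Filter Topology Metric Real

namespace Pool.FB74

theorem mul_ne {P Q : ℂ → ℂ} (hP : Differentiable ℂ P) (hQ : Differentiable ℂ Q)
    (hP0 : ∃ x, P x ≠ 0) (hQ0 : ∃ x, Q x ≠ 0) : ∃ x, P x * Q x ≠ 0 := by
  by_contra hcon
  push Not at hcon
  have h := AnalyticOnNhd.eq_zero_or_eq_zero_of_mul_eq_zero (U := univ)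
    (fun z _ => hP.analyticAt z) (fun z _ => hQ.analyticAt z) (fun z _ => hcon z)
    isPreconnected_univ
  rcases h with h | h
  · obtain ⟨x, hx⟩ := hP0; exact hx (h x (mem_univ x))
  · obtain ⟨x, hx⟩ := hQ0; exact hx (h x (mem_univ x))

/-- vanishing Wronskian. -/
theorem wronskian_zero {N D : ℂ → ℂ} (hN : Differentiable ℂ N) (hD : Differentiable ℂ D)
    (hD0 : ∃ x, D x ≠ 0) (h : ∀ z, deriv N z * D z - N z * deriv D z = 0) :
    ∃ c : ℂ, ∀ z, N z = c * D z := by
  obtain ⟨x, hx⟩ := hD0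
  have hev : ∀ᶠ y in 𝓝 x, D y ≠ 0 := hD.continuous.continuousAt.eventually_ne hx
  obtain ⟨ε, hε, hb⟩ := Metric.eventually_nhds_iff_ball.1 hev
  have hder : ∀ y ∈ ball x ε, HasDerivAt (fun z => N z / D z) 0 y := by
    intro y hy
    have := (hN y).hasDerivAt.div (hD y).hasDerivAt (hb y hy)
    rwa [h y, zero_div] at this
  have hconst : ∀ y ∈ ball x ε, N y / D y = N x / D x := by
    intro y hy
    exact isOpen_ball.is_const_of_deriv_eq_zero (convex_ball x ε).isPreconnected
      (fun q hq => (hder q hq).differentiableAt.differentiableWithinAt)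
      (fun q hq => (hder q hq).deriv) hy (mem_ball_self hε)
  refine ⟨N x / D x, fun z => ?_⟩
  have hF : AnalyticOnNhd ℂ (fun z => N z - N x / D x * D z) univ := fun z _ =>
    (hN.sub (hD.const_mul _)).analyticAt z
  have h0 : (fun z => N z - N x / D x * D z) =ᶠ[𝓝 x] 0 := by
    filter_upwards [ball_mem_nhds x hε] with y hy
    have := hconst y hy
    rw [div_eq_iff (hb y hy)] at this
    simp [this]
  have := hF.eqOn_zero_of_preconnected_of_eventuallyEq_zero isPreconnected_univ (mem_univ x) h0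
    (mem_univ z)
  simpa [sub_eq_zero] using this

section

variable {ι : Type*} {T : ℝ → ℝ} {g : ι → ℂ → ℂ}

/-- the quotient of the two exponentials is a quotient of small functions. -/
def Rel (T : ℝ → ℝ) (g : ι → ℂ → ℂ) (i j : ι) : Prop :=
  ∃ P Q : ℂ → ℂ, Small T P ∧ Small T Q ∧ (∃ x, P x ≠ 0) ∧ (∃ x, Q x ≠ 0) ∧
    ∀ z, P z * Complex.exp (g i z) = Q z * Complex.exp (g j z)

theorem Rel.refl (hT : ∀ r, 0 ≤ r → 0 ≤ T r) (i : ι) : Rel T g i i :=
  ⟨fun _ => 1, fun _ => 1, Small.const hT 1, Small.const hT 1, ⟨0, one_ne_zero⟩,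
    ⟨0, one_ne_zero⟩, fun _ => rfl⟩

theorem Rel.symm {i j : ι} (h : Rel T g i j) : Rel T g j i := by
  obtain ⟨P, Q, h1, h2, h3, h4, h5⟩ := h
  exact ⟨Q, P, h2, h1, h4, h3, fun z => (h5 z).symm⟩

theorem Rel.trans {i j k : ι} (h : Rel T g i j) (h' : Rel T g j k) : Rel T g i k := by
  obtain ⟨P, Q, h1, h2, h3, h4, h5⟩ := h
  obtain ⟨P', Q', h1', h2', h3', h4', h5'⟩ := h'
  refine ⟨fun z => P z * P' z, fun z => Q z * Q' z, h1.mul h1', h2.mul h2',
    mul_ne h1.1 h1'.1 h3 h3', mul_ne h2.1 h2'.1 h4 h4', fun z => ?_⟩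
  calc P z * P' z * Complex.exp (g i z) = P' z * (P z * Complex.exp (g i z)) := by ring
    _ = P' z * (Q z * Complex.exp (g j z)) := by rw [h5 z]
    _ = Q z * (P' z * Complex.exp (g j z)) := by ring
    _ = Q z * (Q' z * Complex.exp (g k z)) := by rw [h5' z]
    _ = _ := by ring

/-- a combination over one class is a quotient of small functions times one exponential. -/
theorem combine [DecidableEq ι] (hT : ∀ r, 0 ≤ r → 0 ≤ T r) (i : ι) (A : Finset ι)
    (hA : ∀ j ∈ A, Rel T g i j) (Q : ι → ℂ → ℂ) (hQ : ∀ j ∈ A, Small T (Q j)) :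
    ∃ S P : ℂ → ℂ, Small T S ∧ Small T P ∧ (∃ x, S x ≠ 0) ∧
      ∀ z, S z * ∑ j ∈ A, Q j z * Complex.exp (g j z) = P z * Complex.exp (g i z) := by
  induction A using Finset.induction_on with
  | empty =>
    exact ⟨fun _ => 1, fun _ => 0, Small.const hT 1, Small.const hT 0, ⟨0, one_ne_zero⟩,
      fun z => by simp⟩
  | insert a A ha ih =>
    obtain ⟨S, P, hS, hP, hS0, h⟩ := ih (fun j hj => hA j (Finset.mem_insert_of_mem hj))
      (fun j hj => hQ j (Finset.mem_insert_of_mem hj))
    obtain ⟨Pa, Ra, hPa, hRa, hPa0, hRa0, h'⟩ := hA a (Finset.mem_insert_self a A)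
    have hQa := hQ a (Finset.mem_insert_self a A)
    refine ⟨fun z => S z * Ra z, fun z => P z * Ra z + S z * Q a z * Pa z, hS.mul hRa,
      (hP.mul hRa).add hT ((hS.mul hQa).mul hPa), mul_ne hS.1 hRa.1 hS0 hRa0, fun z => ?_⟩
    rw [Finset.sum_insert ha]
    calc S z * Ra z * (Q a z * Complex.exp (g a z) + ∑ j ∈ A, Q j z * Complex.exp (g j z))
        = S z * Q a z * (Ra z * Complex.exp (g a z))
          + Ra z * (S z * ∑ j ∈ A, Q j z * Complex.exp (g j z)) := by ring
      _ = S z * Q a z * (Pa z * Complex.exp (g i z)) + Ra z * (P z * Complex.exp (g i z)) := by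
          rw [h z, ← h' z]
      _ = _ := by ring

open Classical in
/-- relations split along the classes. -/
theorem split (hT : ∀ r, 0 ≤ r → 0 ≤ T r) {J : Finset ι}
    (hg : ∀ i ∈ J, Differentiable ℂ (g i))
    (hD : ∀ i ∈ J, ∀ j ∈ J, Small T (fun z => deriv (g i) z - deriv (g j) z)) (i : ι) :
    ∀ n : ℕ, ∀ K ⊆ J, K.card = n → ∀ Q : ι → ℂ → ℂ, (∀ j ∈ K, Small T (Q j)) →
      (∀ z, ∑ j ∈ K, Q j z * Complex.exp (g j z) = 0) →
      ∀ z, ∑ j ∈ K.filter (fun j => Rel T g i j), Q j z * Complex.exp (g j z) = 0 := by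
  intro n
  induction n with
  | zero =>
    intro K _ hK Q _ _ z
    rw [Finset.card_eq_zero] at hK
    subst hK
    simp
  | succ n ih =>
    intro K hKJ hK Q hQ hsum
    by_cases hex : ∃ k ∈ K, ¬ Rel T g i k ∧ ∃ x, Q k x ≠ 0
    · obtain ⟨k, hkK, hkR, hk0⟩ := hex
      have hkJ := hKJ hkK
      have hQk := hQ k hkK
      have hgk := hg k hkJ
      set E : ι → ℂ → ℂ := fun j z => Q j z * Complex.exp (g j z) with hE
      have hEd : ∀ j ∈ K, Differentiable ℂ (E j) := fun j hj =>
        (hQ j hj).1.mul (hg j (hKJ hj)).cexp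
      have hEder : ∀ j ∈ K, ∀ z, deriv (E j) z =
          (deriv (Q j) z + Q j z * deriv (g j) z) * Complex.exp (g j z) := by
        intro j hj z
        have h1 := (((hQ j hj).1 z).hasDerivAt).mul ((((hg j (hKJ hj)) z).hasDerivAt).cexp)
        have h2 : deriv (E j) z = _ := h1.deriv
        rw [h2]; ring
      set Rf : ι → ℂ → ℂ := fun j z => deriv (Q j) z * Q k z - Q j z * deriv (Q k) z
        + Q j z * Q k z * (deriv (g j) z - deriv (g k) z) with hRf
      have hRsmall : ∀ j ∈ K, Small T (Rf j) := fun j hj =>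
        Small.add hT (Small.sub hT (((hQ j hj).deriv hT).mul hQk) ((hQ j hj).mul (hQk.deriv hT)))
          (((hQ j hj).mul hQk).mul (hD j (hKJ hj) k hkJ))
      have hRE : ∀ j ∈ K, ∀ z, Rf j z * Complex.exp (g j z) * Complex.exp (g k z) =
          deriv (E j) z * E k z - E j z * deriv (E k) z := by
        intro j hj z
        rw [hEder j hj z, hEder k hkK z]
        simp only [hE, hRf]
        ring
      have hsumd : ∀ z, ∑ j ∈ K, deriv (E j) z = 0 := by
        intro z
        have h1 : HasDerivAt (fun z => ∑ j ∈ K, E j z) (∑ j ∈ K, deriv (E j) z) z :=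
          HasDerivAt.fun_sum (fun j hj => ((hEd j hj) z).hasDerivAt)
        have h2 : (fun z => ∑ j ∈ K, E j z) = fun _ => 0 := funext hsum
        rw [h2] at h1
        exact h1.unique (hasDerivAt_const z 0)
      have hRsumK : ∀ z, ∑ j ∈ K, Rf j z * Complex.exp (g j z) = 0 := by
        intro z
        have h1 : (∑ j ∈ K, Rf j z * Complex.exp (g j z)) * Complex.exp (g k z) = 0 := by
          rw [Finset.sum_mul, Finset.sum_congr rfl (fun j hj => hRE j hj z),
            Finset.sum_sub_distrib, ← Finset.sum_mul, ← Finset.sum_mul, hsumd z]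
          have : ∑ j ∈ K, E j z = 0 := hsum z
          rw [this]; ring
        exact (mul_eq_zero.1 h1).resolve_right (Complex.exp_ne_zero _)
      have hRk : ∀ z, Rf k z = 0 := fun z => by simp only [hRf]; ring
      have hRsum : ∀ z, ∑ j ∈ K.erase k, Rf j z * Complex.exp (g j z) = 0 := by
        intro z
        have := hRsumK z
        rw [← Finset.add_sum_erase K _ hkK, hRk z, zero_mul, zero_add] at this
        exact this
      have hih := ih (K.erase k) ((Finset.erase_subset k K).trans hKJ)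
        (by rw [Finset.card_erase_of_mem hkK, hK]; rfl) Rf
        (fun j hj => hRsmall j (Finset.mem_of_mem_erase hj)) hRsum
      have hfilt : (K.erase k).filter (fun j => Rel T g i j) = K.filter (fun j => Rel T g i j) := by
        ext j
        simp only [Finset.mem_filter, Finset.mem_erase]
        constructor
        · rintro ⟨⟨-, h1⟩, h2⟩; exact ⟨h1, h2⟩
        · rintro ⟨h1, h2⟩
          refine ⟨⟨?_, h1⟩, h2⟩
          rintro rfl
          exact hkR h2
      rw [hfilt] at hih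
      set A := K.filter (fun j => Rel T g i j) with hA
      have hAK : ∀ j ∈ A, j ∈ K := fun j hj => (Finset.mem_filter.1 hj).1
      set N : ℂ → ℂ := fun z => ∑ j ∈ A, E j z with hN
      have hNd : Differentiable ℂ N := by
        rw [hN]; exact Differentiable.fun_sum (fun j hj => hEd j (hAK j hj))
      have hNder : ∀ z, deriv N z = ∑ j ∈ A, deriv (E j) z := by
        intro z
        exact (HasDerivAt.fun_sum (fun j hj => ((hEd j (hAK j hj)) z).hasDerivAt)).deriv
      have hw : ∀ z, deriv N z * E k z - N z * deriv (E k) z = 0 := by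
        intro z
        rw [hNder z]
        simp only [hN]
        rw [Finset.sum_mul, Finset.sum_mul, ← Finset.sum_sub_distrib,
          ← Finset.sum_congr rfl (fun j hj => hRE j (hAK j hj) z), ← Finset.sum_mul, hih z,
          zero_mul]
      have hEk0 : ∃ x, E k x ≠ 0 := by
        obtain ⟨x, hx⟩ := hk0
        exact ⟨x, mul_ne_zero hx (Complex.exp_ne_zero _)⟩
      obtain ⟨c, hc⟩ := wronskian_zero hNd (hEd k hkK) hEk0 hw
      by_cases hc0 : c = 0
      · intro z
        have := hc z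
        rw [hc0, zero_mul] at this
        exact this
      · exfalso
        apply hkR
        obtain ⟨S, P, hS, hP, hS0, hSP⟩ := combine hT i A
          (fun j hj => (Finset.mem_filter.1 hj).2) Q (fun j hj => hQ j (hAK j hj))
        have hcQ : Small T (fun z => c * Q k z) := (Small.const hT c).mul hQk
        have hcQ0 : ∃ x, c * Q k x ≠ 0 := by
          obtain ⟨x, hx⟩ := hk0
          exact ⟨x, mul_ne_zero hc0 hx⟩
        have heq : ∀ z, P z * Complex.exp (g i z) =
            (S z * (c * Q k z)) * Complex.exp (g k z) := by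
          intro z
          rw [← hSP z]
          have h1 : ∑ j ∈ A, Q j z * Complex.exp (g j z) = c * (Q k z * Complex.exp (g k z)) := hc z
          rw [h1]; ring
        have hne := mul_ne hS.1 hcQ.1 hS0 hcQ0
        refine ⟨P, fun z => S z * (c * Q k z), hP, hS.mul hcQ, ?_, hne, heq⟩
        obtain ⟨x, hx⟩ := hne
        refine ⟨x, fun h0 => ?_⟩
        have := heq x
        rw [h0, zero_mul] at this
        exact mul_ne_zero hx (Complex.exp_ne_zero _) this.symm
    · push Not at hex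
      intro z
      have h1 := hsum z
      rw [← Finset.sum_filter_add_sum_filter_not K (fun j => Rel T g i j)] at h1
      have h2 : ∑ j ∈ K.filter (fun j => ¬ Rel T g i j), Q j z * Complex.exp (g j z) = 0 := by
        refine Finset.sum_eq_zero fun j hj => ?_
        rw [Finset.mem_filter] at hj
        rw [hex j hj.1 hj.2 z, zero_mul]
      rw [h2, add_zero] at h1
      exact h1

end

/-- the total growth function of the differences of the exponents. -/
noncomputable def Fs {ι : Type*} (J : Finset ι) (g : ι → ℂ → ℂ) (s : ℝ) : ℝ :=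
  ∑ i ∈ J, ∑ j ∈ J, mv (fun z => g i z - g j z) s

noncomputable def Ts {ι : Type*} (J : Finset ι) (g : ι → ℂ → ℂ) (r : ℝ) : ℝ :=
  sSup (Fs J g '' Icc 0 r)

section

variable {ι : Type*} {J : Finset ι} {g : ι → ℂ → ℂ}

theorem continuous_Fs (hg : ∀ i ∈ J, Differentiable ℂ (g i)) : Continuous (Fs J g) := by
  unfold Fs
  refine continuous_finsetSum _ fun i hi => continuous_finsetSum _ fun j hj => ?_
  exact continuous_mv ((hg i hi).sub (hg j hj)).continuous

theorem Fs_nonneg (s : ℝ) : 0 ≤ Fs J g s :=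
  Finset.sum_nonneg fun _ _ => Finset.sum_nonneg fun _ _ => mv_nonneg _ _

theorem bdd_Fs (hg : ∀ i ∈ J, Differentiable ℂ (g i)) (r : ℝ) : BddAbove (Fs J g '' Icc 0 r) :=
  (isCompact_Icc.image (continuous_Fs hg)).bddAbove

theorem Fs_le_Ts (hg : ∀ i ∈ J, Differentiable ℂ (g i)) {s r : ℝ} (hs : 0 ≤ s) (hr : s ≤ r) :
    Fs J g s ≤ Ts J g r := le_csSup (bdd_Fs hg r) ⟨s, ⟨hs, hr⟩, rfl⟩

theorem Ts_nonneg (hg : ∀ i ∈ J, Differentiable ℂ (g i)) {r : ℝ} (hr : 0 ≤ r) : 0 ≤ Ts J g r :=
  (Fs_nonneg r).trans (Fs_le_Ts hg hr le_rfl)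

theorem Ts_le {r b : ℝ} (hr : 0 ≤ r) (h : ∀ s, 0 ≤ s → s ≤ r → Fs J g s ≤ b) : Ts J g r ≤ b := by
  refine csSup_le ⟨_, ⟨0, ⟨le_rfl, hr⟩, rfl⟩⟩ ?_
  rintro _ ⟨s, hs, rfl⟩
  exact h s hs.1 hs.2

theorem Ts_mono (hg : ∀ i ∈ J, Differentiable ℂ (g i)) : MonotoneOn (Ts J g) (Ici 0) := by
  intro x hx y _ hxy
  refine Ts_le hx fun s hs hsx => ?_
  exact Fs_le_Ts hg hs (hsx.trans hxy)

theorem mv_le_Fs {i j : ι} (hi : i ∈ J) (hj : j ∈ J) (s : ℝ) :
    mv (fun z => g i z - g j z) s ≤ Fs J g s := by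
  unfold Fs
  calc mv (fun z => g i z - g j z) s ≤ ∑ j ∈ J, mv (fun z => g i z - g j z) s :=
        Finset.single_le_sum (f := fun j => mv (fun z => g i z - g j z) s)
          (fun j _ => mv_nonneg _ _) hj
    _ ≤ _ := Finset.single_le_sum (f := fun i => ∑ j ∈ J, mv (fun z => g i z - g j z) s)
          (fun i _ => Finset.sum_nonneg fun j _ => mv_nonneg _ _) hi

theorem mv_le_Ts (hg : ∀ i ∈ J, Differentiable ℂ (g i)) {i j : ι} (hi : i ∈ J) (hj : j ∈ J)
    {s : ℝ} (hs : 0 ≤ s) : mv (fun z => g i z - g j z) s ≤ Ts J g s :=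
  (mv_le_Fs hi hj s).trans (Fs_le_Ts hg hs le_rfl)

/-- if all exponentials are in one class the exponents differ by constants. -/
theorem const_of_one_class (hg : ∀ i ∈ J, Differentiable ℂ (g i))
    (hR : ∀ i ∈ J, ∀ j ∈ J, Rel (Ts J g) g i j) {i j : ι} (hi : i ∈ J) (hj : j ∈ J) (z : ℂ) :
    g i z - g j z = g i 0 - g j 0 := by
  have hT : ∀ r, 0 ≤ r → 0 ≤ Ts J g r := fun r hr => Ts_nonneg hg hr
  have hpair : ∀ i ∈ J, ∀ j ∈ J, ∃ C : ℝ, 0 ≤ C ∧ ∀ ρ r : ℝ, 1 ≤ ρ → ρ < r →
      mv (fun z => g i z - g j z) ρ ≤ C * gauge (Ts J g) ρ r := by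
    intro i hi j hj
    obtain ⟨P, Q, hP, hQ, hP0, hQ0, h⟩ := hR i hi j hj
    refine mv_le_of_quot hT ((hg i hi).sub (hg j hj)) hQ hP hP0 fun z => ?_
    rw [Complex.exp_sub, ← mul_div_assoc, h z, mul_div_assoc, div_self (Complex.exp_ne_zero _),
      mul_one]
  choose! Cf hC0 hCf using hpair
  set C := ∑ i ∈ J, ∑ j ∈ J, Cf i j with hC
  have hCn : 0 ≤ C := Finset.sum_nonneg fun i hi => Finset.sum_nonneg fun j hj => hC0 i hi j hj
  have hFs : ∀ s r : ℝ, 1 ≤ s → s < r → Fs J g s ≤ C * gauge (Ts J g) s r := by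
    intro s r hs hr
    unfold Fs
    rw [hC, Finset.sum_mul]
    refine Finset.sum_le_sum fun i hi => ?_
    rw [Finset.sum_mul]
    exact Finset.sum_le_sum fun j hj => hCf i hi j hj s r hs hr
  have hTs : ∀ ρ r, 1 ≤ ρ → ρ < r → Ts J g ρ ≤ (C + Ts J g 1) * gauge (Ts J g) ρ r := by
    intro ρ r hρ hr
    have h1 := one_le_gauge hT (show (0 : ℝ) ≤ ρ by linarith) hr
    have h0 := hT 1 (by norm_num)
    refine Ts_le (by linarith) fun s hs hsρ => ?_
    rcases le_total s 1 with h | h
    · have h2 : Fs J g s ≤ Ts J g 1 := Fs_le_Ts hg hs h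
      have h3 : Ts J g 1 ≤ Ts J g 1 * gauge (Ts J g) ρ r := le_mul_of_one_le_right h0 h1
      have h4 : 0 ≤ C * gauge (Ts J g) ρ r := by positivity
      linarith
    · have h2 := hFs s r h (hsρ.trans_lt hr)
      have h3 : C * gauge (Ts J g) s r ≤ C * gauge (Ts J g) ρ r :=
        mul_le_mul_of_nonneg_left (gauge_mono hsρ hr) hCn
      have h4 : 0 ≤ Ts J g 1 * gauge (Ts J g) ρ r := mul_nonneg h0 (by linarith)
      linarith
  obtain ⟨C', hC', hgr⟩ := growth (Ts_mono hg) hT (by have := hT 1 (by norm_num); positivity) hTs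
  exact const_of_growth ((hg i hi).sub (hg j hj)) hC' (fun R => by
    obtain ⟨ρ, h1, h2, h3⟩ := hgr R
    exact ⟨ρ, h1, h2, (mv_le_Ts hg hi hj (by linarith)).trans h3⟩) z

theorem borel_aux {ι : Type*} {g : ι → ℂ → ℂ} : ∀ n : ℕ, ∀ J : Finset ι, J.card = n → J.Nonempty →
    (∀ i ∈ J, Differentiable ℂ (g i)) → (∀ z, ∑ j ∈ J, Complex.exp (g j z) = 0) →
    ∃ i ∈ J, ∃ j ∈ J, i ≠ j ∧ ∀ z, g i z - g j z = g i 0 - g j 0 := by
  classical
  intro n
  induction n using Nat.strong_induction_on with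
  | _ n ih =>
    intro J hJ hne hg hsum
    obtain ⟨i, hi⟩ := hne
    have hT : ∀ r, 0 ≤ r → 0 ≤ Ts J g r := fun r hr => Ts_nonneg hg hr
    by_cases hall : ∀ j ∈ J, Rel (Ts J g) g i j
    · have hR : ∀ a ∈ J, ∀ b ∈ J, Rel (Ts J g) g a b := fun a ha b hb =>
        (hall a ha).symm.trans (hall b hb)
      have h2 : 1 < J.card := by
        by_contra hle
        have hc1 : J.card = 1 := by
          have := Finset.card_pos.2 ⟨i, hi⟩
          omega
        obtain ⟨a, ha⟩ := Finset.card_eq_one.1 hc1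
        have := hsum 0
        rw [ha, Finset.sum_singleton] at this
        exact Complex.exp_ne_zero _ this
      obtain ⟨a, ha, b, hb, hab⟩ := Finset.one_lt_card.1 h2
      exact ⟨a, ha, b, hb, hab, fun z => const_of_one_class hg hR ha hb z⟩
    · push Not at hall
      obtain ⟨k, hk, hkR⟩ := hall
      have hD : ∀ a ∈ J, ∀ b ∈ J, Small (Ts J g) (fun z => deriv (g a) z - deriv (g b) z) := by
        intro a ha b hb
        have h1 : Small (Ts J g) (fun z => g a z - g b z) :=
          small_of_mv hT ((hg a ha).sub (hg b hb)) (fun r hr => mv_le_Ts hg ha hb hr)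
        have h2 := h1.deriv hT
        have h3 : deriv (fun z => g a z - g b z) = fun z => deriv (g a) z - deriv (g b) z := by
          funext z
          exact deriv_fun_sub ((hg a ha) z) ((hg b hb) z)
        rwa [h3] at h2
      have hs := split hT hg hD i J.card J (Finset.Subset.refl J) rfl (fun _ _ => 1)
        (fun _ _ => Small.const hT 1) (fun z => by simpa using hsum z)
      simp only [one_mul] at hs
      set A := J.filter (fun j => Rel (Ts J g) g i j) with hA
      have hAJ : A ⊂ J := by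
        refine Finset.ssubset_iff_subset_ne.2 ⟨Finset.filter_subset _ _, ?_⟩
        intro h
        have : k ∈ A := by rw [h]; exact hk
        exact hkR (Finset.mem_filter.1 this).2
      have hiA : i ∈ A := Finset.mem_filter.2 ⟨hi, Rel.refl hT i⟩
      obtain ⟨a, ha, b, hb, hab, h⟩ := ih A.card (by rw [← hJ]; exact Finset.card_lt_card hAJ) A rfl
        ⟨i, hiA⟩ (fun a ha => hg a (Finset.filter_subset _ _ ha)) hs
      exact ⟨a, Finset.filter_subset _ _ ha, b, Finset.filter_subset _ _ hb, hab, h⟩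

end

/-- **Borel's theorem**. -/
theorem borel {ι : Type*} {J : Finset ι} {h : ι → ℂ → ℂ} (hJ : J.Nonempty)
    (hd : ∀ i ∈ J, Differentiable ℂ (h i)) (hne : ∀ i ∈ J, ∀ z, h i z ≠ 0)
    (hsum : ∀ z, ∑ j ∈ J, h j z = 0) :
    ∃ i ∈ J, ∃ j ∈ J, i ≠ j ∧ ∀ z, h i z * h j 0 = h j z * h i 0 := by
  classical
  have hlog : ∀ i, ∃ g : ℂ → ℂ, i ∈ J → (Differentiable ℂ g ∧ ∀ z, Complex.exp (g z) = h i z) := by
    intro i
    by_cases hi : i ∈ J
    · obtain ⟨g, hg⟩ := exists_log (hd i hi) (hne i hi)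
      exact ⟨g, fun _ => hg⟩
    · exact ⟨0, fun h => absurd h hi⟩
  choose g hg using hlog
  obtain ⟨i, hi, j, hj, hij, hc⟩ := borel_aux J.card J rfl hJ (g := g) (fun i hi => (hg i hi).1)
    (fun z => by rw [Finset.sum_congr rfl (fun j hj => (hg j hj).2 z)]; exact hsum z)
  refine ⟨i, hi, j, hj, hij, fun z => ?_⟩
  rw [← (hg i hi).2 z, ← (hg j hj).2 0, ← (hg j hj).2 z, ← (hg i hi).2 0, ← Complex.exp_add,
    ← Complex.exp_add]
  congr 1
  have := hc z
  linear_combination this

end Pool.FB74
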