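import Pool.Agent.FB74.Segre
import Pool.Agent.FB74.Alg

/-!
Through every Levi flat boundary point passes an algebraic curve contained in `H(z, conj z) = 0`.
-/

set_option autoImplicit false

namespace Pool.FB74

open Topology Filter Set Metric
open scoped ContDiff ComplexConjugate

/-- evaluation of a polynomial in two variables on the plane -/
noncomputable def ev (z : V) (f : MvPolynomial (Fin 2) ℂ) : ℂ := MvPolynomial.eval ![z.1, z.2] f

/-- Hermitian function which is polynomial in `z` with bounded degree. -/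
structure PSys (H : V × V → ℂ) (d : ℕ) : Prop extends HSys H where
  poly : ∀ ζ : V, ∃ h : MvPolynomial (Fin 2) ℂ, h.totalDegree ≤ d ∧ ∀ z : V, ev z h = H (z, ζ)

theorem curve1 {H : V × V → ℂ} {d : ℕ} (hH : PSys H d) {p : V} (hp : H (rl p) = 0)
    (ha : dd ea H (rl p) ≠ 0) (hΛ : ∃ C, ∀ᶠ x in 𝓝 (rl p), ‖Lam H x‖ ≤ C * ‖H x‖) :
    ∃ q : MvPolynomial (Fin 2) ℂ, q ≠ 0 ∧ q.totalDegree ≤ d ∧ ev p q = 0 ∧
      ∀ z, ev z q = 0 → H (rl z) = 0 := by
  obtain ⟨φ, hφ, hφ0, hφ1, δ, hδ, hG⟩ := segre hH.toHSys hp ha hΛ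
  obtain ⟨h, hd, hh⟩ := hH.poly (cj p)
  have hh0 : h ≠ 0 := by
    intro h0
    have h1 := dd_hasDerivAt hH.toHSys.diff ea (rl p)
    have h2 : (fun τ : ℂ => H (rl p + τ • ea)) = fun _ => 0 := by
      funext τ
      have h3 : rl p + τ • ea = (p + τ • (1, 0), cj p) := by
        simp [rl, ea]
      rw [h3, ← hh, h0]
      simp [ev]
    rw [h2] at h1
    exact ha (h1.unique (hasDerivAt_const _ _))
  have hhI : h ∈ vanI φ p.2 := by
    rw [mem_vanI]
    filter_upwards [hφ1] with t ht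
    have := hh (φ t, t)
    rw [ht] at this
    exact this
  obtain ⟨q, hqI, hq0, hq⟩ := exists_gen hφ hh0 hhI
  refine ⟨q, hq0, ?_, ?_, ?_⟩
  · obtain ⟨r, hr⟩ := hq h hhI
    have hr0 : r ≠ 0 := by
      intro h0
      rw [h0, mul_zero] at hr
      exact hh0 hr
    have := MvPolynomial.totalDegree_mul_of_isDomain hq0 hr0
    rw [← hr] at this
    omega
  · rw [mem_vanI] at hqI
    have := hqI.self_of_nhds
    rw [hφ0] at this
    exact this
  · intro z hz
    have step : ∀ ζ : V, (∀ᶠ t in 𝓝 p.2, H ((φ t, t), ζ) = 0) → H (z, ζ) = 0 := by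
      intro ζ hζ
      obtain ⟨f, -, hf⟩ := hH.poly ζ
      have hfI : f ∈ vanI φ p.2 := by
        rw [mem_vanI]
        filter_upwards [hζ] with t ht
        have := hf (φ t, t)
        rw [ht] at this
        exact this
      obtain ⟨r, hr⟩ := hq f hfI
      rw [← hf, hr, ev, map_mul]
      have : MvPolynomial.eval ![z.1, z.2] q = 0 := hz
      rw [this, zero_mul]
    have h1 : ∀ s ∈ ball p.2 δ, H (z, cj (φ s, s)) = 0 := by
      intro s hs
      refine step _ ?_
      filter_upwards [ball_mem_nhds p.2 hδ] with t ht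
      exact hG t ht s hs
    refine step (cj z) ?_
    filter_upwards [ball_mem_nhds p.2 hδ] with s hs
    have h2 := hH.herm (z, cj (φ s, s))
    rw [h1 s hs, map_zero] at h2
    simp only [cc, cj_cj] at h2
    exact h2

/-- swapping the coordinates -/
noncomputable def SW : (V × V) →L[ℂ] (V × V) :=
  ((((ContinuousLinearMap.snd ℂ ℂ ℂ).prod (ContinuousLinearMap.fst ℂ ℂ ℂ)).comp
    (ContinuousLinearMap.fst ℂ V V))).prod
  (((ContinuousLinearMap.snd ℂ ℂ ℂ).prod (ContinuousLinearMap.fst ℂ ℂ ℂ)).comp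
    (ContinuousLinearMap.snd ℂ V V))

theorem SW_apply (x : V × V) : SW x = ((x.1.2, x.1.1), (x.2.2, x.2.1)) := rfl

theorem dd_SW {f : V × V → ℂ} (hf : Differentiable ℂ f) (v x : V × V) :
    dd v (fun y => f (SW y)) x = dd (SW v) f (SW x) := by
  have h1 := (hf (SW x)).hasFDerivAt.comp x SW.hasFDerivAt
  have h2 : fderiv ℂ (fun y => f (SW y)) x = _ := h1.fderiv
  unfold dd
  rw [h2]
  rfl

theorem PSys.swap {H : V × V → ℂ} {d : ℕ} (hH : PSys H d) : PSys (fun x => H (SW x)) d where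
  smooth := hH.smooth.comp SW.contDiff
  herm := by
    intro x
    rw [← hH.herm]
    rfl
  poly := by
    intro ζ
    obtain ⟨h, hd, hh⟩ := hH.poly (ζ.2, ζ.1)
    refine ⟨MvPolynomial.rename (Equiv.swap (0 : Fin 2) 1) h,
      (MvPolynomial.totalDegree_rename_le _ _).trans hd, fun z => ?_⟩
    have h1 := hh (z.2, z.1)
    rw [ev, MvPolynomial.eval_rename]
    have h2 : (![z.1, z.2] ∘ (Equiv.swap (0 : Fin 2) 1)) = ![z.2, z.1] := by
      funext i
      fin_cases i <;> simp
    rw [h2]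
    exact h1

theorem Lam_SW {H : V × V → ℂ} (hH : ContDiff ℂ ∞ H) (x : V × V) :
    Lam (fun x => H (SW x)) x = Lam H (SW x) := by
  have h1 : ∀ v, dd v (fun y => H (SW y)) = fun y => dd (SW v) H (SW y) := fun v =>
    funext fun y => dd_SW (hH.differentiable (by simp)) v y
  have h2 : ∀ u v, dd u (dd v (fun y => H (SW y))) = fun y => dd (SW u) (dd (SW v) H) (SW y) := by
    intro u v
    rw [h1]
    exact funext fun y => dd_SW ((dd_smooth hH _).differentiable (by simp)) u y
  have a1 : SW ea = eb := rfl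
  have a2 : SW eb = ea := rfl
  have a3 : SW ec = ee := rfl
  have a4 : SW ee = ec := rfl
  unfold Lam
  simp only [h2]
  simp only [h1, a1, a2, a3, a4]
  ring

theorem curve {H : V × V → ℂ} {d : ℕ} (hH : PSys H d) {p : V} (hp : H (rl p) = 0)
    (ha : ∃ h, H1 H p h ≠ 0) (hΛ : ∃ C, ∀ᶠ x in 𝓝 (rl p), ‖Lam H x‖ ≤ C * ‖H x‖) :
    ∃ q : MvPolynomial (Fin 2) ℂ, q ≠ 0 ∧ q.totalDegree ≤ d ∧ ev p q = 0 ∧
      ∀ z, ev z q = 0 → H (rl z) = 0 := by
  by_cases h1 : dd ea H (rl p) = 0
  · have h2 : dd eb H (rl p) ≠ 0 := by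
      intro h2
      obtain ⟨h, hh⟩ := ha
      apply hh
      have h3 : ((h, 0) : V × V) = h.1 • ea + h.2 • eb := by simp [ea, eb]
      rw [H1, h3, dd_add_left, dd_smul_left, dd_smul_left, h1, h2]
      ring
    set p' : V := (p.2, p.1) with hp'
    have hSp : SW (rl p') = rl p := rfl
    obtain ⟨C, hC⟩ := hΛ
    obtain ⟨q, hq0, hqd, hqp, hq⟩ := curve1 hH.swap (p := p') (by rw [hSp, hp])
      (by
        rw [dd_SW hH.toHSys.diff, hSp]
        exact h2) ⟨C, by
        have ht : Tendsto SW (𝓝 (rl p')) (𝓝 (rl p)) := by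
          have := SW.continuous.tendsto (rl p')
          rwa [hSp] at this
        filter_upwards [ht.eventually hC] with x hx
        rw [Lam_SW hH.smooth]
        exact hx⟩
    have hev : ∀ z : V, ev z (MvPolynomial.rename (Equiv.swap (0 : Fin 2) 1) q)
        = ev (z.2, z.1) q := by
      intro z
      rw [ev, MvPolynomial.eval_rename]
      have h2 : (![z.1, z.2] ∘ (Equiv.swap (0 : Fin 2) 1)) = ![z.2, z.1] := by
        funext i
        fin_cases i <;> simp
      rw [h2]
      rfl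
    refine ⟨MvPolynomial.rename (Equiv.swap (0 : Fin 2) 1) q, ?_,
      (MvPolynomial.totalDegree_rename_le _ _).trans hqd, ?_, ?_⟩
    · intro h0
      exact hq0 (MvPolynomial.rename_injective _ (Equiv.injective _) (by rw [h0, map_zero]))
    · rw [hev]
      exact hqp
    · intro z hz
      rw [hev] at hz
      exact hq _ hz
  · exact curve1 hH hp h1 hΛ

end Pool.FB74
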