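import Pool.Agent.FB74.Herm

/-!
Local structure of a domain with smooth defining function near a boundary point.
-/

set_option autoImplicit false

namespace Pool.FB74

open Topology Filter Set Metric
open scoped ContDiff ComplexConjugate

/-- Domain on which `PR H` is negative and whose boundary in `U` is given by `PR H = 0`. -/
structure Dom (Ω : Set V) (H : V × V → ℂ) (U : Set V) : Prop where
  sys : HSys H
  op : IsOpen Ω
  neg : ∀ z ∈ Ω, PR H z < 0
  opU : IsOpen U
  bd : ∀ z ∈ frontier Ω, z ∈ U → PR H z = 0 ∧ ∃ h, H1 H z h ≠ 0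

theorem rl_smul_real (s : ℝ) (z : V) : rl (s • z) = (s : ℂ) • rl z := by
  simp [rl, cj]

theorem PR_hasDerivAt {H : V × V → ℂ} (hH : HSys H) (x ν : V) (s : ℝ) :
    HasDerivAt (fun s : ℝ => PR H (x + s • ν)) (2 * (H1 H (x + s • ν) ν).re) s := by
  have h1 := dd_hasDerivAt hH.diff (rl ν) (rl (x + s • ν))
  have h2 : HasDerivAt (fun τ : ℂ => H (rl (x + s • ν) + (τ - s) • rl ν))
      (dd (rl ν) H (rl (x + s • ν))) (s : ℂ) := by
    have h3 : HasDerivAt (fun τ : ℂ => τ - s) 1 (s : ℂ) := (hasDerivAt_id _).sub_const _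
    have h4 := HasDerivAt.comp (h₂ := fun τ : ℂ => H (rl (x + s • ν) + τ • rl ν))
      (h := fun τ : ℂ => τ - s) (s : ℂ) (by rw [sub_self]; exact h1) h3
    rw [mul_one] at h4
    exact h4
  have h5 := h2.real_of_complex
  rw [dd_rl hH, Complex.ofReal_re] at h5
  refine h5.congr_of_eventuallyEq (Eventually.of_forall fun τ => ?_)
  show PR H (x + τ • ν) = (H (rl (x + s • ν) + ((τ : ℂ) - s) • rl ν)).re
  have h6 : rl (x + s • ν) + ((τ : ℂ) - s) • rl ν = rl (x + τ • ν) := by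
    rw [rl_add, rl_add, rl_smul_real, rl_smul_real]
    module
  rw [h6]
  rfl

theorem H1_continuous {H : V × V → ℂ} (hH : HSys H) (ν : V) : Continuous fun x => H1 H x ν :=
  (dd_smooth hH.smooth (ν, 0)).continuous.comp continuous_rl

/-- Moving in the direction `ν` increases the defining function. -/
theorem PR_increase {H : V × V → ℂ} (hH : HSys H) {p ν : V} {R : ℝ}
    (hR : ∀ x ∈ ball p R, 1 / 2 < (H1 H x ν).re) {x : V} {s : ℝ} (hs : 0 ≤ s)
    (hx : x ∈ ball p R) (hx' : x + s • ν ∈ ball p R) : PR H x + s ≤ PR H (x + s • ν) := by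
  have hseg : ∀ θ ∈ Icc (0 : ℝ) s, x + θ • ν ∈ ball p R := by
    intro θ hθ
    rcases hs.eq_or_lt with h0 | h0
    · have : θ = 0 := le_antisymm (by rw [h0]; exact hθ.2) hθ.1
      rw [this, zero_smul, add_zero]
      exact hx
    have h1 : x + θ • ν = (1 - θ / s) • x + (θ / s) • (x + s • ν) := by
      rw [smul_add, smul_smul, div_mul_cancel₀ _ h0.ne']
      module
    rw [h1]
    refine (convex_ball p R) hx hx' ?_ ?_ ?_
    · rw [sub_nonneg, div_le_one h0]
      exact hθ.2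
    · exact div_nonneg hθ.1 hs
    · ring
  have hmono : MonotoneOn (fun θ : ℝ => PR H (x + θ • ν) - θ) (Icc 0 s) := by
    refine monotoneOn_of_hasDerivWithinAt_nonneg (f' := fun θ => 2 * (H1 H (x + θ • ν) ν).re - 1)
      (convex_Icc 0 s) ?_ ?_ ?_
    · exact fun θ _ => ((PR_hasDerivAt hH x ν θ).sub (hasDerivAt_id θ)).continuousAt.continuousWithinAt
    · intro θ _
      exact ((PR_hasDerivAt hH x ν θ).sub (hasDerivAt_id θ)).hasDerivWithinAt
    · intro θ hθ
      have h1 := hR _ (hseg θ (interior_subset hθ))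
      show 0 ≤ 2 * (H1 H (x + θ • ν) ν).re - 1
      linarith
  have := hmono (left_mem_Icc.2 hs) (right_mem_Icc.2 hs) hs
  simp only [zero_smul, add_zero, sub_zero] at this
  linarith

/-- Signs of the defining function on both sides. -/
theorem signs {H : V × V → ℂ} (hH : HSys H) {p ν : V} {R : ℝ} (hR0 : 0 < R)
    (hR : ∀ x ∈ ball p R, 1 / 2 < (H1 H x ν).re) (hp : PR H p = 0) :
    ∃ η > 0, ∃ R' > 0, ∀ y ∈ ball p R', PR H (y + (-η) • ν) < 0 ∧ 0 < PR H (y + η • ν) ∧
      ∀ θ : ℝ, |θ| ≤ η → y + θ • ν ∈ ball p R := by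
  set η : ℝ := R / (2 * (‖ν‖ + 1)) with hη
  have hη0 : 0 < η := by positivity
  have hην : η * ‖ν‖ < R / 2 := by
    rw [hη, div_mul_eq_mul_div, div_lt_div_iff₀ (by positivity) (by positivity)]
    nlinarith [norm_nonneg ν]
  have hpp : p ∈ ball p R := mem_ball_self hR0
  have hin : ∀ θ : ℝ, |θ| ≤ η → ‖θ • ν‖ < R / 2 := by
    intro θ hθ
    rw [norm_smul, Real.norm_eq_abs]
    exact lt_of_le_of_lt (mul_le_mul_of_nonneg_right hθ (norm_nonneg _)) hην
  have hin' : ∀ θ : ℝ, |θ| ≤ η → p + θ • ν ∈ ball p R := by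
    intro θ hθ
    rw [mem_ball, dist_eq_norm, add_sub_cancel_left]
    linarith [hin θ hθ]
  have h1 : 0 < PR H (p + η • ν) := by
    have := PR_increase hH hR hη0.le hpp (hin' η (by rw [abs_of_pos hη0]))
    linarith
  have h2 : PR H (p + (-η) • ν) < 0 := by
    have h3 : p + (-η) • ν ∈ ball p R := hin' (-η) (by rw [abs_neg, abs_of_pos hη0])
    have h4 : p + (-η) • ν + η • ν = p := by module
    have := PR_increase hH hR hη0.le h3 (by rw [h4]; exact hpp)
    rw [h4] at this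
    linarith
  have c1 : ∀ᶠ y in 𝓝 p, 0 < PR H (y + η • ν) := by
    have hc : Continuous fun y : V => PR H (y + η • ν) :=
      (PR_continuous hH).comp (continuous_id.add continuous_const)
    exact (hc.tendsto p).eventually (lt_mem_nhds h1)
  have c2 : ∀ᶠ y in 𝓝 p, PR H (y + (-η) • ν) < 0 := by
    have hc : Continuous fun y : V => PR H (y + (-η) • ν) :=
      (PR_continuous hH).comp (continuous_id.add continuous_const)
    exact (hc.tendsto p).eventually (gt_mem_nhds h2)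
  obtain ⟨r, hr0, hr⟩ := Metric.eventually_nhds_iff_ball.1 (c1.and c2)
  refine ⟨η, hη0, min r (R / 2), lt_min hr0 (by positivity), fun y hy => ?_⟩
  have hy1 : y ∈ ball p r := ball_subset_ball (min_le_left _ _) hy
  have hy2 : y ∈ ball p (R / 2) := ball_subset_ball (min_le_right _ _) hy
  refine ⟨(hr y hy1).2, (hr y hy1).1, fun θ hθ => ?_⟩
  rw [mem_ball, dist_eq_norm] at hy2 ⊢
  have h5 : y + θ • ν - p = (y - p) + θ • ν := by module
  rw [h5]
  have := norm_add_le (y - p) (θ • ν)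
  linarith [hin θ hθ]

variable {Ω U : Set V} {H : V × V → ℂ}

theorem Dom.not_mem (hD : Dom Ω H U) {p : V} (hp : p ∈ frontier Ω) : p ∉ Ω := by
  rw [hD.op.frontier_eq] at hp
  exact hp.2

theorem Dom.seg (hD : Dom Ω H U) {x y : V} (hx : x ∈ Ω) (hU : segment ℝ x y ⊆ U)
    (h : ∀ w ∈ segment ℝ x y, PR H w < 0) : y ∈ Ω := by
  have h1 : segment ℝ x y ⊆ Ω := by
    refine (convex_segment (𝕜 := ℝ) x y).isPreconnected.subset_of_closure_inter_subset hD.op
      ⟨x, left_mem_segment ℝ x y, hx⟩ ?_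
    rintro w ⟨hw1, hw2⟩
    by_contra hw
    have h2 : w ∈ frontier Ω := ⟨hw1, fun h => hw (interior_subset h)⟩
    have := h w hw2
    rw [(hD.bd w h2 (hU hw2)).1] at this
    exact lt_irrefl 0 this
  exact h1 (right_mem_segment ℝ x y)

/-- Local structure at a boundary point. -/
theorem Dom.loc (hD : Dom Ω H U) {p : V} (hp : p ∈ frontier Ω) (hpU : p ∈ U) :
    ∃ ν : V, ∃ R > 0, (∀ x ∈ ball p R, 1 / 2 < (H1 H x ν).re) ∧
      (∀ z ∈ ball p R, PR H z < 0 → z ∈ Ω) ∧ (∀ z ∈ ball p R, PR H z = 0 → z ∈ frontier Ω) ∧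
      ball p R ⊆ U := by
  obtain ⟨hp0, h0, hh0⟩ := hD.bd p hp hpU
  set ν : V := (H1 H p h0)⁻¹ • h0 with hν
  have hν1 : H1 H p ν = 1 := by
    rw [hν, H1_smul, inv_mul_cancel₀ hh0]
  have hcont : ∀ᶠ x in 𝓝 p, 1 / 2 < (H1 H x ν).re := by
    have hc : Continuous fun x => (H1 H x ν).re :=
      Complex.continuous_re.comp (H1_continuous hD.sys ν)
    refine (hc.tendsto p).eventually (lt_mem_nhds ?_)
    rw [hν1]
    norm_num
  obtain ⟨R1, hR1, hb'⟩ := Metric.eventually_nhds_iff_ball.1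
    (hcont.and (hD.opU.mem_nhds hpU))
  have hb : ∀ x ∈ ball p R1, 1 / 2 < (H1 H x ν).re := fun x hx => (hb' x hx).1
  have hbU : ball p R1 ⊆ U := fun x hx => (hb' x hx).2
  obtain ⟨η, hη, R, hR, hs⟩ := signs hD.sys hR1 hb hp0
  have hsub : ∀ y ∈ ball p R, y ∈ ball p R1 := by
    intro y hy
    have := (hs y hy).2.2 0 (by rw [abs_zero]; exact hη.le)
    rwa [zero_smul, add_zero] at this
  -- downward segments
  have hdown : ∀ y ∈ ball p R, PR H y < 0 → ∀ θ : ℝ, 0 ≤ θ → θ ≤ η →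
      PR H (y + (-θ) • ν) < 0 := by
    intro y hy hy0 θ hθ0 hθ
    have h1 : y + (-θ) • ν ∈ ball p R1 :=
      (hs y hy).2.2 (-θ) (by rw [abs_neg, abs_of_nonneg hθ0]; exact hθ)
    have h2 : y + (-θ) • ν + θ • ν = y := by module
    have := PR_increase hD.sys hb hθ0 h1 (by rw [h2]; exact hsub y hy)
    rw [h2] at this
    linarith
  have hshift : ∀ y ∈ ball p R, y + (-η) • ν ∈ ball p R1 := fun y hy =>
    (hs y hy).2.2 (-η) (by rw [abs_neg, abs_of_pos hη])
  have hsegU : ∀ a ∈ ball p R1, ∀ b ∈ ball p R1, segment ℝ a b ⊆ U := fun a ha b hb =>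
    ((convex_ball p R1).segment_subset ha hb).trans hbU
  have hneg : ∀ z ∈ ball p R, PR H z < 0 → z ∈ Ω := by
    intro z hz hz0
    have hpc : p ∈ closure Ω := frontier_subset_closure hp
    obtain ⟨o1, ho1b, ho1⟩ := mem_closure_iff_nhds.1 hpc (ball p R) (ball_mem_nhds p hR)
    have h1 : o1 + (-η) • ν ∈ Ω := by
      refine hD.seg ho1 (hsegU _ (hsub _ ho1b) _ (hshift _ ho1b)) fun w hw => ?_
      rw [segment_eq_image] at hw
      obtain ⟨θ, hθ, rfl⟩ := hw
      have h2 : (1 - θ) • o1 + θ • (o1 + (-η) • ν) = o1 + (-(θ * η)) • ν := by module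
      simp only
      rw [h2]
      exact hdown o1 ho1b (hD.neg o1 ho1) _ (mul_nonneg hθ.1 hη.le) (by nlinarith [hθ.2])
    have h2 : z + (-η) • ν ∈ Ω := by
      refine hD.seg h1 (hsegU _ (hshift _ ho1b) _ (hshift _ hz)) fun w hw => ?_
      rw [segment_eq_image] at hw
      obtain ⟨θ, hθ, rfl⟩ := hw
      have h3 : (1 - θ) • (o1 + (-η) • ν) + θ • (z + (-η) • ν)
          = ((1 - θ) • o1 + θ • z) + (-η) • ν := by module
      simp only
      rw [h3]
      refine (hs _ ?_).1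
      exact (convex_ball p R) ho1b hz (by linarith [hθ.2]) hθ.1 (by ring)
    refine hD.seg h2 (hsegU _ (hshift _ hz) _ (hsub _ hz)) fun w hw => ?_
    rw [segment_eq_image] at hw
    obtain ⟨θ, hθ, rfl⟩ := hw
    have h3 : (1 - θ) • (z + (-η) • ν) + θ • z = z + (-((1 - θ) * η)) • ν := by module
    simp only
    rw [h3]
    exact hdown z hz hz0 _ (mul_nonneg (by linarith [hθ.2]) hη.le) (by nlinarith [hθ.1])
  refine ⟨ν, R, hR, fun x hx => hb x (hsub x hx), hneg, ?_, fun x hx => hbU (hsub x hx)⟩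
  intro z hz hz0
  refine ⟨?_, ?_⟩
  · rw [mem_closure_iff_nhds]
    intro U hU
    have ht : Tendsto (fun θ : ℝ => z + (-θ) • ν) (𝓝[>] 0) (𝓝 z) := by
      have hc : Continuous (fun θ : ℝ => z + (-θ) • ν) := by fun_prop
      have := hc.tendsto 0
      simp only [neg_zero, zero_smul, add_zero] at this
      exact this.mono_left nhdsWithin_le_nhds
    have hsm : ∀ᶠ θ : ℝ in 𝓝[>] 0, θ < η := nhdsWithin_le_nhds (Iio_mem_nhds hη)
    obtain ⟨θ, ⟨⟨hθU, hθb⟩, hθη⟩, hθ0⟩ := (((ht.eventually (eventually_mem_set.2 hU)).and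
      (ht.eventually (isOpen_ball.mem_nhds hz))).and hsm |>.and self_mem_nhdsWithin).exists
    have hθ0 : 0 < θ := hθ0
    refine ⟨z + (-θ) • ν, hθU, hneg _ hθb ?_⟩
    have h2 : z + (-θ) • ν + θ • ν = z := by module
    have := PR_increase hD.sys hb hθ0.le (hsub _ hθb) (by rw [h2]; exact hsub z hz)
    rw [h2] at this
    linarith
  · intro h
    have := hD.neg z (interior_subset h)
    rw [hz0] at this
    exact lt_irrefl 0 this

end Pool.FB74
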