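import Pool.Agent.FB74.Levi2

/-!
The boundary of a biholomorphic image of the plane is Levi flat.
-/

set_option autoImplicit false

namespace Pool.FB74

open Topology Filter Set Metric
open scoped ContDiff ComplexConjugate

/-- There is no local peak function at a boundary point. -/
theorem no_peak {Ω : Set V} {G : V → V} (hG : Differentiable ℂ G)
    (hGΩ : ∀ y, G y ∈ Ω) (hsurj : ∀ x ∈ Ω, ∃ y, G y = x) {p : V} (hp : p ∈ closure Ω)
    (hpn : p ∉ Ω) {f : V → ℂ} (hf : Differentiable ℂ f) (hfp : f p = 0) {c R : ℝ} (hc : 0 < c)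
    (hR : 0 < R) (hpk : ∀ z ∈ Ω, ‖z - p‖ < R → (f z).re ≤ -(c * ‖z - p‖ ^ 2)) : False := by
  obtain ⟨κ, hκ⟩ : ∃ κ : ℝ, κ = c * (R / 2) ^ 2 := ⟨_, rfl⟩
  have hκ0 : 0 < κ := by rw [hκ]; positivity
  classical
  set u : V → ℝ := fun z => if ‖z - p‖ < R then max (f z).re (-κ) else -κ with hu
  have hu1 : ∀ z, ‖z - p‖ < R → u z = max (f z).re (-κ) := by
    intro z hz
    simp only [hu]
    rw [if_pos hz]
  have hu2 : ∀ z ∈ Ω, R / 2 ≤ ‖z - p‖ → u z = -κ := by
    intro z hz hz2
    by_cases h : ‖z - p‖ < R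
    · rw [hu1 z h]
      refine max_eq_right ((hpk z hz h).trans ?_)
      rw [hκ]
      have : (R / 2) ^ 2 ≤ ‖z - p‖ ^ 2 := pow_le_pow_left₀ (by positivity) hz2 2
      have := mul_le_mul_of_nonneg_left this hc.le
      linarith
    · simp only [hu]
      rw [if_neg h]
  have hu3 : ∀ z, -κ ≤ u z := by
    intro z
    by_cases h : ‖z - p‖ < R
    · rw [hu1 z h]
      exact le_max_right _ _
    · simp only [hu]
      rw [if_neg h]
  have hu4 : ∀ z ∈ Ω, u z ≤ 0 := by
    intro z hz
    by_cases h : ‖z - p‖ < R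
    · rw [hu1 z h]
      refine max_le ((hpk z hz h).trans ?_) (by linarith)
      have : 0 ≤ c * ‖z - p‖ ^ 2 := by positivity
      linarith
    · simp only [hu]
      rw [if_neg h]
      linarith
  have hconst : ∀ a b : V, u (G a) = u (G b) := by
    intro a b
    set Z : ℂ → V := fun ζ => G (a + ζ • (b - a)) with hZ
    have hl : Differentiable ℂ (fun ζ : ℂ => a + ζ • (b - a)) := by fun_prop
    have hZd : Differentiable ℂ Z := hG.comp hl
    have hZc : Continuous fun ζ => ‖Z ζ - p‖ := (hZd.continuous.sub continuous_const).norm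
    have hfc : Continuous fun ζ => (f (Z ζ)).re :=
      Complex.continuous_re.comp (hf.continuous.comp hZd.continuous)
    have hcont : Continuous fun ζ => u (Z ζ) := by
      rw [continuous_iff_continuousAt]
      intro ζ0
      by_cases h : ‖Z ζ0 - p‖ < R
      · have h1 : ContinuousAt (fun ζ => max (f (Z ζ)).re (-κ)) ζ0 :=
          (hfc.max continuous_const).continuousAt
        refine h1.congr ?_
        filter_upwards [(hZc.tendsto ζ0).eventually (gt_mem_nhds h)] with ζ hζ
        exact (hu1 _ hζ).symm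
      · have h1 : R / 2 < ‖Z ζ0 - p‖ := by
          push Not at h
          linarith
        refine (continuousAt_const (y := -κ)).congr ?_
        filter_upwards [(hZc.tendsto ζ0).eventually (lt_mem_nhds h1)] with ζ hζ
        exact (hu2 _ (hGΩ _) (le_of_lt hζ)).symm
    have htouch : ∀ ζ, Touch (fun ζ => u (Z ζ)) ζ := by
      intro ζ0
      by_cases h : u (Z ζ0) = -κ
      · refine ⟨fun _ => ((-κ : ℝ) : ℂ), Eventually.of_forall fun _ => differentiableAt_const _, ?_,
          Eventually.of_forall fun ζ => ?_⟩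
        · show ((-κ : ℝ) : ℂ).re = u (Z ζ0)
          rw [Complex.ofReal_re, h]
        · show ((-κ : ℝ) : ℂ).re ≤ u (Z ζ)
          rw [Complex.ofReal_re]
          exact hu3 _
      · have h1 : ‖Z ζ0 - p‖ < R := by
          by_contra h2
          push Not at h2
          exact h (hu2 _ (hGΩ _) (by linarith))
        refine ⟨fun ζ => f (Z ζ), Eventually.of_forall fun ζ => (hf.comp hZd) ζ, ?_, ?_⟩
        · show (f (Z ζ0)).re = u (Z ζ0)
          rw [hu1 _ h1] at h ⊢
          rcases le_total (f (Z ζ0)).re (-κ) with h2 | h2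
          · exact absurd (max_eq_right h2) h
          · exact (max_eq_left h2).symm
        · filter_upwards [(hZc.tendsto ζ0).eventually (gt_mem_nhds h1)] with ζ hζ
          show (f (Z ζ)).re ≤ u (Z ζ)
          rw [hu1 _ hζ]
          exact le_max_left _ _
    have := liouville_touch hcont (M := 0) (fun ζ => hu4 _ (hGΩ _)) htouch 0 1
    simp only [hZ, zero_smul, add_zero, one_smul, add_sub_cancel] at this
    exact this
  have hconst' : ∀ x ∈ Ω, ∀ y ∈ Ω, u x = u y := by
    intro x hx y hy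
    obtain ⟨a, rfl⟩ := hsurj x hx
    obtain ⟨b, rfl⟩ := hsurj y hy
    exact hconst a b
  have hpick : ∀ m : ℝ, m < 0 → ∃ z ∈ Ω, ‖z - p‖ < R ∧ m < (f z).re := by
    intro m hm
    have h1 : ∀ᶠ z in 𝓝 p, ‖z - p‖ < R := by
      have hc1 : Continuous fun z : V => ‖z - p‖ := (continuous_id.sub continuous_const).norm
      refine (hc1.tendsto p).eventually (gt_mem_nhds ?_)
      rw [sub_self, norm_zero]
      exact hR
    have h2 : ∀ᶠ z in 𝓝 p, m < (f z).re := by
      have hc1 : Continuous fun z : V => (f z).re := Complex.continuous_re.comp hf.continuous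
      refine (hc1.tendsto p).eventually (lt_mem_nhds ?_)
      rw [hfp]
      exact hm
    obtain ⟨z, hz1, hz2⟩ := mem_closure_iff_nhds.1 hp _ (h1.and h2)
    exact ⟨z, hz2, hz1.1, hz1.2⟩
  obtain ⟨z1, hz1, hz1R, hz1κ⟩ := hpick (-κ) (by linarith)
  have hne : 0 < ‖z1 - p‖ := by
    rw [norm_pos_iff, sub_ne_zero]
    rintro rfl
    exact hpn hz1
  have hz1neg : (f z1).re < 0 := by
    refine lt_of_le_of_lt (hpk z1 hz1 hz1R) ?_
    have : 0 < c * ‖z1 - p‖ ^ 2 := by positivity
    linarith
  obtain ⟨z2, hz2, hz2R, hz2m⟩ := hpick (f z1).re hz1neg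
  have e1 : u z1 = (f z1).re := by
    rw [hu1 _ hz1R]
    exact max_eq_left hz1κ.le
  have e2 : u z2 = (f z2).re := by
    rw [hu1 _ hz2R]
    exact max_eq_left (by linarith)
  have := hconst' z1 hz1 z2 hz2
  rw [e1, e2] at this
  linarith

theorem pk_diff {H : V × V → ℂ} (hH : HSys H) (p : V) (K : ℝ) : Differentiable ℂ (pk H p K) := by
  have hinl : Differentiable ℂ (fun h : V => ((h, 0) : V × V)) :=
    differentiable_id.prodMk (differentiable_const _)
  have h1 : Differentiable ℂ (fun h => H1 H p h) :=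
    (fderiv ℂ H (rl p)).differentiable.comp hinl
  have h2 : Differentiable ℂ (fun h => H2 H p h h) := by
    have h3 : (fun h => H2 H p h h) = fun h : V =>
        fderiv ℂ (fderiv ℂ H) (rl p) ((h, 0) : V × V) ((h, 0) : V × V) := by
      funext h
      rw [H2, dd_dd hH.smooth]
    rw [h3]
    exact ((fderiv ℂ (fderiv ℂ H) (rl p)).differentiable.comp hinl).clm_apply hinl
  unfold pk
  exact ((h1.const_mul 2).add h2).add ((h1.pow 2).const_mul _)

/-- The boundary is Levi flat. -/
theorem Dom.levi_flat {Ω U : Set V} {H : V × V → ℂ} (hD : Dom Ω H U) {F G : V → V}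
    (hF : DifferentiableOn ℂ F Ω) (hG : Differentiable ℂ G) (hGΩ : ∀ y, G y ∈ Ω)
    (hGF : ∀ x ∈ Ω, G (F x) = x) {p : V} (hp : p ∈ frontier Ω) (hpU : p ∈ U) {T : V}
    (hT : H1 H p T = 0) : HL H p T T = 0 := by
  have h1 := hD.levi_nonneg hF hG.continuous hGΩ hGF hp hpU hT
  have h2 : (HL H p T T).re ≤ 0 := by
    by_contra hL
    push Not at hL
    obtain ⟨hp0, hne⟩ := hD.bd p hp hpU
    obtain ⟨K, c, R, hc, hR, hpk⟩ := peak hD.sys hp0 hne hT hL
    refine no_peak hG hGΩ (fun x hx => ⟨F x, hGF x hx⟩) (frontier_subset_closure hp)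
      (hD.not_mem hp) (f := fun z => pk H p K (z - p)) ?_ ?_ hc hR ?_
    · exact (pk_diff hD.sys p K).comp (differentiable_id.sub_const p)
    · show pk H p K (p - p) = 0
      rw [sub_self]
      have e1 : H1 H p 0 = 0 := by
        have := H1_smul (H := H) p 0 0
        simpa using this
      have e2 : H2 H p 0 0 = 0 := by
        have := H2_smul_left (H := H) p 0 0 0
        simpa using this
      simp [pk, e1, e2]
    · intro z hz hzR
      refine hpk (z - p) hzR ?_
      rw [add_sub_cancel]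
      exact hD.neg z hz
  have h3 : (HL H p T T).re = 0 := le_antisymm h2 h1
  have h4 : ((HL H p T T).re : ℂ) = HL H p T T :=
    Complex.conj_eq_iff_re.1 (HL_conj hD.sys p T T).symm
  rw [← h4, h3, Complex.ofReal_zero]

end Pool.FB74
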