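import Pool.Agent.FB74.NullS

/-!
Goursat argument: on a Levi flat hypersurface the Segre variety through a point lies in it.
-/

set_option autoImplicit false

namespace Pool.FB74

open Topology Filter Set Metric
open scoped ContDiff ComplexConjugate

/-- basis vectors -/
def ea : V × V := ((1, 0), 0)
def eb : V × V := ((0, 1), 0)
def ec : V × V := (0, (1, 0))
def ee : V × V := (0, (0, 1))

/-- The polarised Levi determinant. -/
noncomputable def Lam (H : V × V → ℂ) (x : V × V) : ℂ :=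
  dd eb H x * dd ee H x * dd ea (dd ec H) x - dd eb H x * dd ec H x * dd ea (dd ee H) x
    - dd ea H x * dd ee H x * dd eb (dd ec H) x + dd ea H x * dd ec H x * dd eb (dd ee H) x

theorem Lam_smooth {H : V × V → ℂ} (hH : ContDiff ℂ ∞ H) : ContDiff ℂ ∞ (Lam H) := by
  have h1 := fun v => dd_smooth hH v
  have h2 := fun u v => dd_smooth (h1 v) u
  unfold Lam
  exact ((((h1 _).mul (h1 _)).mul (h2 _ _)).sub (((h1 _).mul (h1 _)).mul (h2 _ _))).sub
    (((h1 _).mul (h1 _)).mul (h2 _ _)) |>.add (((h1 _).mul (h1 _)).mul (h2 _ _))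

/-- Abstract Goursat lemma. -/
theorem goursat_abs {H : V × V → ℂ} (hH : ContDiff ℂ ∞ H) {p q : V}
    (ha : dd ea H (p, q) ≠ 0) (hc : dd ec H (p, q) ≠ 0) {φ ψ : ℂ → ℂ}
    (hφ : AnalyticAt ℂ φ p.2) (hψ : AnalyticAt ℂ ψ q.2) (hφ0 : φ p.2 = p.1) (hψ0 : ψ q.2 = q.1)
    (h1 : ∀ᶠ t in 𝓝 p.2, H ((φ t, t), q) = 0) (h2 : ∀ᶠ s in 𝓝 q.2, H (p, (ψ s, s)) = 0)
    (hΛ : ∃ C, ∀ᶠ x in 𝓝 (p, q), ‖Lam H x‖ ≤ C * ‖H x‖) :
    ∃ δ > 0, ∀ t ∈ ball p.2 δ, ∀ s ∈ ball q.2 δ, H ((φ t, t), (ψ s, s)) = 0 := by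
  obtain ⟨C, hC⟩ := hΛ
  have hHd : Differentiable ℂ H := hH.differentiable (by simp)
  have hdd : ∀ v, Differentiable ℂ (dd v H) := fun v =>
    (dd_smooth hH v).differentiable (by simp)
  have hddc : ∀ v, Continuous (dd v H) := fun v => (hdd v).continuous
  have hdd2 : ∀ u v, Continuous (dd u (dd v H)) := fun u v =>
    (dd_smooth (dd_smooth hH v) u).continuous
  set X : ℂ → ℂ → V × V := fun t s => ((φ t, t), (ψ s, s)) with hX
  set u : ℂ → V × V := fun t => ((deriv φ t, 1), 0) with hu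
  set v : ℂ → V × V := fun s => (0, (deriv ψ s, 1)) with hv
  have hX0 : X p.2 q.2 = (p, q) := by
    simp only [hX]
    rw [hφ0, hψ0]
  -- derivative facts
  have hXt : ∀ t s, DifferentiableAt ℂ φ t → HasDerivAt (fun t => X t s) (u t) t := by
    intro t s ht
    exact (ht.hasDerivAt.prodMk (hasDerivAt_id t)).prodMk (hasDerivAt_const t _)
  have hXs : ∀ t s, DifferentiableAt ℂ ψ s → HasDerivAt (fun s => X t s) (v s) s := by
    intro t s ht
    exact (hasDerivAt_const s _).prodMk (ht.hasDerivAt.prodMk (hasDerivAt_id s))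
  have hgt : ∀ t s, DifferentiableAt ℂ φ t →
      HasDerivAt (fun t => H (X t s)) (dd (u t) H (X t s)) t := fun t s ht =>
    dd_comp hHd (hXt t s ht)
  have hgs : ∀ t s, DifferentiableAt ℂ ψ s →
      HasDerivAt (fun s => H (X t s)) (dd (v s) H (X t s)) s := fun t s ht =>
    dd_comp hHd (hXs t s ht)
  have hg1s : ∀ t s, DifferentiableAt ℂ ψ s →
      HasDerivAt (fun s => dd (u t) H (X t s)) (dd (u t) (dd (v s) H) (X t s)) s := by
    intro t s ht
    have := dd_comp (hdd (u t)) (hXs t s ht)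
    rwa [dd_symm hH] at this
  have hg2t : ∀ t s, DifferentiableAt ℂ φ t →
      HasDerivAt (fun t => dd (v s) H (X t s)) (dd (u t) (dd (v s) H) (X t s)) t := fun t s ht =>
    dd_comp (hdd (v s)) (hXt t s ht)
  -- neighbourhoods
  have hφev : ∀ᶠ t in 𝓝 p.2, AnalyticAt ℂ φ t := hφ.eventually_analyticAt
  have hψev : ∀ᶠ s in 𝓝 q.2, AnalyticAt ℂ ψ s := hψ.eventually_analyticAt
  have hXc : ContinuousAt (fun y : ℂ × ℂ => X y.1 y.2) (p.2, q.2) := by
    have c1 : ContinuousAt (fun y : ℂ × ℂ => φ y.1) (p.2, q.2) :=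
      ContinuousAt.comp (f := fun y : ℂ × ℂ => y.1) hφ.continuousAt continuousAt_fst
    have c2 : ContinuousAt (fun y : ℂ × ℂ => ψ y.2) (p.2, q.2) :=
      ContinuousAt.comp (f := fun y : ℂ × ℂ => y.2) hψ.continuousAt continuousAt_snd
    exact (c1.prodMk continuousAt_fst).prodMk (c2.prodMk continuousAt_snd)
  have hXt0 : Tendsto (fun y : ℂ × ℂ => X y.1 y.2) (𝓝 (p.2, q.2)) (𝓝 (p, q)) := by
    have := hXc.tendsto
    simp only at this
    rwa [hX0] at this
  -- constants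
  set m : ℝ := ‖dd ea H (p, q) * dd ec H (p, q)‖ / 2 with hm
  have hm0 : 0 < m := by
    have := mul_ne_zero ha hc
    positivity
  have hbd : ∀ f : V × V → ℂ, Continuous f → ∀ᶠ x in 𝓝 (p, q), ‖f x‖ ≤ ‖f (p, q)‖ + 1 := by
    intro f hf
    have := (hf.norm.tendsto (p, q)).eventually (gt_mem_nhds (lt_add_one _))
    exact this.mono fun x hx => le_of_lt hx
  set M : ℝ := (‖dd ea H (p, q)‖ + 1) + (‖dd eb H (p, q)‖ + 1) + (‖dd ec H (p, q)‖ + 1)
    + (‖dd ee H (p, q)‖ + 1) + (‖dd ea (dd ec H) (p, q)‖ + 1) + (‖dd ea (dd ee H) (p, q)‖ + 1)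
    + (‖dd eb (dd ec H) (p, q)‖ + 1) with hM
  have hM0 : 0 ≤ M := by positivity
  have hnear : ∀ᶠ x in 𝓝 (p, q), m ≤ ‖dd ea H x * dd ec H x‖ ∧ ‖Lam H x‖ ≤ C * ‖H x‖ ∧
      ‖dd ea H x‖ ≤ M ∧ ‖dd eb H x‖ ≤ M ∧ ‖dd ec H x‖ ≤ M ∧ ‖dd ee H x‖ ≤ M ∧
      ‖dd ea (dd ec H) x‖ ≤ M ∧ ‖dd ea (dd ee H) x‖ ≤ M ∧ ‖dd eb (dd ec H) x‖ ≤ M := by
    have e0 : ∀ᶠ x in 𝓝 (p, q), m < ‖dd ea H x * dd ec H x‖ := by
      have hcm : Continuous fun x => ‖dd ea H x * dd ec H x‖ := ((hddc ea).mul (hddc ec)).norm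
      refine (hcm.tendsto (p, q)).eventually (lt_mem_nhds ?_)
      rw [hm]
      have := norm_pos_iff.2 (mul_ne_zero ha hc)
      linarith
    filter_upwards [e0, hC, hbd _ (hddc ea), hbd _ (hddc eb), hbd _ (hddc ec), hbd _ (hddc ee),
      hbd _ (hdd2 ea ec), hbd _ (hdd2 ea ee), hbd _ (hdd2 eb ec)] with x a0 a1 a2 a3 a4 a5 a6 a7 a8
    have n1 := norm_nonneg (dd ea H (p, q))
    have n2 := norm_nonneg (dd eb H (p, q))
    have n3 := norm_nonneg (dd ec H (p, q))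
    have n4 := norm_nonneg (dd ee H (p, q))
    have n5 := norm_nonneg (dd ea (dd ec H) (p, q))
    have n6 := norm_nonneg (dd ea (dd ee H) (p, q))
    have n7 := norm_nonneg (dd eb (dd ec H) (p, q))
    refine ⟨a0.le, a1, ?_, ?_, ?_, ?_, ?_, ?_, ?_⟩ <;> linarith
  -- continuity of the curve velocities
  have hdφ : ∀ t, AnalyticAt ℂ φ t → ContinuousAt (fun y : ℂ => u y) t := fun t ht =>
    (ht.deriv.continuousAt.prodMk continuousAt_const).prodMk continuousAt_const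
  have hdψ : ∀ s, AnalyticAt ℂ ψ s → ContinuousAt (fun y : ℂ => v y) s := fun s hs =>
    continuousAt_const.prodMk (hs.deriv.continuousAt.prodMk continuousAt_const)
  have hfd : Continuous (fderiv ℂ H) := (hH.fderiv_right (m := ∞) (by simp)).continuous
  have hfd2 : Continuous (fderiv ℂ (fderiv ℂ H)) :=
    ((hH.fderiv_right (m := ∞) (by simp)).fderiv_right (m := ∞) (by simp)).continuous
  have hXcont : ∀ t s, AnalyticAt ℂ φ t → AnalyticAt ℂ ψ s →
      ContinuousAt (fun y : ℂ × ℂ => X y.1 y.2) (t, s) := by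
    intro t s ht hs
    have c1 : ContinuousAt (fun y : ℂ × ℂ => φ y.1) (t, s) :=
      ContinuousAt.comp (f := fun y : ℂ × ℂ => y.1) ht.continuousAt continuousAt_fst
    have c2 : ContinuousAt (fun y : ℂ × ℂ => ψ y.2) (t, s) :=
      ContinuousAt.comp (f := fun y : ℂ × ℂ => y.2) hs.continuousAt continuousAt_snd
    exact (c1.prodMk continuousAt_fst).prodMk (c2.prodMk continuousAt_snd)
  have hg2c' : ∀ t s, AnalyticAt ℂ φ t → AnalyticAt ℂ ψ s →
      ContinuousAt (fun y : ℂ × ℂ => dd (v y.2) H (X y.1 y.2)) (t, s) := by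
    intro t s ht hs
    have c1 : ContinuousAt (fun y : ℂ × ℂ => fderiv ℂ H (X y.1 y.2)) (t, s) :=
      ContinuousAt.comp (f := fun y : ℂ × ℂ => X y.1 y.2) hfd.continuousAt (hXcont t s ht hs)
    have c2 : ContinuousAt (fun y : ℂ × ℂ => v y.2) (t, s) :=
      ContinuousAt.comp (f := fun y : ℂ × ℂ => y.2) (hdψ _ hs) continuousAt_snd
    exact c1.clm_apply c2
  have hg2c := hg2c' p.2 q.2 hφ hψ
  have hg12c : ∀ t s, AnalyticAt ℂ φ t → AnalyticAt ℂ ψ s →
      ContinuousAt (fun y : ℂ × ℂ => dd (u y.1) (dd (v y.2) H) (X y.1 y.2)) (t, s) := by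
    intro t s ht hs
    have c1 : ContinuousAt (fun y : ℂ × ℂ => fderiv ℂ (fderiv ℂ H) (X y.1 y.2)) (t, s) :=
      ContinuousAt.comp (f := fun y : ℂ × ℂ => X y.1 y.2) hfd2.continuousAt (hXcont t s ht hs)
    have c2 : ContinuousAt (fun y : ℂ × ℂ => v y.2) (t, s) :=
      ContinuousAt.comp (f := fun y : ℂ × ℂ => y.2) (hdψ _ hs) continuousAt_snd
    have c3 : ContinuousAt (fun y : ℂ × ℂ => u y.1) (t, s) :=
      ContinuousAt.comp (f := fun y : ℂ × ℂ => y.1) (hdφ _ ht) continuousAt_fst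
    have c4 := (c1.clm_apply c3).clm_apply c2
    refine c4.congr (Eventually.of_forall fun y => ?_)
    exact (dd_dd hH _ _ _).symm
  set K : ℝ := ‖dd (v q.2) H (X p.2 q.2)‖ + 1 with hK
  have hK0 : 0 ≤ K := by positivity
  have hg2bd : ∀ᶠ y : ℂ × ℂ in 𝓝 (p.2, q.2), ‖dd (v y.2) H (X y.1 y.2)‖ ≤ K := by
    have := (hg2c.norm.tendsto).eventually (gt_mem_nhds (lt_add_one _))
    exact this.mono fun x hx => le_of_lt hx
  have hall : ∀ᶠ y : ℂ × ℂ in 𝓝 (p.2, q.2), ((AnalyticAt ℂ φ y.1 ∧ H ((φ y.1, y.1), q) = 0) ∧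
      (AnalyticAt ℂ ψ y.2 ∧ H (p, (ψ y.2, y.2)) = 0)) ∧ (_ ∧ ‖dd (v y.2) H (X y.1 y.2)‖ ≤ K) :=
    (((continuousAt_fst (p := (p.2, q.2))).eventually (hφev.and h1)).and
      ((continuousAt_snd (p := (p.2, q.2))).eventually (hψev.and h2))).and
      ((hXt0.eventually hnear).and hg2bd)
  obtain ⟨δ1, hδ1, hb⟩ := Metric.eventually_nhds_iff_ball.1 hall
  have hmem : ∀ t ∈ ball p.2 δ1, ∀ s ∈ ball q.2 δ1, (t, s) ∈ ball (p.2, q.2) δ1 := by
    intro t ht s hs
    rw [← ball_prod_same]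
    exact ⟨ht, hs⟩
  have hp2 : p.2 ∈ ball p.2 δ1 := mem_ball_self hδ1
  have hq2 : q.2 ∈ ball q.2 δ1 := mem_ball_self hδ1
  have hg1z : ∀ t ∈ ball p.2 δ1, dd (u t) H (X t q.2) = 0 := by
    intro t ht
    have e1 := hgt t q.2 (hb _ (hmem t ht _ hq2)).1.1.1.differentiableAt
    have e2 : (fun t => H (X t q.2)) =ᶠ[𝓝 t] fun _ => 0 := by
      filter_upwards [isOpen_ball.mem_nhds ht] with t' ht'
      have := (hb _ (hmem t' ht' _ hq2)).1.1.2
      simp only [hX]
      rw [hψ0]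
      exact this
    exact e1.unique ((hasDerivAt_const t (0 : ℂ)).congr_of_eventuallyEq e2)
  have hg2z : ∀ s ∈ ball q.2 δ1, dd (v s) H (X p.2 s) = 0 := by
    intro s hs
    have e1 := hgs p.2 s (hb _ (hmem _ hp2 s hs)).1.2.1.differentiableAt
    have e2 : (fun s => H (X p.2 s)) =ᶠ[𝓝 s] fun _ => 0 := by
      filter_upwards [isOpen_ball.mem_nhds hs] with s' hs'
      have := (hb _ (hmem _ hp2 s' hs')).1.2.2
      simp only [hX]
      rw [hφ0]
      exact this
    exact e1.unique ((hasDerivAt_const s (0 : ℂ)).congr_of_eventuallyEq e2)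
  have hgz : ∀ s ∈ ball q.2 δ1, H (X p.2 s) = 0 := by
    intro s hs
    have := (hb _ (hmem _ hp2 s hs)).1.2.2
    simp only [hX]
    rw [hφ0]
    exact this
  set C' : ℝ := |C| + K * M + 4 * (M * M) with hC'
  have hC'0 : 0 ≤ C' := by positivity
  -- the pointwise inequality
  have hpt : ∀ t ∈ ball p.2 δ1, ∀ s ∈ ball q.2 δ1,
      m * ‖dd (u t) (dd (v s) H) (X t s)‖ ≤ C' * (‖H (X t s)‖ + ‖dd (u t) H (X t s)‖
        + ‖dd (v s) H (X t s)‖) := by
    intro t ht s hs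
    obtain ⟨-, ⟨b1, b2, b3, b4, b5, b6, b7, b8, b9⟩, b10⟩ := hb _ (hmem t ht s hs)
    simp only at b1 b2 b3 b4 b5 b6 b7 b8 b9 b10
    set x := X t s with hx
    have hut : u t = deriv φ t • ea + eb := by
      simp [hu, ea, eb]
    have hvs : v s = deriv ψ s • ec + ee := by
      simp [hv, ec, ee]
    have e1 : dd (u t) H x = deriv φ t * dd ea H x + dd eb H x := by
      rw [hut, dd_add_left, dd_smul_left]
    have e2 : dd (v s) H x = deriv ψ s * dd ec H x + dd ee H x := by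
      rw [hvs, dd_add_left, dd_smul_left]
    have e3 : dd (u t) (dd (v s) H) x = deriv φ t * (deriv ψ s * dd ea (dd ec H) x
        + dd ea (dd ee H) x) + (deriv ψ s * dd eb (dd ec H) x + dd eb (dd ee H) x) := by
      rw [hut, hvs, dd_add_left, dd_smul_left, dd_add_right hH, dd_smul_right hH,
        dd_add_right hH, dd_smul_right hH]
    have e4 : dd ea H x * dd ec H x * dd (u t) (dd (v s) H) x = Lam H x
        + dd (u t) H x * dd (v s) H x * dd ea (dd ec H) x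
        - dd (u t) H x * (dd ee H x * dd ea (dd ec H) x)
        - dd (v s) H x * (dd eb H x * dd ea (dd ec H) x)
        + dd (u t) H x * (dd ec H x * dd ea (dd ee H) x)
        + dd (v s) H x * (dd ea H x * dd eb (dd ec H) x) := by
      rw [e3, e1, e2, Lam]
      ring
    have n1 := norm_nonneg (dd (u t) H x)
    have n2 := norm_nonneg (dd (v s) H x)
    have n3 := norm_nonneg (H x)
    have hCn : ‖Lam H x‖ ≤ |C| * ‖H x‖ :=
      b2.trans (mul_le_mul_of_nonneg_right (le_abs_self C) n3)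
    have t1 : ‖dd (u t) H x * dd (v s) H x * dd ea (dd ec H) x‖ ≤ ‖dd (u t) H x‖ * (K * M) := by
      rw [norm_mul, norm_mul, mul_assoc]
      exact mul_le_mul_of_nonneg_left (mul_le_mul b10 b7 (norm_nonneg _) hK0) n1
    have t2 : ∀ a b c : ℂ, ‖b‖ ≤ M → ‖c‖ ≤ M → ‖a * (b * c)‖ ≤ ‖a‖ * (M * M) := by
      intro a b c hb hc
      rw [norm_mul, norm_mul]
      exact mul_le_mul_of_nonneg_left (mul_le_mul hb hc (norm_nonneg _) hM0) (norm_nonneg _)
    have t3 := t2 (dd (u t) H x) _ _ b6 b7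
    have t4 := t2 (dd (v s) H x) _ _ b4 b7
    have t5 := t2 (dd (u t) H x) _ _ b5 b8
    have t6 := t2 (dd (v s) H x) _ _ b3 b9
    have h5 : m * ‖dd (u t) (dd (v s) H) x‖ ≤
        ‖dd ea H x * dd ec H x * dd (u t) (dd (v s) H) x‖ := by
      rw [norm_mul]
      exact mul_le_mul_of_nonneg_right b1 (norm_nonneg _)
    rw [e4] at h5
    have h6 := norm_add_le (Lam H x + dd (u t) H x * dd (v s) H x * dd ea (dd ec H) x
        - dd (u t) H x * (dd ee H x * dd ea (dd ec H) x)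
        - dd (v s) H x * (dd eb H x * dd ea (dd ec H) x)
        + dd (u t) H x * (dd ec H x * dd ea (dd ee H) x))
        (dd (v s) H x * (dd ea H x * dd eb (dd ec H) x))
    have h7 := norm_add_le (Lam H x + dd (u t) H x * dd (v s) H x * dd ea (dd ec H) x
        - dd (u t) H x * (dd ee H x * dd ea (dd ec H) x)
        - dd (v s) H x * (dd eb H x * dd ea (dd ec H) x))
        (dd (u t) H x * (dd ec H x * dd ea (dd ee H) x))
    have h8 := norm_sub_le (Lam H x + dd (u t) H x * dd (v s) H x * dd ea (dd ec H) x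
        - dd (u t) H x * (dd ee H x * dd ea (dd ec H) x))
        (dd (v s) H x * (dd eb H x * dd ea (dd ec H) x))
    have h9 := norm_sub_le (Lam H x + dd (u t) H x * dd (v s) H x * dd ea (dd ec H) x)
        (dd (u t) H x * (dd ee H x * dd ea (dd ec H) x))
    have h10 := norm_add_le (Lam H x) (dd (u t) H x * dd (v s) H x * dd ea (dd ec H) x)
    have hKM : 0 ≤ K * M := mul_nonneg hK0 hM0
    have hMM : 0 ≤ M * M := mul_nonneg hM0 hM0
    have hC0 : 0 ≤ |C| := abs_nonneg C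
    have f1 : m * ‖dd (u t) (dd (v s) H) x‖ ≤ |C| * ‖H x‖ + ‖dd (u t) H x‖ * (K * M)
        + ‖dd (u t) H x‖ * (M * M) + ‖dd (v s) H x‖ * (M * M) + ‖dd (u t) H x‖ * (M * M)
        + ‖dd (v s) H x‖ * (M * M) := by linarith
    refine f1.trans ?_
    rw [hC']
    linarith [mul_nonneg hC0 n1, mul_nonneg hC0 n2, mul_nonneg hKM n3, mul_nonneg hKM n2,
      mul_nonneg hMM n3, mul_nonneg hMM n1, mul_nonneg hMM n2]
  -- choice of the radius
  set δ : ℝ := min (δ1 / 2) (min 1 (m / (3 * C' + 1))) with hδ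
  have hδ0 : 0 < δ := by
    rw [hδ]
    refine lt_min (by positivity) (lt_min one_pos (by positivity))
  have hδδ : δ < δ1 := lt_of_le_of_lt (min_le_left _ _) (by linarith)
  have hδ_1 : δ ≤ 1 := (min_le_right _ _).trans (min_le_left _ _)
  have hδm : C' * (δ * δ + 2 * δ) < m := by
    have h1 : δ ≤ m / (3 * C' + 1) := (min_le_right _ _).trans (min_le_right _ _)
    rw [le_div_iff₀ (by positivity)] at h1
    have h2 : C' * (δ * δ) ≤ C' * δ := mul_le_mul_of_nonneg_left (by nlinarith) hC'0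
    nlinarith
  have hsub : ∀ c : ℂ, closedBall c δ ⊆ ball c δ1 := fun c => closedBall_subset_ball hδδ
  have hbound : ∀ N : ℝ, 0 ≤ N → (∀ t ∈ closedBall p.2 δ, ∀ s ∈ closedBall q.2 δ,
      ‖dd (u t) (dd (v s) H) (X t s)‖ ≤ N) → ∀ t ∈ closedBall p.2 δ, ∀ s ∈ closedBall q.2 δ,
      ‖dd (u t) H (X t s)‖ ≤ N * δ ∧ ‖dd (v s) H (X t s)‖ ≤ N * δ ∧ ‖H (X t s)‖ ≤ N * δ * δ := by
    intro N hN0 hN
    have hp2' : p.2 ∈ closedBall p.2 δ := mem_closedBall_self hδ0.le
    have hq2' : q.2 ∈ closedBall q.2 δ := mem_closedBall_self hδ0.le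
    have A1 : ∀ t ∈ closedBall p.2 δ, ∀ s ∈ closedBall q.2 δ, ‖dd (u t) H (X t s)‖ ≤ N * δ := by
      intro t ht s hs
      have := (convex_closedBall q.2 δ).norm_image_sub_le_of_norm_hasDerivWithin_le
        (f := fun s => dd (u t) H (X t s)) (f' := fun s => dd (u t) (dd (v s) H) (X t s)) (C := N)
        (fun s hs => (hg1s t s (hb _ (hmem t (hsub _ ht) s
          (hsub _ hs))).1.2.1.differentiableAt).hasDerivWithinAt) (fun s hs => hN t ht s hs) hq2' hs
      beta_reduce at this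
      rw [hg1z t (hsub _ ht), sub_zero] at this
      refine this.trans (mul_le_mul_of_nonneg_left ?_ hN0)
      rwa [mem_closedBall, dist_eq_norm] at hs
    have A2 : ∀ t ∈ closedBall p.2 δ, ∀ s ∈ closedBall q.2 δ, ‖dd (v s) H (X t s)‖ ≤ N * δ := by
      intro t ht s hs
      have := (convex_closedBall p.2 δ).norm_image_sub_le_of_norm_hasDerivWithin_le
        (f := fun t => dd (v s) H (X t s)) (f' := fun t => dd (u t) (dd (v s) H) (X t s)) (C := N)
        (fun t ht => (hg2t t s (hb _ (hmem t (hsub _ ht) s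
          (hsub _ hs))).1.1.1.differentiableAt).hasDerivWithinAt) (fun t ht => hN t ht s hs) hp2' ht
      beta_reduce at this
      rw [hg2z s (hsub _ hs), sub_zero] at this
      refine this.trans (mul_le_mul_of_nonneg_left ?_ hN0)
      rwa [mem_closedBall, dist_eq_norm] at ht
    intro t ht s hs
    refine ⟨A1 t ht s hs, A2 t ht s hs, ?_⟩
    have := (convex_closedBall p.2 δ).norm_image_sub_le_of_norm_hasDerivWithin_le
      (f := fun t => H (X t s)) (f' := fun t => dd (u t) H (X t s)) (C := N * δ)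
      (fun t ht => (hgt t s (hb _ (hmem t (hsub _ ht) s
        (hsub _ hs))).1.1.1.differentiableAt).hasDerivWithinAt) (fun t ht => A1 t ht s hs) hp2' ht
    beta_reduce at this
    rw [hgz s (hsub _ hs), sub_zero] at this
    refine this.trans (mul_le_mul_of_nonneg_left ?_ (by positivity))
    rwa [mem_closedBall, dist_eq_norm] at ht
  have hcpt : IsCompact (closedBall p.2 δ ×ˢ closedBall q.2 δ) :=
    (isCompact_closedBall _ _).prod (isCompact_closedBall _ _)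
  have hcont : ContinuousOn (fun y : ℂ × ℂ => ‖dd (u y.1) (dd (v y.2) H) (X y.1 y.2)‖)
      (closedBall p.2 δ ×ˢ closedBall q.2 δ) := by
    rintro ⟨t, s⟩ ⟨ht, hs⟩
    have hts := (hb _ (hmem t (hsub _ ht) s (hsub _ hs))).1
    exact ((hg12c t s hts.1.1 hts.2.1).norm).continuousWithinAt
  obtain ⟨⟨t0, s0⟩, ⟨ht0, hs0⟩, hmax⟩ := hcpt.exists_isMaxOn
    ⟨(p.2, q.2), mem_closedBall_self hδ0.le, mem_closedBall_self hδ0.le⟩ hcont
  simp only at ht0 hs0
  set N : ℝ := ‖dd (u t0) (dd (v s0) H) (X t0 s0)‖ with hN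
  have hN0 : 0 ≤ N := norm_nonneg _
  have hle : ∀ t ∈ closedBall p.2 δ, ∀ s ∈ closedBall q.2 δ,
      ‖dd (u t) (dd (v s) H) (X t s)‖ ≤ N := fun t ht s hs =>
    hmax (show (t, s) ∈ closedBall p.2 δ ×ˢ closedBall q.2 δ from ⟨ht, hs⟩)
  have hB := hbound N hN0 hle
  have hNz : N = 0 := by
    by_contra hne
    have hNpos : 0 < N := lt_of_le_of_ne hN0 (Ne.symm hne)
    obtain ⟨b1, b2, b3⟩ := hB t0 ht0 s0 hs0
    have h1 := hpt t0 (hsub _ ht0) s0 (hsub _ hs0)
    rw [← hN] at h1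
    have h2 : C' * (‖H (X t0 s0)‖ + ‖dd (u t0) H (X t0 s0)‖ + ‖dd (v s0) H (X t0 s0)‖)
        ≤ C' * (N * δ * δ + N * δ + N * δ) :=
      mul_le_mul_of_nonneg_left (by linarith) hC'0
    have h3 : C' * (N * δ * δ + N * δ + N * δ) = (C' * (δ * δ + 2 * δ)) * N := by ring
    have h4 : (C' * (δ * δ + 2 * δ)) * N < m * N := mul_lt_mul_of_pos_right hδm hNpos
    linarith
  refine ⟨δ, hδ0, fun t ht s hs => ?_⟩
  have := (hB t (ball_subset_closedBall ht) s (ball_subset_closedBall hs)).2.2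
  rw [hNz, zero_mul, zero_mul] at this
  exact norm_le_zero_iff.1 this

end Pool.FB74
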