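import Mathlib

/-!
Directional derivatives of smooth functions on a complex normed space, second order Taylor
expansion, and functions on `V × V` with Hermitian symmetry.
-/

set_option autoImplicit false

namespace Pool.FB74

open Topology Filter Set Metric
open scoped ContDiff ComplexConjugate

section dd

variable {E : Type*} [NormedAddCommGroup E] [NormedSpace ℂ E]

/-- Directional derivative. -/
noncomputable def dd (v : E) (f : E → ℂ) : E → ℂ := fun x => fderiv ℂ f x v

theorem dd_smooth {f : E → ℂ} (hf : ContDiff ℂ ∞ f) (v : E) : ContDiff ℂ ∞ (dd v f) :=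
  (hf.fderiv_right (m := ∞) (by simp)).clm_apply contDiff_const

theorem dd_add_left {f : E → ℂ} (u v x : E) : dd (u + v) f x = dd u f x + dd v f x := by
  simp [dd]

theorem dd_smul_left {f : E → ℂ} (a : ℂ) (v x : E) : dd (a • v) f x = a * dd v f x := by
  simp [dd]

theorem dd_hasDerivAt {f : E → ℂ} (hf : Differentiable ℂ f) (v x : E) :
    HasDerivAt (fun τ : ℂ => f (x + τ • v)) (dd v f x) 0 := by
  have h1 : HasDerivAt (fun τ : ℂ => x + τ • v) v 0 := by
    have := ((hasDerivAt_id (0 : ℂ)).smul_const v).const_add x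
    simpa using this
  have h2 : HasFDerivAt f (fderiv ℂ f x) (x + (0 : ℂ) • v) := by
    simpa using (hf x).hasFDerivAt
  exact h2.comp_hasDerivAt 0 h1

/-- Chain rule along a curve. -/
theorem dd_comp {f : E → ℂ} (hf : Differentiable ℂ f) {c : ℂ → E} {c' : E} {t : ℂ}
    (hc : HasDerivAt c c' t) : HasDerivAt (fun t => f (c t)) (dd c' f (c t)) t :=
  (hf (c t)).hasFDerivAt.comp_hasDerivAt t hc

theorem dd_dd {f : E → ℂ} (hf : ContDiff ℂ ∞ f) (u v x : E) :
    dd u (dd v f) x = fderiv ℂ (fderiv ℂ f) x u v := by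
  have h1 : DifferentiableAt ℂ (fderiv ℂ f) x :=
    ((hf.fderiv_right (m := ∞) (by simp)).differentiable (by simp)) x
  have h2 := h1.hasFDerivAt.clm_apply (hasFDerivAt_const v x)
  have h3 : fderiv ℂ (dd v f) x = _ := h2.fderiv
  unfold dd at h3 ⊢
  rw [h3]
  simp

theorem dd_add_right {f : E → ℂ} (hf : ContDiff ℂ ∞ f) (w u v x : E) :
    dd w (dd (u + v) f) x = dd w (dd u f) x + dd w (dd v f) x := by
  rw [dd_dd hf, dd_dd hf, dd_dd hf]
  simp

theorem dd_smul_right {f : E → ℂ} (hf : ContDiff ℂ ∞ f) (a : ℂ) (w v x : E) :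
    dd w (dd (a • v) f) x = a * dd w (dd v f) x := by
  rw [dd_dd hf, dd_dd hf]
  simp

theorem dd_symm {f : E → ℂ} (hf : ContDiff ℂ ∞ f) (u v x : E) :
    dd u (dd v f) x = dd v (dd u f) x := by
  have h2 : ContDiffAt ℂ 2 f x := (hf.of_le (by norm_cast)).contDiffAt
  have hsym := h2.isSymmSndFDerivAt (by simp)
  rw [dd_dd hf, dd_dd hf]
  exact hsym.eq u v

/-- second order Taylor expansion with small remainder. -/
theorem taylor2 {w : E → ℂ} (hw : ContDiff ℂ ∞ w) (x : E) {η : ℝ} (hη : 0 < η) :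
    ∃ δ > 0, ∀ h : E, ‖h‖ < δ →
      ‖w (x + h) - w x - dd h w x - (1 / 2) * dd h (dd h w) x‖ ≤ η * ‖h‖ ^ 2 := by
  let _ : NormedSpace ℝ E := NormedSpace.restrictScalars ℝ ℂ E
  have hd : Differentiable ℂ w := hw.differentiable (by simp)
  have hd2 : DifferentiableAt ℂ (fderiv ℂ w) x :=
    ((hw.fderiv_right (m := ∞) (by simp)).differentiable (by simp)) x
  have h2 : ContDiffAt ℂ 2 w x := (hw.of_le (by norm_cast)).contDiffAt
  have hsym := h2.isSymmSndFDerivAt (by simp)
  have ho := hd2.hasFDerivAt.isLittleO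
  rw [Asymptotics.isLittleO_iff] at ho
  obtain ⟨δ, hδ, hb⟩ := Metric.eventually_nhds_iff_ball.1 (ho hη)
  refine ⟨δ, hδ, fun h hh => ?_⟩
  set G : E → ℂ := fun k => w (x + k) - w x - fderiv ℂ w x k
    - (1 / 2) * fderiv ℂ (fderiv ℂ w) x k k with hG
  have hGd : ∀ k : E, HasFDerivAt G (fderiv ℂ w (x + k) - fderiv ℂ w x
      - fderiv ℂ (fderiv ℂ w) x k) k := by
    intro k
    have e1 : HasFDerivAt (fun k => w (x + k)) (fderiv ℂ w (x + k)) k := by
      have := (hd (x + k)).hasFDerivAt.comp k ((hasFDerivAt_id k).const_add x)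
      simp only [ContinuousLinearMap.comp_id] at this
      exact this
    have e2 : HasFDerivAt (fun k => fderiv ℂ w x k) (fderiv ℂ w x) k := (fderiv ℂ w x).hasFDerivAt
    have e3 : HasFDerivAt (fun k => fderiv ℂ (fderiv ℂ w) x k) (fderiv ℂ (fderiv ℂ w) x) k :=
      (fderiv ℂ (fderiv ℂ w) x).hasFDerivAt
    have e4 := e3.clm_apply (hasFDerivAt_id k)
    have e5 := ((e1.sub_const (w x)).sub e2).sub (e4.const_mul (1 / 2 : ℂ))
    refine e5.congr_fderiv ?_
    ext m
    simp only [id_eq, ContinuousLinearMap.comp_id, sub_apply,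
      smul_apply, add_apply,
      ContinuousLinearMap.flip_apply, smul_eq_mul]
    rw [hsym.eq m k]
    ring
  have hmv := (convex_closedBall (0 : E) ‖h‖).norm_image_sub_le_of_norm_hasFDerivWithin_le
    (f := G) (C := η * ‖h‖) (fun k _ => (hGd k).hasFDerivWithinAt) ?_
    (mem_closedBall_self (norm_nonneg h)) (mem_closedBall_zero_iff.2 le_rfl)
  · have hG0 : G 0 = 0 := by simp [hG]
    rw [hG0, sub_zero, sub_zero] at hmv
    rw [dd_dd hw]
    calc _ ≤ η * ‖h‖ * ‖h‖ := hmv
      _ = η * ‖h‖ ^ 2 := by ring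
  · intro k hk
    rw [mem_closedBall_zero_iff] at hk
    have hk' : x + k ∈ ball x δ := by
      rw [mem_ball, dist_eq_norm, add_sub_cancel_left]; exact hk.trans_lt hh
    have := hb _ hk'
    rw [add_sub_cancel_left] at this
    exact this.trans (mul_le_mul_of_nonneg_left hk hη.le)

end dd

section herm

/-- The plane. -/
abbrev V := ℂ × ℂ

/-- Complex conjugation on the plane. -/
noncomputable def cj (z : V) : V := (conj z.1, conj z.2)

/-- The antiholomorphic involution on `V × V`. -/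
noncomputable def cc (x : V × V) : V × V := (cj x.2, cj x.1)

/-- The real point over `z`. -/
noncomputable def rl (z : V) : V × V := (z, cj z)

theorem cj_cj (z : V) : cj (cj z) = z := by simp [cj]

theorem cc_cc (x : V × V) : cc (cc x) = x := by simp [cc, cj_cj]

theorem cj_add (z w : V) : cj (z + w) = cj z + cj w := by simp [cj]

theorem cj_smul (a : ℂ) (z : V) : cj (a • z) = conj a • cj z := by simp [cj]

theorem cc_add (x y : V × V) : cc (x + y) = cc x + cc y := by simp [cc, cj_add]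

theorem cc_smul (a : ℂ) (x : V × V) : cc (a • x) = conj a • cc x := by simp [cc, cj_smul]

theorem cj_zero : cj 0 = 0 := by simp [cj]

theorem cc_rl (z : V) : cc (rl z) = rl z := by simp [cc, rl, cj_cj]

theorem eq_rl {x : V × V} (h : cc x = x) : x = rl x.1 := by
  have h1 : cj x.1 = x.2 := congrArg Prod.snd h
  simp [rl, h1]

theorem rl_add (z w : V) : rl (z + w) = rl z + rl w := by simp [rl, cj_add]

theorem norm_cj (z : V) : ‖cj z‖ = ‖z‖ := by simp [cj, Prod.norm_def]

theorem norm_cc (x : V × V) : ‖cc x‖ = ‖x‖ := by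
  show max ‖cj x.2‖ ‖cj x.1‖ = max ‖x.1‖ ‖x.2‖
  rw [norm_cj, norm_cj, max_comm]

theorem norm_rl (z : V) : ‖rl z‖ = ‖z‖ := by
  show max ‖z‖ ‖cj z‖ = ‖z‖
  rw [norm_cj, max_self]

theorem continuous_cj : Continuous cj := by unfold cj; fun_prop

theorem continuous_cc : Continuous cc := by
  unfold cc
  exact (continuous_cj.comp continuous_snd).prodMk (continuous_cj.comp continuous_fst)

theorem continuous_rl : Continuous rl := continuous_id.prodMk continuous_cj

/-- If `f (cc x) = conj (g x)` then the same holds for directional derivatives. -/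
theorem dd_herm {f g : V × V → ℂ} (hf : Differentiable ℂ f) (hg : Differentiable ℂ g)
    (h : ∀ x, f (cc x) = conj (g x)) (v x : V × V) :
    dd (cc v) f (cc x) = conj (dd v g x) := by
  have h1 := dd_hasDerivAt hf (cc v) (cc x)
  have h2 := (dd_hasDerivAt hg v x)
  have h3 : HasDerivAt (conj ∘ (fun τ : ℂ => g (x + τ • v)) ∘ conj) (conj (dd v g x)) (conj 0) :=
    h2.conj_conj
  rw [map_zero] at h3
  have h4 : (conj ∘ (fun τ : ℂ => g (x + τ • v)) ∘ conj) = fun τ => f (cc x + τ • cc v) := by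
    funext τ
    simp only [Function.comp_apply]
    rw [← h, cc_add, cc_smul, Complex.conj_conj]
  rw [h4] at h3
  exact h1.unique h3

/-- Smooth function with Hermitian symmetry. -/
structure HSys (H : V × V → ℂ) : Prop where
  smooth : ContDiff ℂ ∞ H
  herm : ∀ x, H (cc x) = conj (H x)

variable {H : V × V → ℂ}

theorem HSys.diff (hH : HSys H) : Differentiable ℂ H := hH.smooth.differentiable (by simp)

theorem HSys.dd1 (hH : HSys H) (v x : V × V) : dd (cc v) H (cc x) = conj (dd v H x) :=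
  dd_herm hH.diff hH.diff hH.herm v x

theorem HSys.dd2 (hH : HSys H) (u v x : V × V) :
    dd (cc u) (dd (cc v) H) (cc x) = conj (dd u (dd v H) x) := by
  refine dd_herm ((dd_smooth hH.smooth _).differentiable (by simp))
    ((dd_smooth hH.smooth _).differentiable (by simp)) (fun x => hH.dd1 v x) u x

/-- The real function attached to `H`. -/
noncomputable def PR (H : V × V → ℂ) (z : V) : ℝ := (H (rl z)).re

theorem HSys.real (hH : HSys H) (z : V) : ((PR H z : ℝ) : ℂ) = H (rl z) := by
  have h1 := hH.herm (rl z)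
  rw [cc_rl] at h1
  exact (Complex.conj_eq_iff_re.1 h1.symm)

theorem PR_continuous (hH : HSys H) : Continuous (PR H) :=
  Complex.continuous_re.comp (hH.diff.continuous.comp continuous_rl)

/-- First order term. -/
noncomputable def H1 (H : V × V → ℂ) (p h : V) : ℂ := dd (h, 0) H (rl p)

/-- Second order holomorphic form. -/
noncomputable def H2 (H : V × V → ℂ) (p h k : V) : ℂ := dd (h, 0) (dd (k, 0) H) (rl p)

/-- Levi form (sesquilinear). -/
noncomputable def HL (H : V × V → ℂ) (p h k : V) : ℂ := dd (h, 0) (dd (0, cj k) H) (rl p)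

theorem H1_conj (hH : HSys H) (p h : V) : dd (0, cj h) H (rl p) = conj (H1 H p h) := by
  have := hH.dd1 (h, 0) (rl p)
  rw [cc_rl] at this
  rw [H1, ← this]
  simp [cc, cj_zero]

theorem H2_conj (hH : HSys H) (p h k : V) :
    dd (0, cj h) (dd (0, cj k) H) (rl p) = conj (H2 H p h k) := by
  have := hH.dd2 (h, 0) (k, 0) (rl p)
  rw [cc_rl] at this
  rw [H2, ← this]
  simp [cc, cj_zero]

theorem HL_conj (hH : HSys H) (p h k : V) : HL H p k h = conj (HL H p h k) := by
  have := hH.dd2 (h, 0) (0, cj k) (rl p)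
  rw [cc_rl] at this
  rw [HL, HL, ← this, dd_symm hH.smooth]
  simp [cc, cj_zero, cj_cj]

theorem rl_split (h : V) : rl h = (h, 0) + (0, cj h) := by simp [rl]

theorem dd_rl (hH : HSys H) (p h : V) : dd (rl h) H (rl p) = ((2 * (H1 H p h).re : ℝ) : ℂ) := by
  rw [rl_split, dd_add_left, H1_conj hH, ← H1, Complex.add_conj]

theorem dd2_rl (hH : HSys H) (p h : V) :
    dd (rl h) (dd (rl h) H) (rl p)
      = ((2 * (H2 H p h h).re + 2 * (HL H p h h).re : ℝ) : ℂ) := by
  rw [rl_split, dd_add_right hH.smooth, dd_add_left, dd_add_left, H2_conj hH, ← H2, ← HL,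
    dd_symm hH.smooth (0, cj h) (h, 0), ← HL]
  have h1 : (HL H p h h : ℂ) = (((HL H p h h).re : ℝ) : ℂ) :=
    (Complex.conj_eq_iff_re.1 (HL_conj hH p h h).symm).symm
  have h2 := Complex.add_conj (H2 H p h h)
  push_cast
  push_cast at h2
  rw [← h1]
  linear_combination h2

/-- Expansion of the real function at a point. -/
theorem PR_expand (hH : HSys H) (p : V) {η : ℝ} (hη : 0 < η) :
    ∃ δ > 0, ∀ h : V, ‖h‖ < δ →
      |PR H (p + h) - PR H p - 2 * (H1 H p h).re - (H2 H p h h).re - (HL H p h h).re|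
        ≤ η * ‖h‖ ^ 2 := by
  obtain ⟨δ, hδ, hb⟩ := taylor2 hH.smooth (rl p) hη
  refine ⟨δ, hδ, fun h hh => ?_⟩
  have h1 := hb (rl h) (by rwa [norm_rl])
  rw [dd_rl hH, dd2_rl hH, ← rl_add, ← hH.real, ← hH.real, norm_rl] at h1
  have h2 : ((PR H (p + h) : ℝ) : ℂ) - ((PR H p : ℝ) : ℂ) - ((2 * (H1 H p h).re : ℝ) : ℂ)
      - 1 / 2 * ((2 * (H2 H p h h).re + 2 * (HL H p h h).re : ℝ) : ℂ)
      = ((PR H (p + h) - PR H p - 2 * (H1 H p h).re - (H2 H p h h).re - (HL H p h h).re : ℝ) : ℂ) := by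
    push_cast
    ring
  rw [h2, Complex.norm_real] at h1
  exact h1

theorem H1_add (p h k : V) : H1 H p (h + k) = H1 H p h + H1 H p k := by
  rw [H1, H1, H1, ← dd_add_left]
  simp

theorem H1_smul (p h : V) (a : ℂ) : H1 H p (a • h) = a * H1 H p h := by
  rw [H1, H1, ← dd_smul_left]
  simp

theorem H2_symm (hH : HSys H) (p h k : V) : H2 H p h k = H2 H p k h := dd_symm hH.smooth _ _ _

theorem H2_add_left (p h k l : V) : H2 H p (h + k) l = H2 H p h l + H2 H p k l := by
  rw [H2, H2, H2, ← dd_add_left]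
  simp

theorem H2_smul_left (p h l : V) (a : ℂ) : H2 H p (a • h) l = a * H2 H p h l := by
  rw [H2, H2, ← dd_smul_left]
  simp

theorem H2_add_right (hH : HSys H) (p h k l : V) : H2 H p l (h + k) = H2 H p l h + H2 H p l k := by
  rw [H2_symm hH, H2_add_left, H2_symm hH p h, H2_symm hH p k]

theorem H2_smul_right (hH : HSys H) (p h l : V) (a : ℂ) : H2 H p l (a • h) = a * H2 H p l h := by
  rw [H2_symm hH, H2_smul_left, H2_symm hH p h]

theorem HL_add_left (p h k l : V) : HL H p (h + k) l = HL H p h l + HL H p k l := by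
  rw [HL, HL, HL, ← dd_add_left]
  simp

theorem HL_smul_left (p h l : V) (a : ℂ) : HL H p (a • h) l = a * HL H p h l := by
  rw [HL, HL, ← dd_smul_left]
  simp

theorem HL_add_right (hH : HSys H) (p h k l : V) : HL H p l (h + k) = HL H p l h + HL H p l k := by
  rw [HL_conj hH p (h + k) l, HL_add_left, map_add, ← HL_conj hH, ← HL_conj hH]

theorem HL_smul_right (hH : HSys H) (p h l : V) (a : ℂ) :
    HL H p l (a • h) = conj a * HL H p l h := by
  rw [HL_conj hH p (a • h) l, HL_smul_left, map_mul, ← HL_conj hH]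

end herm

end Pool.FB74
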