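import Pool.Agent.FB74.Dom
import Pool.Agent.FB74.Goursat

/-!
The Levi form of the boundary of a biholomorphic image of the plane is nonnegative.
-/

set_option autoImplicit false

namespace Pool.FB74

open Topology Filter Set Metric
open scoped ContDiff ComplexConjugate

theorem H2_bound {H : V × V → ℂ} (hH : HSys H) (p : V) :
    ∃ M, 0 ≤ M ∧ (∀ h k, ‖H2 H p h k‖ ≤ M * (‖h‖ * ‖k‖)) ∧ ∀ h k, ‖HL H p h k‖ ≤ M * (‖h‖ * ‖k‖) := by
  refine ⟨‖fderiv ℂ (fderiv ℂ H) (rl p)‖, ContinuousLinearMap.opNorm_nonneg _, fun h k => ?_, fun h k => ?_⟩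
  · rw [H2, dd_dd hH.smooth]
    refine (ContinuousLinearMap.le_opNorm₂ _ _ _).trans (le_of_eq ?_)
    have h1 : ‖((h, 0) : V × V)‖ = ‖h‖ := by simp [Prod.norm_def]
    have h2 : ‖((k, 0) : V × V)‖ = ‖k‖ := by simp [Prod.norm_def]
    rw [h1, h2]
    ring
  · rw [HL, dd_dd hH.smooth]
    refine (ContinuousLinearMap.le_opNorm₂ _ _ _).trans (le_of_eq ?_)
    have h1 : ‖((h, 0) : V × V)‖ = ‖h‖ := by simp [Prod.norm_def]
    have h2 : ‖((0, cj k) : V × V)‖ = ‖k‖ := by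
      have : ‖((0, cj k) : V × V)‖ = ‖cj k‖ := by simp [Prod.norm_def]
      rw [this, norm_cj]
    rw [h1, h2]
    ring

theorem H1_bound {H : V × V → ℂ} (p : V) :
    ∃ M, 0 ≤ M ∧ ∀ h, ‖H1 H p h‖ ≤ M * ‖h‖ := by
  refine ⟨‖fderiv ℂ H (rl p)‖, norm_nonneg _, fun h => ?_⟩
  rw [H1, dd]
  refine (ContinuousLinearMap.le_opNorm _ _).trans (le_of_eq ?_)
  have h1 : ‖((h, 0) : V × V)‖ = ‖h‖ := by simp [Prod.norm_def]
  rw [h1]

/-- The discs of the continuity principle. -/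
theorem discs {H : V × V → ℂ} (hH : HSys H) {p : V} (hp0 : PR H p = 0) (hne : ∃ h, H1 H p h ≠ 0)
    {T : V} (hT : H1 H p T = 0) (hL : (HL H p T T).re < 0) {R : ℝ} (hR : 0 < R) :
    ∃ N ν : V, ∃ r > 0, ∃ c > 0, ∀ τ : ℂ, ‖τ‖ ≤ r → ∀ t : ℝ, 0 ≤ t → t ≤ r →
      p + (τ • T + (τ ^ 2 • N + (t : ℂ) • ν)) ∈ ball p R ∧
      PR H (p + (τ • T + (τ ^ 2 • N + (t : ℂ) • ν))) ≤ -(c * (‖τ‖ ^ 2 + t)) := by
  obtain ⟨h0, hh0⟩ := hne
  obtain ⟨N0, hN0⟩ : ∃ N0, H1 H p N0 = 1 := ⟨(H1 H p h0)⁻¹ • h0, by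
    rw [H1_smul, inv_mul_cancel₀ hh0]⟩
  obtain ⟨M, hM0, hM2, hML⟩ := H2_bound hH p
  obtain ⟨N, hN⟩ : ∃ N : V, N = (-(1 / 2) * H2 H p T T) • N0 := ⟨_, rfl⟩
  obtain ⟨ν, hν⟩ : ∃ ν : V, ν = (-(1 / 2) : ℂ) • N0 := ⟨_, rfl⟩
  have hH1N : H1 H p N = -(1 / 2) * H2 H p T T := by rw [hN, H1_smul, hN0, mul_one]
  have hH1ν : H1 H p ν = -(1 / 2) := by rw [hν, H1_smul, hN0, mul_one]
  obtain ⟨A, hA⟩ : ∃ A : ℝ, A = ‖N‖ + ‖ν‖ + ‖T‖ + 1 := ⟨_, rfl⟩
  have hA1 : 1 ≤ A := by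
    rw [hA]
    linarith [norm_nonneg N, norm_nonneg ν, norm_nonneg T]
  have hAN : ‖N‖ ≤ A := by rw [hA]; linarith [norm_nonneg N, norm_nonneg ν, norm_nonneg T]
  have hAν : ‖ν‖ ≤ A := by rw [hA]; linarith [norm_nonneg N, norm_nonneg ν, norm_nonneg T]
  have hAT : ‖T‖ ≤ A := by rw [hA]; linarith [norm_nonneg N, norm_nonneg ν, norm_nonneg T]
  obtain ⟨L, hLd⟩ : ∃ L : ℝ, L = (HL H p T T).re := ⟨_, rfl⟩
  rw [← hLd] at hL
  obtain ⟨c, hc⟩ : ∃ c : ℝ, c = min 1 (-L) := ⟨_, rfl⟩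
  have hc0 : 0 < c := by rw [hc]; exact lt_min one_pos (by linarith)
  have hc1 : c ≤ 1 := by rw [hc]; exact min_le_left _ _
  have hcL : c ≤ -L := by rw [hc]; exact min_le_right _ _
  obtain ⟨δ, hδ0, hδ⟩ := PR_expand hH p (show 0 < c / (24 * A ^ 2) by positivity)
  obtain ⟨r, hr⟩ : ∃ r : ℝ, r = min (min 1 (c / (32 * (M * A ^ 2) + 32)))
      (min (δ / (4 * A)) (R / (4 * A))) := ⟨_, rfl⟩
  have hr0 : 0 < r := by
    rw [hr]
    refine lt_min (lt_min one_pos (by positivity)) (lt_min (by positivity) (by positivity))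
  have hr1 : r ≤ 1 := by rw [hr]; exact (min_le_left _ _).trans (min_le_left _ _)
  have hr2 : r ≤ c / (32 * (M * A ^ 2) + 32) := by
    rw [hr]; exact (min_le_left _ _).trans (min_le_right _ _)
  have hr3 : r ≤ δ / (4 * A) := by rw [hr]; exact (min_le_right _ _).trans (min_le_left _ _)
  have hr4 : r ≤ R / (4 * A) := by rw [hr]; exact (min_le_right _ _).trans (min_le_right _ _)
  refine ⟨N, ν, r, hr0, c / 2, by positivity, fun τ hτ t ht0 ht => ?_⟩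
  obtain ⟨k, hk⟩ : ∃ k : V, k = τ ^ 2 • N + (t : ℂ) • ν := ⟨_, rfl⟩
  obtain ⟨h, hh⟩ : ∃ h : V, h = τ • T + k := ⟨_, rfl⟩
  obtain ⟨s, hs⟩ : ∃ s : ℝ, s = ‖τ‖ ^ 2 + t := ⟨_, rfl⟩
  rw [← hk, ← hh, ← hs]
  have hτ0 := norm_nonneg τ
  have hs0 : 0 ≤ s := by rw [hs]; positivity
  have hτ2 : ‖τ‖ ^ 2 ≤ s := by rw [hs]; linarith
  have hs2 : s ≤ 2 * r := by
    rw [hs]
    nlinarith
  have hkn : ‖k‖ ≤ A * s := by
    have h1 := norm_add_le (τ ^ 2 • N) ((t : ℂ) • ν)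
    rw [norm_smul, norm_smul, norm_pow, Complex.norm_real, Real.norm_eq_abs,
      abs_of_nonneg ht0] at h1
    have h2 : ‖τ‖ ^ 2 * ‖N‖ ≤ ‖τ‖ ^ 2 * A := mul_le_mul_of_nonneg_left hAN (by positivity)
    have h3 : t * ‖ν‖ ≤ t * A := mul_le_mul_of_nonneg_left hAν ht0
    rw [hk, hs]
    nlinarith
  have hhn : ‖h‖ ≤ A * (‖τ‖ + s) := by
    have h1 := norm_add_le (τ • T) k
    rw [norm_smul] at h1
    have h2 : ‖τ‖ * ‖T‖ ≤ ‖τ‖ * A := mul_le_mul_of_nonneg_left hAT hτ0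
    rw [hh]
    nlinarith
  have hhr : ‖h‖ ≤ 3 * A * r := by
    refine hhn.trans ?_
    have : ‖τ‖ + s ≤ 3 * r := by linarith
    nlinarith
  have h3A : 3 * A * r < 4 * A * r := by nlinarith
  have hhδ : ‖h‖ < δ := by
    rw [le_div_iff₀ (by positivity)] at hr3
    linarith
  have hhR : ‖h‖ < R := by
    rw [le_div_iff₀ (by positivity)] at hr4
    linarith
  refine ⟨by rw [mem_ball, dist_eq_norm, add_sub_cancel_left]; exact hhR, ?_⟩
  have hexp := hδ h hhδ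
  rw [hp0, sub_zero] at hexp
  -- the three terms
  have e1 : H1 H p h = -(1 / 2) * (τ ^ 2 * H2 H p T T) - (1 / 2) * t := by
    rw [hh, hk, H1_add, H1_add, H1_smul, H1_smul, H1_smul, hT, hH1N, hH1ν]
    ring
  obtain ⟨X2, hX2⟩ : ∃ X2 : ℂ, X2 = 2 * (τ * H2 H p T k) + H2 H p k k := ⟨_, rfl⟩
  have e2 : H2 H p h h = τ ^ 2 * H2 H p T T + X2 := by
    rw [hh, H2_add_left, H2_add_right hH, H2_add_right hH, H2_smul_left, H2_smul_left,
      H2_smul_right hH, H2_smul_right hH, H2_symm hH p k T, hX2]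
    ring
  obtain ⟨X3, hX3⟩ : ∃ X3 : ℂ, X3 = τ * HL H p T k + conj τ * HL H p k T + HL H p k k := ⟨_, rfl⟩
  have e3 : HL H p h h = τ * conj τ * HL H p T T + X3 := by
    rw [hh, HL_add_left, HL_add_right hH, HL_add_right hH, HL_smul_left, HL_smul_left,
      HL_smul_right hH, HL_smul_right hH, hX3]
    ring
  have r1 : 2 * (H1 H p h).re = -(τ ^ 2 * H2 H p T T).re - t := by
    rw [e1]
    have : -(1 / 2) * (τ ^ 2 * H2 H p T T) - (1 / 2) * (t : ℂ)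
        = ((-(1 / 2) : ℝ) : ℂ) * (τ ^ 2 * H2 H p T T) - (((1 / 2) * t : ℝ) : ℂ) := by
      push_cast
      ring
    rw [this, Complex.sub_re, Complex.re_ofReal_mul, Complex.ofReal_re]
    ring
  have r2 : (H2 H p h h).re = (τ ^ 2 * H2 H p T T).re + X2.re := by
    rw [e2, Complex.add_re]
  have r3 : (HL H p h h).re = ‖τ‖ ^ 2 * L + X3.re := by
    rw [e3, Complex.add_re, Complex.mul_conj, Complex.re_ofReal_mul, ← hLd,
      Complex.normSq_eq_norm_sq]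
  have b2 : |X2.re| ≤ 2 * (‖τ‖ * (M * (A * (A * s)))) + M * ((A * s) * (A * s)) := by
    refine (Complex.abs_re_le_norm _).trans ?_
    rw [hX2]
    refine (norm_add_le _ _).trans (add_le_add ?_ ?_)
    · rw [norm_mul, norm_mul]
      have h1 : ‖(2 : ℂ)‖ = 2 := by simp
      rw [h1]
      have h2 : ‖H2 H p T k‖ ≤ M * (A * (A * s)) := (hM2 T k).trans
        (mul_le_mul_of_nonneg_left (mul_le_mul hAT hkn (norm_nonneg _) (by positivity)) hM0)
      exact mul_le_mul_of_nonneg_left (mul_le_mul_of_nonneg_left h2 hτ0) (by norm_num)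
    · exact (hM2 k k).trans
        (mul_le_mul_of_nonneg_left (mul_le_mul hkn hkn (norm_nonneg _) (by positivity)) hM0)
  have b3 : |X3.re| ≤ 2 * (‖τ‖ * (M * (A * (A * s)))) + M * ((A * s) * (A * s)) := by
    refine (Complex.abs_re_le_norm _).trans ?_
    rw [hX3]
    refine (norm_add_le _ _).trans (add_le_add ?_ ?_)
    · refine (norm_add_le _ _).trans ?_
      rw [norm_mul, norm_mul, RCLike.norm_conj]
      have h2 : ‖HL H p T k‖ ≤ M * (A * (A * s)) := (hML T k).trans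
        (mul_le_mul_of_nonneg_left (mul_le_mul hAT hkn (norm_nonneg _) (by positivity)) hM0)
      have h3 : ‖HL H p k T‖ ≤ M * (A * (A * s)) := by
        refine (hML k T).trans (mul_le_mul_of_nonneg_left ?_ hM0)
        rw [mul_comm]
        exact mul_le_mul hAT hkn (norm_nonneg _) (by positivity)
      have h4 := mul_le_mul_of_nonneg_left h2 hτ0
      have h5 := mul_le_mul_of_nonneg_left h3 hτ0
      linarith
    · exact (hML k k).trans
        (mul_le_mul_of_nonneg_left (mul_le_mul hkn hkn (norm_nonneg _) (by positivity)) hM0)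
  have hPle : PR H (p + h) ≤ -t + ‖τ‖ ^ 2 * L + |X2.re| + |X3.re|
      + c / (24 * A ^ 2) * ‖h‖ ^ 2 := by
    have h1 := (abs_le.1 hexp).2
    have h2 := le_abs_self X2.re
    have h3 := le_abs_self X3.re
    linarith
  have b4 : c / (24 * A ^ 2) * ‖h‖ ^ 2 ≤ c / 4 * s := by
    have h1 : ‖h‖ ^ 2 ≤ A ^ 2 * (‖τ‖ + s) ^ 2 := by
      rw [← mul_pow]
      exact pow_le_pow_left₀ (norm_nonneg _) hhn 2
    have h2 : (‖τ‖ + s) ^ 2 ≤ 6 * s := by
      have h3 : s ≤ 2 := by linarith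
      nlinarith [sq_nonneg (‖τ‖ - s)]
    have h3 : ‖h‖ ^ 2 ≤ A ^ 2 * (6 * s) := h1.trans (mul_le_mul_of_nonneg_left h2 (by positivity))
    calc c / (24 * A ^ 2) * ‖h‖ ^ 2 ≤ c / (24 * A ^ 2) * (A ^ 2 * (6 * s)) :=
          mul_le_mul_of_nonneg_left h3 (by positivity)
      _ = c / 4 * s := by
          field_simp
          ring
  have b5 : 2 * (2 * (‖τ‖ * (M * (A * (A * s)))) + M * ((A * s) * (A * s))) ≤ c / 4 * s := by
    rw [le_div_iff₀ (by positivity)] at hr2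
    have hMA : 0 ≤ M * A ^ 2 := by positivity
    have h1 : 2 * (2 * (‖τ‖ * (M * (A * (A * s)))) + M * ((A * s) * (A * s)))
        = (M * A ^ 2 * (4 * ‖τ‖ + 2 * s)) * s := by ring
    rw [h1]
    refine mul_le_mul_of_nonneg_right ?_ hs0
    have h2 : M * A ^ 2 * (4 * ‖τ‖ + 2 * s) ≤ M * A ^ 2 * (8 * r) :=
      mul_le_mul_of_nonneg_left (by linarith) hMA
    linarith
  have hLs : -t + ‖τ‖ ^ 2 * L ≤ -(c * s) := by
    rw [hs]
    have h1 : c * t ≤ 1 * t := mul_le_mul_of_nonneg_right hc1 ht0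
    have h2 : c * ‖τ‖ ^ 2 ≤ (-L) * ‖τ‖ ^ 2 := mul_le_mul_of_nonneg_right hcL (by positivity)
    linarith
  linarith

/-- The Levi form is nonnegative. -/
theorem Dom.levi_nonneg {Ω U : Set V} {H : V × V → ℂ} (hD : Dom Ω H U) {F G : V → V}
    (hF : DifferentiableOn ℂ F Ω) (hG : Continuous G) (hGΩ : ∀ y, G y ∈ Ω)
    (hGF : ∀ x ∈ Ω, G (F x) = x) {p : V} (hp : p ∈ frontier Ω) (hpU : p ∈ U) {T : V}
    (hT : H1 H p T = 0) : 0 ≤ (HL H p T T).re := by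
  by_contra hL
  push Not at hL
  obtain ⟨hp0, hne⟩ := hD.bd p hp hpU
  obtain ⟨-, R, hR, -, hneg, -, -⟩ := hD.loc hp hpU
  obtain ⟨N, ν, r, hr, c, hc, hdisc⟩ := discs hD.sys hp0 hne hT hL hR
  set D : ℂ → ℝ → V := fun τ t => p + (τ • T + (τ ^ 2 • N + (t : ℂ) • ν)) with hDd
  have hDc : Continuous fun y : ℂ × ℝ => D y.1 y.2 := by
    simp only [hDd]
    fun_prop
  have hDΩ : ∀ τ : ℂ, ‖τ‖ ≤ r → ∀ t : ℝ, 0 ≤ t → t ≤ r → 0 < ‖τ‖ ^ 2 + t → D τ t ∈ Ω := by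
    intro τ hτ t ht0 ht hpos
    obtain ⟨h1, h2⟩ := hdisc τ hτ t ht0 ht
    refine hneg _ h1 (lt_of_le_of_lt h2 ?_)
    have := mul_pos hc hpos
    linarith
  -- the compact set of boundaries
  set K : Set V := (fun y : ℂ × ℝ => D y.1 y.2) '' (sphere 0 r ×ˢ Icc 0 r) with hK
  have hKc : IsCompact K := ((isCompact_sphere _ _).prod isCompact_Icc).image hDc
  have hKΩ : K ⊆ Ω := by
    rintro _ ⟨⟨τ, t⟩, ⟨hτ, ht⟩, rfl⟩
    have hτ' : ‖τ‖ = r := by simpa using hτ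
    have ht' : t ∈ Icc 0 r := ht
    exact hDΩ τ hτ'.le t ht'.1 ht'.2 (by
      rw [hτ']
      have : 0 < r ^ 2 := by positivity
      linarith [ht'.1])
  have hFc : ContinuousOn F K := hF.continuousOn.mono hKΩ
  obtain ⟨B, hB⟩ := hKc.exists_bound_of_continuousOn hFc
  have hcen : ∀ t : ℝ, 0 < t → t ≤ r → ‖F (D 0 t)‖ ≤ B := by
    intro t ht0 ht
    have hmaps : MapsTo (fun τ : ℂ => D τ t) (closedBall 0 r) Ω := by
      intro τ hτ
      rw [mem_closedBall_zero_iff] at hτ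
      exact hDΩ τ hτ t ht0.le ht (by positivity)
    have hlin : Differentiable ℂ (fun τ : ℂ => D τ t) := by
      simp only [hDd]
      fun_prop
    have hd : DifferentiableOn ℂ (fun τ : ℂ => F (D τ t)) (closedBall 0 r) :=
      hF.comp hlin.differentiableOn hmaps
    have hdc : DiffContOnCl ℂ (fun τ : ℂ => F (D τ t)) (ball 0 r) := by
      refine ⟨hd.mono ball_subset_closedBall, ?_⟩
      rw [closure_ball _ hr.ne']
      exact hd.continuousOn
    refine Complex.norm_le_of_forall_mem_frontier_norm_le isBounded_ball hdc ?_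
      (subset_closure (mem_ball_self hr))
    intro τ hτ
    rw [frontier_ball _ hr.ne'] at hτ
    exact hB _ ⟨(τ, t), ⟨hτ, ht0.le, ht⟩, rfl⟩
  -- limit
  set K2 : Set V := G '' closedBall 0 B with hK2
  have hK2c : IsCompact K2 := (isCompact_closedBall _ _).image hG
  have hmem : ∀ t : ℝ, 0 < t → t ≤ r → D 0 t ∈ K2 := by
    intro t ht0 ht
    refine ⟨F (D 0 t), ?_, ?_⟩
    · rw [mem_closedBall_zero_iff]
      exact hcen t ht0 ht
    · refine hGF _ (hDΩ 0 ?_ t ht0.le ht ?_)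
      · rw [norm_zero]; exact hr.le
      · rw [norm_zero]
        linarith
  have hlim : Tendsto (fun t : ℝ => D 0 t) (𝓝[>] 0) (𝓝 p) := by
    have hc1 : Continuous fun t : ℝ => D 0 t := by
      simp only [hDd]
      fun_prop
    have := hc1.tendsto 0
    have h0 : D 0 0 = p := by simp [hDd]
    rw [h0] at this
    exact this.mono_left nhdsWithin_le_nhds
  have hpK : p ∈ K2 := by
    refine hK2c.isClosed.mem_of_tendsto hlim ?_
    filter_upwards [self_mem_nhdsWithin, nhdsWithin_le_nhds (Iio_mem_nhds hr)] with t ht0 ht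
    exact hmem t ht0 (le_of_lt ht)
  obtain ⟨w, -, hw⟩ := hpK
  have := hGΩ w
  rw [hw] at this
  exact hD.not_mem hp this

end Pool.FB74
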