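import Pool.Agent.FB74.Borel

/-!
Two consequences on complex vector spaces: Borel's theorem for nonvanishing functions on a finite
dimensional space, and a Liouville theorem for continuous functions which are bounded above and
touched from below by real parts of holomorphic functions at every point.
-/

set_option autoImplicit false

namespace Pool.FB74

open Topology Filter Set

section borel2

variable {E : Type*} [NormedAddCommGroup E] [NormedSpace ℂ E]

/-- If an entire function on `E` vanishes on a nonempty open set, it is zero. -/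
theorem eq_zero_of_open {φ : E → ℂ} (hφ : Differentiable ℂ φ) {U : Set E} (hU : IsOpen U)
    {u : E} (hu : u ∈ U) (h0 : ∀ x ∈ U, φ x = 0) (x : E) : φ x = 0 := by
  have hlin : Differentiable ℂ (fun z : ℂ => u + z • (x - u)) :=
    (differentiable_const _).add (differentiable_id.smul_const _)
  have hd : Differentiable ℂ (fun z : ℂ => φ (u + z • (x - u))) := hφ.comp hlin
  have han : AnalyticOnNhd ℂ (fun z : ℂ => φ (u + z • (x - u))) univ :=
    hd.differentiableOn.analyticOnNhd isOpen_univ
  have hev : ∀ᶠ z in 𝓝 (0 : ℂ), φ (u + z • (x - u)) = 0 := by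
    have hc : Tendsto (fun z : ℂ => u + z • (x - u)) (𝓝 0) (𝓝 u) := by
      have := hlin.continuous.tendsto 0
      simpa using this
    exact (hc.eventually (hU.mem_nhds hu)).mono fun z hz => h0 _ hz
  have h1 := han.eqOn_zero_of_preconnected_of_eventuallyEq_zero isPreconnected_univ
    (mem_univ (0 : ℂ)) hev (mem_univ (1 : ℂ))
  simpa using h1

/-- Borel's theorem on a complete complex vector space. -/
theorem borel2 [CompleteSpace E] {ι : Type*} {J : Finset ι} {h : ι → E → ℂ} (hJ : J.Nonempty)
    (hd : ∀ i ∈ J, Differentiable ℂ (h i)) (hne : ∀ i ∈ J, ∀ z, h i z ≠ 0)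
    (hsum : ∀ z, ∑ j ∈ J, h j z = 0) :
    ∃ i ∈ J, ∃ j ∈ J, i ≠ j ∧ ∀ z, h i z * h j 0 = h j z * h i 0 := by
  classical
  set A : ι × ι → Set E := fun q => {v | h q.1 v * h q.2 0 = h q.2 v * h q.1 0} with hA
  set K : Finset (ι × ι) := J.offDiag with hK
  have hline : ∀ v : E, ∃ q ∈ K, v ∈ A q := by
    intro v
    have hl : Differentiable ℂ (fun z : ℂ => z • v) := differentiable_id.smul_const _
    obtain ⟨i, hi, j, hj, hij, hz⟩ := borel (J := J) (h := fun i z => h i (z • v)) hJ
      (fun i hi => (hd i hi).comp hl) (fun i hi z => hne i hi _) (fun z => hsum _)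
    refine ⟨(i, j), ?_, ?_⟩
    · rw [hK, Finset.mem_offDiag]
      exact ⟨hi, hj, hij⟩
    · have := hz 1
      simp only [one_smul, zero_smul] at this
      exact this
  have hclosed : ∀ q : K, IsClosed (A q) := by
    intro q
    have hq := Finset.mem_offDiag.1 q.2
    exact isClosed_eq ((hd _ hq.1).continuous.mul continuous_const)
      ((hd _ hq.2.1).continuous.mul continuous_const)
  have hU : ⋃ q : K, A q = univ := by
    refine eq_univ_of_forall fun v => ?_
    obtain ⟨q, hq, hv⟩ := hline v
    exact mem_iUnion.2 ⟨⟨q, hq⟩, hv⟩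
  obtain ⟨q, u, hu⟩ := nonempty_interior_of_iUnion_of_closed hclosed hU
  have hq := Finset.mem_offDiag.1 q.2
  refine ⟨q.1.1, hq.1, q.1.2, hq.2.1, hq.2.2, fun z => ?_⟩
  have hφ : Differentiable ℂ (fun v => h q.1.1 v * h q.1.2 0 - h q.1.2 v * h q.1.1 0) :=
    ((hd _ hq.1).mul_const _).sub ((hd _ hq.2.1).mul_const _)
  have := eq_zero_of_open hφ isOpen_interior hu (fun x hx => by
    have hx' := interior_subset hx
    rw [hA] at hx'
    exact sub_eq_zero.2 hx') z
  exact sub_eq_zero.1 this

end borel2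

section liouville

/-- `v` is touched from below at `z` by the real part of a holomorphic function. -/
def Touch (v : ℂ → ℝ) (z : ℂ) : Prop :=
  ∃ g : ℂ → ℂ, (∀ᶠ w in 𝓝 z, DifferentiableAt ℂ g w) ∧ (g z).re = v z ∧
    ∀ᶠ w in 𝓝 z, (g w).re ≤ v w

/-- Maximum principle: at a local maximum a touched function is locally constant. -/
theorem Touch.locMax {v : ℂ → ℝ} {z : ℂ} (h : Touch v z) (hm : ∀ᶠ w in 𝓝 z, v w ≤ v z) :
    ∀ᶠ w in 𝓝 z, v w = v z := by
  obtain ⟨g, hg, hz, hle⟩ := h
  have hd : ∀ᶠ w in 𝓝 z, DifferentiableAt ℂ (fun w => Complex.exp (g w)) w :=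
    hg.mono fun w hw => hw.cexp
  have hmax : IsLocalMax (norm ∘ fun w => Complex.exp (g w)) z := by
    filter_upwards [hle, hm] with w h1 h2
    simp only [Function.comp_apply, Complex.norm_exp]
    rw [Real.exp_le_exp, hz]
    linarith
  have := Complex.eventually_eq_of_isLocalMax_norm hd hmax
  filter_upwards [this, hle, hm] with w h1 h2 h3
  refine le_antisymm h3 ?_
  have h4 : Real.exp (g w).re = Real.exp (g z).re := by
    rw [← Complex.norm_exp, ← Complex.norm_exp, h1]
  rw [Real.exp_eq_exp] at h4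
  rw [← hz, ← h4]
  exact h2

/-- Subtracting a multiple of `log ‖w‖` away from the origin preserves touching. -/
theorem Touch.sub_log {v : ℂ → ℝ} {z : ℂ} (h : Touch v z) (hz0 : z ≠ 0) (ε : ℝ) :
    Touch (fun w => v w - ε * Real.log ‖w‖) z := by
  obtain ⟨g, hg, hz, hle⟩ := h
  have hdiv : Tendsto (fun w : ℂ => w / z) (𝓝 z) (𝓝 1) := by
    have h1 : Continuous (fun w : ℂ => w / z) := continuous_id.div_const _
    have := h1.tendsto z
    rwa [div_self hz0] at this
  have hsl : ∀ᶠ w in 𝓝 z, w / z ∈ Complex.slitPlane :=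
    hdiv.eventually (Complex.isOpen_slitPlane.mem_nhds Complex.one_mem_slitPlane)
  have hn0 : ∀ᶠ w in 𝓝 z, w ≠ 0 := isOpen_ne.mem_nhds hz0
  have hre : ∀ w : ℂ, w ≠ 0 → (g w - ε * Complex.log (w / z) - ((ε * Real.log ‖z‖ : ℝ) : ℂ)).re
      = (g w).re - ε * Real.log ‖w‖ := by
    intro w hw
    rw [Complex.sub_re, Complex.sub_re, Complex.re_ofReal_mul, Complex.log_re, norm_div,
      Real.log_div (norm_ne_zero_iff.2 hw) (norm_ne_zero_iff.2 hz0), Complex.ofReal_re]
    ring
  refine ⟨fun w => g w - ε * Complex.log (w / z) - ((ε * Real.log ‖z‖ : ℝ) : ℂ), ?_, ?_, ?_⟩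
  · filter_upwards [hg, hsl] with w h1 h2
    have h3 : DifferentiableAt ℂ (fun w : ℂ => Complex.log (w / z)) w :=
      (differentiableAt_id.div_const z).clog h2
    exact (h1.sub (h3.const_mul _)).sub_const _
  · show (g z - ε * Complex.log (z / z) - ((ε * Real.log ‖z‖ : ℝ) : ℂ)).re = _
    rw [hre z hz0, hz]
  · filter_upwards [hle, hn0] with w h1 h2
    show (g w - ε * Complex.log (w / z) - ((ε * Real.log ‖z‖ : ℝ) : ℂ)).re ≤ _
    rw [hre w h2]
    linarith

/-- Liouville theorem for touched functions. -/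
theorem liouville_touch {v : ℂ → ℝ} (hc : Continuous v) {M : ℝ} (hb : ∀ z, v z ≤ M)
    (ht : ∀ z, Touch v z) (z w : ℂ) : v z = v w := by
  obtain ⟨z1, hz1, hmax⟩ := (isCompact_closedBall (0 : ℂ) 1).exists_isMaxOn
    ⟨0, Metric.mem_closedBall_self zero_le_one⟩ hc.continuousOn
  have hmax' : ∀ y : ℂ, ‖y‖ ≤ 1 → v y ≤ v z1 := fun y hy =>
    hmax (by rwa [mem_closedBall_zero_iff])
  have key : ∀ ε : ℝ, 0 < ε → ∀ y : ℂ, 1 ≤ ‖y‖ → v y ≤ v z1 + ε * Real.log ‖y‖ := by
    intro ε hε y hy
    by_contra hcon
    push Not at hcon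
    set u : ℂ → ℝ := fun w => v w - ε * Real.log ‖w‖ with hu
    set R : ℝ := ‖y‖ + Real.exp ((M - v z1 + 1) / ε) with hR
    have hRy : ‖y‖ < R := by
      rw [hR]
      linarith [Real.exp_pos ((M - v z1 + 1) / ε)]
    have hRlog : M - ε * Real.log R < v z1 := by
      have h1 : (M - v z1 + 1) / ε ≤ Real.log R := by
        rw [Real.le_log_iff_exp_le (by linarith), hR]
        linarith [norm_nonneg y]
      rw [div_le_iff₀ hε] at h1
      linarith
    set A : Set ℂ := Metric.closedBall 0 R ∩ {w | 1 ≤ ‖w‖} with hA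
    have hAc : IsCompact A := (isCompact_closedBall _ _).inter_right
      (isClosed_le continuous_const continuous_norm)
    have hucont : ContinuousOn u A := by
      refine hc.continuousOn.sub (continuousOn_const.mul ?_)
      refine ContinuousOn.log continuous_norm.continuousOn ?_
      rintro x ⟨-, hx⟩
      have : (1 : ℝ) ≤ ‖x‖ := hx
      exact ne_of_gt (by linarith)
    have hyA : y ∈ A := ⟨by rw [mem_closedBall_zero_iff]; exact hRy.le, hy⟩
    obtain ⟨z2, hz2A, hz2⟩ := hAc.exists_isMaxOn ⟨y, hyA⟩ hucont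
    set S : Set ℂ := A ∩ u ⁻¹' {u z2} with hS
    have hSc : IsCompact S := by
      have : IsClosed S := hucont.preimage_isClosed_of_isClosed hAc.isClosed isClosed_singleton
      exact hAc.of_isClosed_subset this inter_subset_left
    obtain ⟨z3, hz3S, hz3⟩ := hSc.exists_isMaxOn ⟨z2, hz2A, rfl⟩ continuous_norm.continuousOn
    have hz3A : z3 ∈ A := hz3S.1
    have hz3v : u z3 = u z2 := hz3S.2
    have hbig : v z1 < u z3 := by
      rw [hz3v]
      have h1 : u y ≤ u z2 := hz2 hyA
      have h2 : v z1 < u y := by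
        rw [hu]
        simp only
        linarith
      linarith
    have h1 : 1 < ‖z3‖ := by
      refine lt_of_le_of_ne hz3A.2 fun h => ?_
      have h2 : u z3 = v z3 := by
        rw [hu]
        simp only
        rw [← h, Real.log_one]
        ring
      have := hmax' z3 h.symm.le
      linarith
    have h2 : ‖z3‖ < R := by
      have h3 : ‖z3‖ ≤ R := by
        have := hz3A.1
        rwa [mem_closedBall_zero_iff] at this
      refine lt_of_le_of_ne h3 fun h => ?_
      have h4 : u z3 ≤ M - ε * Real.log R := by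
        rw [hu]
        simp only
        rw [h]
        linarith [hb z3]
      linarith
    have hnear : ∀ᶠ w in 𝓝 z3, w ∈ A := by
      have o1 : IsOpen {w : ℂ | 1 < ‖w‖} := isOpen_lt continuous_const continuous_norm
      have o2 : IsOpen {w : ℂ | ‖w‖ < R} := isOpen_lt continuous_norm continuous_const
      filter_upwards [o1.mem_nhds h1, o2.mem_nhds h2] with w hw1 hw2
      exact ⟨by rw [mem_closedBall_zero_iff]; exact le_of_lt hw2, le_of_lt hw1⟩
    have hz30 : z3 ≠ 0 := by
      intro h
      rw [h, norm_zero] at h1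
      linarith
    have hloc := ((ht z3).sub_log hz30 ε).locMax (by
      filter_upwards [hnear] with w hw
      have h5 : u w ≤ u z2 := hz2 hw
      rw [← hz3v] at h5
      exact h5)
    have htend : Tendsto (fun s : ℝ => ((1 + s : ℝ) : ℂ) * z3) (𝓝[>] 0) (𝓝 z3) := by
      have hc1 : Continuous (fun s : ℝ => ((1 + s : ℝ) : ℂ) * z3) := by fun_prop
      have := hc1.tendsto 0
      simp only [add_zero, Complex.ofReal_one, one_mul] at this
      exact this.mono_left nhdsWithin_le_nhds
    obtain ⟨s, ⟨hs1, hs2⟩, hs3⟩ := ((htend.eventually (hloc.and hnear)).and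
      self_mem_nhdsWithin).exists
    have hs3 : 0 < s := hs3
    have hin : ((1 + s : ℝ) : ℂ) * z3 ∈ S := ⟨hs2, by
      show u _ = u z2
      rw [← hz3v]
      exact hs1⟩
    have hle : ‖((1 + s : ℝ) : ℂ) * z3‖ ≤ ‖z3‖ := hz3 hin
    rw [norm_mul, Complex.norm_real, Real.norm_eq_abs, abs_of_pos (by linarith)] at hle
    nlinarith
  have hall : ∀ y : ℂ, v y ≤ v z1 := by
    intro y
    rcases le_total ‖y‖ 1 with h | h
    · exact hmax' y h
    · refine le_of_forall_pos_le_add fun δ hδ => ?_
      have hl : 0 ≤ Real.log ‖y‖ := Real.log_nonneg h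
      have := key (δ / (Real.log ‖y‖ + 1)) (by positivity) y h
      have h2 : δ / (Real.log ‖y‖ + 1) * Real.log ‖y‖ ≤ δ := by
        rw [div_mul_eq_mul_div, div_le_iff₀ (by positivity)]
        nlinarith
      linarith
  have hclopen : IsClopen {y | v y = v z1} := by
    refine ⟨isClosed_eq hc continuous_const, ?_⟩
    rw [isOpen_iff_mem_nhds]
    intro y hy
    have hy' : v y = v z1 := hy
    have := (ht y).locMax (Eventually.of_forall fun w => by rw [hy']; exact hall w)
    filter_upwards [this] with w hw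
    show v w = v z1
    rw [hw, hy']
  have hu := hclopen.eq_univ ⟨z1, rfl⟩
  have e1 : v z = v z1 := by
    have : z ∈ {y | v y = v z1} := by rw [hu]; trivial
    exact this
  have e2 : v w = v z1 := by
    have : w ∈ {y | v y = v z1} := by rw [hu]; trivial
    exact this
  rw [e1, e2]

end liouville

end Pool.FB74
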