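import Pool.Agent.FB74.Levi1
import Pool.Agent.FB74.Lines

/-!
The Levi form of the boundary of a biholomorphic image of the plane is not positive.
-/

set_option autoImplicit false

namespace Pool.FB74

open Topology Filter Set Metric
open scoped ContDiff ComplexConjugate

theorem ker_dim {a b : ℂ} (hab : a ≠ 0 ∨ b ≠ 0) {T k : V} (hT : T ≠ 0)
    (h1 : a * T.1 + b * T.2 = 0) (h2 : a * k.1 + b * k.2 = 0) : ∃ α : ℂ, k = α • T := by
  have hdet : T.1 * k.2 - T.2 * k.1 = 0 := by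
    rcases hab with ha | hb
    · have : a * (T.1 * k.2 - T.2 * k.1) = 0 := by linear_combination k.2 * h1 - T.2 * h2
      exact (mul_eq_zero.1 this).resolve_left ha
    · have : b * (T.1 * k.2 - T.2 * k.1) = 0 := by linear_combination T.1 * h2 - k.1 * h1
      exact (mul_eq_zero.1 this).resolve_left hb
  by_cases hT1 : T.1 = 0
  · have hT2 : T.2 ≠ 0 := fun h => hT (Prod.ext hT1 h)
    refine ⟨k.2 / T.2, Prod.ext ?_ ?_⟩
    · show k.1 = k.2 / T.2 * T.1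
      have : T.2 * k.1 = 0 := by rw [hT1] at hdet; linear_combination -hdet
      rw [hT1, mul_zero]
      exact (mul_eq_zero.1 this).resolve_left hT2
    · show k.2 = k.2 / T.2 * T.2
      field_simp
  · refine ⟨k.1 / T.1, Prod.ext ?_ ?_⟩
    · show k.1 = k.1 / T.1 * T.1
      field_simp
    · show k.2 = k.1 / T.1 * T.2
      field_simp
      linear_combination hdet

theorem H1_coord {H : V × V → ℂ} (p h : V) :
    H1 H p h = H1 H p (1, 0) * h.1 + H1 H p (0, 1) * h.2 := by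
  have h1 : h = h.1 • ((1, 0) : V) + h.2 • ((0, 1) : V) := by simp
  calc H1 H p h = H1 H p (h.1 • ((1, 0) : V) + h.2 • ((0, 1) : V)) := by rw [← h1]
    _ = _ := by rw [H1_add, H1_smul, H1_smul]; ring

/-- The peak polynomial at a point with positive Levi form. -/
noncomputable def pk (H : V × V → ℂ) (p : V) (K : ℝ) (h : V) : ℂ :=
  2 * H1 H p h + H2 H p h h + 2 * K * (H1 H p h) ^ 2

theorem peak {H : V × V → ℂ} (hH : HSys H) {p : V} (hp0 : PR H p = 0) (hne : ∃ h, H1 H p h ≠ 0)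
    {T : V} (hT : H1 H p T = 0) (hL : 0 < (HL H p T T).re) :
    ∃ K c R : ℝ, 0 < c ∧ 0 < R ∧ ∀ h : V, ‖h‖ < R → PR H (p + h) < 0 →
      (pk H p K h).re ≤ -(c * ‖h‖ ^ 2) := by
  obtain ⟨h0, hh0⟩ := hne
  obtain ⟨N0, hN0⟩ : ∃ N0, H1 H p N0 = 1 := ⟨(H1 H p h0)⁻¹ • h0, by
    rw [H1_smul, inv_mul_cancel₀ hh0]⟩
  have hab : H1 H p (1, 0) ≠ 0 ∨ H1 H p (0, 1) ≠ 0 := by
    by_contra hcon
    push Not at hcon
    apply hh0
    rw [H1_coord, hcon.1, hcon.2]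
    ring
  have hT0 : T ≠ 0 := by
    intro h
    rw [h] at hL
    have : HL H p 0 0 = 0 := by
      have := HL_smul_left (H := H) p 0 0 0
      simpa using this
    rw [this] at hL
    simp at hL
  have hdec : ∀ h : V, ∃ α : ℂ, h = α • T + H1 H p h • N0 := by
    intro h
    have h1 : H1 H p (h + (-(H1 H p h)) • N0) = 0 := by
      rw [H1_add, H1_smul, hN0]
      ring
    obtain ⟨α, hα⟩ := ker_dim hab hT0 (by rw [← H1_coord]; exact hT)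
      (by rw [← H1_coord]; exact h1)
    refine ⟨α, ?_⟩
    rw [← hα]
    module
  obtain ⟨M, hM0, hM2, hML⟩ := H2_bound hH p
  obtain ⟨M1, hM10, hM1⟩ := H1_bound (H := H) p
  obtain ⟨L, hLd⟩ : ∃ L : ℝ, L = (HL H p T T).re := ⟨_, rfl⟩
  rw [← hLd] at hL
  obtain ⟨a1, ha1⟩ : ∃ a1 : ℝ, a1 = ‖HL H p T N0‖ := ⟨_, rfl⟩
  obtain ⟨a2, ha2⟩ : ∃ a2 : ℝ, a2 = ‖HL H p N0 N0‖ := ⟨_, rfl⟩
  have ha10 : 0 ≤ a1 := by rw [ha1]; exact norm_nonneg _
  have ha20 : 0 ≤ a2 := by rw [ha2]; exact norm_nonneg _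
  obtain ⟨K, hK⟩ : ∃ K : ℝ, K = (a2 + 2 * a1 ^ 2 / L + L / 2) / 2 := ⟨_, rfl⟩
  have hK0 : 0 < K := by rw [hK]; positivity
  obtain ⟨A, hA⟩ : ∃ A : ℝ, A = ‖T‖ + ‖N0‖ := ⟨_, rfl⟩
  have hA0 : 0 < A := by
    rw [hA]
    have := norm_pos_iff.2 hT0
    linarith [norm_nonneg N0]
  have hAT : ‖T‖ ≤ A := by rw [hA]; linarith [norm_nonneg N0]
  have hAN : ‖N0‖ ≤ A := by rw [hA]; linarith [norm_nonneg T]
  obtain ⟨c1, hc1⟩ : ∃ c1 : ℝ, c1 = L / (4 * A ^ 2) := ⟨_, rfl⟩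
  have hc10 : 0 < c1 := by rw [hc1]; positivity
  -- positivity
  have hpos : ∀ h : V, c1 * ‖h‖ ^ 2 ≤ (HL H p h h).re + 2 * K * ‖H1 H p h‖ ^ 2 := by
    intro h
    obtain ⟨α, hα⟩ := hdec h
    obtain ⟨β, hβ⟩ : ∃ β : ℂ, β = H1 H p h := ⟨_, rfl⟩
    rw [← hβ] at hα ⊢
    have e3 : HL H p h h = α * conj α * HL H p T T
        + (α * conj β * HL H p T N0 + conj (α * conj β * HL H p T N0))
        + β * conj β * HL H p N0 N0 := by
      rw [hα, HL_add_left, HL_add_right hH, HL_add_right hH, HL_smul_left, HL_smul_left,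
        HL_smul_left, HL_smul_left, HL_smul_right hH, HL_smul_right hH, HL_smul_right hH,
        HL_smul_right hH, HL_conj hH p T N0]
      simp only [map_mul, Complex.conj_conj]
      ring
    have r3 : (HL H p h h).re = ‖α‖ ^ 2 * L + 2 * (α * conj β * HL H p T N0).re
        + ‖β‖ ^ 2 * (HL H p N0 N0).re := by
      rw [e3, Complex.add_re, Complex.add_re, Complex.mul_conj, Complex.mul_conj,
        Complex.re_ofReal_mul, Complex.re_ofReal_mul, ← hLd, Complex.normSq_eq_norm_sq,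
        Complex.normSq_eq_norm_sq, Complex.add_re, Complex.conj_re]
      ring
    have b1 : -(‖α‖ * ‖β‖ * a1) ≤ (α * conj β * HL H p T N0).re := by
      have h1 := (abs_le.1 (Complex.abs_re_le_norm (α * conj β * HL H p T N0))).1
      rw [norm_mul, norm_mul, RCLike.norm_conj, ← ha1] at h1
      exact h1
    have b2 : -(‖β‖ ^ 2 * a2) ≤ ‖β‖ ^ 2 * (HL H p N0 N0).re := by
      have h1 := (abs_le.1 (Complex.abs_re_le_norm (HL H p N0 N0))).1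
      rw [← ha2] at h1
      have h2 := mul_le_mul_of_nonneg_left h1 (by positivity : 0 ≤ ‖β‖ ^ 2)
      linarith
    have b3 : 2 * (‖α‖ * ‖β‖ * a1) ≤ L / 2 * ‖α‖ ^ 2 + 2 * a1 ^ 2 / L * ‖β‖ ^ 2 := by
      have h1 : 0 ≤ (L / 2) * (‖α‖ - 2 * a1 / L * ‖β‖) ^ 2 := by positivity
      have h2 : (L / 2) * (‖α‖ - 2 * a1 / L * ‖β‖) ^ 2
          = L / 2 * ‖α‖ ^ 2 - 2 * (‖α‖ * ‖β‖ * a1) + 2 * a1 ^ 2 / L * ‖β‖ ^ 2 := by
        field_simp
        ring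
      linarith
    have b4 : L / 2 * (‖α‖ ^ 2 + ‖β‖ ^ 2) ≤ (HL H p h h).re + 2 * K * ‖β‖ ^ 2 := by
      have h1 : 2 * K * ‖β‖ ^ 2 = a2 * ‖β‖ ^ 2 + 2 * a1 ^ 2 / L * ‖β‖ ^ 2 + L / 2 * ‖β‖ ^ 2 := by
        rw [hK]
        ring
      rw [r3, h1]
      linarith
    refine le_trans ?_ b4
    have h1 : ‖h‖ ≤ A * (‖α‖ + ‖β‖) := by
      rw [hα]
      refine (norm_add_le _ _).trans ?_
      rw [norm_smul, norm_smul]
      have h2 := mul_le_mul_of_nonneg_left hAT (norm_nonneg α)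
      have h3 := mul_le_mul_of_nonneg_left hAN (norm_nonneg β)
      linarith
    have h2 : ‖h‖ ^ 2 ≤ A ^ 2 * (‖α‖ + ‖β‖) ^ 2 := by
      rw [← mul_pow]
      exact pow_le_pow_left₀ (norm_nonneg _) h1 2
    have h3 : (‖α‖ + ‖β‖) ^ 2 ≤ 2 * (‖α‖ ^ 2 + ‖β‖ ^ 2) := by nlinarith [sq_nonneg (‖α‖ - ‖β‖)]
    calc c1 * ‖h‖ ^ 2 ≤ c1 * (A ^ 2 * (2 * (‖α‖ ^ 2 + ‖β‖ ^ 2))) :=
          mul_le_mul_of_nonneg_left (h2.trans (mul_le_mul_of_nonneg_left h3 (by positivity)))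
            hc10.le
      _ = L / 2 * (‖α‖ ^ 2 + ‖β‖ ^ 2) := by
          rw [hc1]
          field_simp
          ring
  obtain ⟨η, hη⟩ : ∃ η : ℝ, η = min 1 (c1 / 4) := ⟨_, rfl⟩
  have hη0 : 0 < η := by rw [hη]; exact lt_min one_pos (by positivity)
  have hη1 : η ≤ 1 := by rw [hη]; exact min_le_left _ _
  have hη2 : η ≤ c1 / 4 := by rw [hη]; exact min_le_right _ _
  obtain ⟨δ, hδ0, hδ⟩ := PR_expand hH p hη0
  have hPsm : ∀ᶠ h : V in 𝓝 0, -(1 / K) < PR H (p + h) := by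
    have hc : Continuous fun h : V => PR H (p + h) :=
      (PR_continuous hH).comp (continuous_const.add continuous_id)
    refine (hc.tendsto 0).eventually (lt_mem_nhds ?_)
    rw [add_zero, hp0]
    have : 0 < 1 / K := by positivity
    linarith
  obtain ⟨R1, hR1, hR1b⟩ := Metric.eventually_nhds_iff_ball.1 hPsm
  obtain ⟨D, hDd⟩ : ∃ D : ℝ, D = 2 * M + 1 := ⟨_, rfl⟩
  have hD0 : 0 < D := by rw [hDd]; positivity
  obtain ⟨Z, hZ⟩ : ∃ Z : ℝ, Z = K * (4 * M1 * D + D ^ 2) := ⟨_, rfl⟩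
  have hZ0 : 0 ≤ Z := by rw [hZ]; positivity
  refine ⟨K, c1 / 2, min (min δ R1) (min 1 (c1 / (4 * (Z + 1)))), by positivity, ?_, ?_⟩
  · exact lt_min (lt_min hδ0 hR1) (lt_min one_pos (by positivity))
  intro h hh hneg
  have hh1 : ‖h‖ < δ := lt_of_lt_of_le hh ((min_le_left _ _).trans (min_le_left _ _))
  have hh2 : ‖h‖ < R1 := lt_of_lt_of_le hh ((min_le_left _ _).trans (min_le_right _ _))
  have hh3 : ‖h‖ < 1 := lt_of_lt_of_le hh ((min_le_right _ _).trans (min_le_left _ _))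
  have hh4 : ‖h‖ < c1 / (4 * (Z + 1)) :=
    lt_of_lt_of_le hh ((min_le_right _ _).trans (min_le_right _ _))
  have hn := norm_nonneg h
  have hPlow : -(1 / K) < PR H (p + h) := hR1b h (by rwa [mem_ball_zero_iff])
  have hexp := hδ h hh1
  rw [hp0, sub_zero] at hexp
  obtain ⟨P, hP⟩ : ∃ P : ℝ, P = PR H (p + h) := ⟨_, rfl⟩
  rw [← hP] at hexp hPlow hneg
  obtain ⟨w, hw⟩ : ∃ w : ℂ, w = H1 H p h := ⟨_, rfl⟩
  have hposh := hpos h
  have hpkre : (pk H p K h).re = 2 * w.re + (H2 H p h h).re + 2 * K * (w ^ 2).re := by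
    rw [pk, ← hw]
    have e1 : (2 : ℂ) * w + H2 H p h h + 2 * (K : ℂ) * w ^ 2
        = ((2 : ℝ) : ℂ) * w + H2 H p h h + ((2 * K : ℝ) : ℂ) * w ^ 2 := by
      push_cast
      ring
    rw [e1, Complex.add_re, Complex.add_re, Complex.re_ofReal_mul, Complex.re_ofReal_mul]
  rw [← hw] at hexp hposh
  obtain ⟨q2, hq2⟩ : ∃ q2 : ℝ, q2 = (H2 H p h h).re := ⟨_, rfl⟩
  obtain ⟨l2, hl2⟩ : ∃ l2 : ℝ, l2 = (HL H p h h).re := ⟨_, rfl⟩
  obtain ⟨x, hx⟩ : ∃ x : ℝ, x = w.re := ⟨_, rfl⟩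
  rw [hpkre]
  rw [← hq2, ← hl2, ← hx] at hexp
  rw [← hl2] at hposh
  rw [← hx, ← hq2]
  have hw2 : 2 * x ^ 2 = ‖w‖ ^ 2 + (w ^ 2).re := by
    rw [← Complex.normSq_eq_norm_sq, Complex.normSq_apply, hx, sq w, Complex.mul_re]
    ring
  obtain ⟨E, hE⟩ : ∃ E : ℝ, E = P - 2 * x - q2 - l2 := ⟨_, rfl⟩
  rw [← hE] at hexp
  obtain ⟨ρ, hρ⟩ : ∃ ρ : ℝ, ρ = q2 + l2 + E := ⟨_, rfl⟩
  have hPρ : P = 2 * x + ρ := by rw [hρ, hE]; ring
  have hq2b : |q2| ≤ M * ‖h‖ ^ 2 := by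
    rw [hq2]
    refine (Complex.abs_re_le_norm _).trans ((hM2 h h).trans (le_of_eq (by ring)))
  have hl2b : |l2| ≤ M * ‖h‖ ^ 2 := by
    rw [hl2]
    refine (Complex.abs_re_le_norm _).trans ((hML h h).trans (le_of_eq (by ring)))
  have hρb : |ρ| ≤ D * ‖h‖ ^ 2 := by
    rw [hρ, hDd]
    have h1 := abs_add_le (q2 + l2) E
    have h2 := abs_add_le q2 l2
    have h3 : η * ‖h‖ ^ 2 ≤ 1 * ‖h‖ ^ 2 := mul_le_mul_of_nonneg_right hη1 (by positivity)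
    linarith
  have hxb : |x| ≤ M1 * ‖h‖ := by
    rw [hx, hw]
    exact (Complex.abs_re_le_norm _).trans (hM1 h)
  have hKP : P + K * P ^ 2 ≤ 0 := by
    have h1 : 0 ≤ 1 + K * P := by
      have h2 : K * (-(1 / K)) ≤ K * P := mul_le_mul_of_nonneg_left hPlow.le hK0.le
      have h3 : K * (-(1 / K)) = -1 := by field_simp
      linarith
    nlinarith
  have hident : 2 * x + q2 + 2 * K * (w ^ 2).re = (P + K * P ^ 2)
      - (l2 + 2 * K * ‖w‖ ^ 2) - E - K * (4 * x * ρ + ρ ^ 2) := by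
    have h1 : (w ^ 2).re = 2 * x ^ 2 - ‖w‖ ^ 2 := by linarith
    rw [h1, hPρ, hρ]
    ring
  have herr : |K * (4 * x * ρ + ρ ^ 2)| ≤ c1 / 4 * ‖h‖ ^ 2 := by
    rw [abs_mul, abs_of_pos hK0]
    have h1 : |4 * x * ρ + ρ ^ 2| ≤ 4 * (M1 * ‖h‖) * (D * ‖h‖ ^ 2) + (D * ‖h‖ ^ 2) * (D * ‖h‖ ^ 2) := by
      refine (abs_add_le _ _).trans (add_le_add ?_ ?_)
      · rw [abs_mul, abs_mul, abs_of_pos (by norm_num : (0 : ℝ) < 4)]
        exact mul_le_mul (mul_le_mul_of_nonneg_left hxb (by norm_num)) hρb (abs_nonneg _)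
          (by positivity)
      · rw [sq, abs_mul]
        exact mul_le_mul hρb hρb (abs_nonneg _) (by positivity)
    have h2 : 4 * (M1 * ‖h‖) * (D * ‖h‖ ^ 2) + (D * ‖h‖ ^ 2) * (D * ‖h‖ ^ 2)
        ≤ (4 * M1 * D + D ^ 2) * (‖h‖ * ‖h‖ ^ 2) := by
      have h3 : ‖h‖ ^ 2 * ‖h‖ ^ 2 ≤ ‖h‖ * ‖h‖ ^ 2 := by
        refine mul_le_mul_of_nonneg_right ?_ (by positivity)
        nlinarith
      have h4 := mul_le_mul_of_nonneg_left h3 (by positivity : 0 ≤ D ^ 2)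
      linarith
    have h5 : K * |4 * x * ρ + ρ ^ 2| ≤ Z * ‖h‖ * ‖h‖ ^ 2 := by
      refine (mul_le_mul_of_nonneg_left (h1.trans h2) hK0.le).trans (le_of_eq ?_)
      rw [hZ]
      ring
    refine h5.trans (mul_le_mul_of_nonneg_right ?_ (by positivity))
    rw [lt_div_iff₀ (by positivity)] at hh4
    linarith
  have hE1 : -E ≤ c1 / 4 * ‖h‖ ^ 2 := by
    have h1 := (abs_le.1 hexp).1
    have h2 : η * ‖h‖ ^ 2 ≤ c1 / 4 * ‖h‖ ^ 2 := mul_le_mul_of_nonneg_right hη2 (by positivity)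
    linarith
  have herr2 := (abs_le.1 herr).1
  rw [hident]
  linarith

end Pool.FB74
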