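import Pool.Agent.FB74.Flat
import Pool.Agent.FB74.Curve

/-!
No domain of the plane with smooth real algebraic boundary is a biholomorphic image of the plane.
-/

set_option autoImplicit false

namespace Pool.FB74

open Topology Filter Set Metric
open scoped ContDiff ComplexConjugate

theorem Lam_rl {H : V × V → ℂ} (hH : HSys H) (z : V) :
    Lam H (rl z) = HL H z (-dd eb H (rl z), dd ea H (rl z)) (-dd eb H (rl z), dd ea H (rl z)) := by
  have h1 := hH.dd1 ea (rl z)
  have h2 := hH.dd1 eb (rl z)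
  rw [cc_rl] at h1 h2
  have e1 : cc ea = ec := by simp [cc, ea, ec, cj]
  have e2 : cc eb = ee := by simp [cc, eb, ee, cj]
  rw [e1] at h1
  rw [e2] at h2
  have e3 : (((-dd eb H (rl z), dd ea H (rl z)), 0) : V × V)
      = (-dd eb H (rl z)) • ea + (dd ea H (rl z)) • eb := by simp [ea, eb]
  have e4 : ((0, cj (-dd eb H (rl z), dd ea H (rl z))) : V × V)
      = (-dd ee H (rl z)) • ec + (dd ec H (rl z)) • ee := by
    rw [h1, h2]
    simp [ec, ee, cj]
  rw [HL, e3, e4, dd_add_left, dd_smul_left, dd_smul_left, dd_add_right hH.smooth,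
    dd_add_right hH.smooth, dd_smul_right hH.smooth, dd_smul_right hH.smooth,
    dd_smul_right hH.smooth, dd_smul_right hH.smooth, Lam]
  ring

theorem H1_tangent {H : V × V → ℂ} (z : V) :
    H1 H z (-dd eb H (rl z), dd ea H (rl z)) = 0 := by
  have e3 : (((-dd eb H (rl z), dd ea H (rl z)), 0) : V × V)
      = (-dd eb H (rl z)) • ea + (dd ea H (rl z)) • eb := by simp [ea, eb]
  rw [H1, e3, dd_add_left, dd_smul_left, dd_smul_left]
  ring

theorem ev_diff (f : MvPolynomial (Fin 2) ℂ) : Differentiable ℂ fun z : V => ev z f := by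
  induction f using MvPolynomial.induction_on with
  | C a => simp [ev]
  | add p q hp hq =>
    have : (fun z : V => ev z (p + q)) = fun z => ev z p + ev z q := by
      funext z
      simp [ev]
    rw [this]
    exact hp.add hq
  | mul_X p i hp =>
    have : (fun z : V => ev z (p * MvPolynomial.X i)) = fun z => ev z p * ![z.1, z.2] i := by
      funext z
      simp [ev]
    rw [this]
    refine hp.mul ?_
    fin_cases i
    · exact differentiable_fst
    · exact differentiable_snd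

theorem ev_zero_of_open {f : MvPolynomial (Fin 2) ℂ} {U : Set V} (hU : IsOpen U)
    (hne : U.Nonempty) (h : ∀ z ∈ U, ev z f = 0) : f = 0 := by
  obtain ⟨u, hu⟩ := hne
  have h1 := eq_zero_of_open (ev_diff f) hU hu h
  refine MvPolynomial.funext fun x => ?_
  have h5 : x = ![x 0, x 1] := by
    funext i
    fin_cases i <;> rfl
  rw [h5, map_zero]
  exact h1 (x 0, x 1)

/-- restriction of a polynomial to a complex line -/
theorem exists_line_poly (f : MvPolynomial (Fin 2) ℂ) (y ν : V) :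
    ∃ r : Polynomial ℂ, ∀ τ : ℂ, r.eval τ = ev (y + τ • ν) f := by
  refine ⟨MvPolynomial.aeval (![Polynomial.C y.1 + Polynomial.C ν.1 * Polynomial.X,
    Polynomial.C y.2 + Polynomial.C ν.2 * Polynomial.X] : Fin 2 → Polynomial ℂ) f, fun τ => ?_⟩
  induction f using MvPolynomial.induction_on with
  | C a => simp [ev]
  | add p q hp hq =>
    rw [map_add, Polynomial.eval_add, hp, hq]
    simp [ev]
  | mul_X p i hp =>
    rw [map_mul, Polynomial.eval_mul, hp, MvPolynomial.aeval_X]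
    have : ev (y + τ • ν) (p * MvPolynomial.X i)
        = ev (y + τ • ν) p * ![(y + τ • ν).1, (y + τ • ν).2] i := by simp [ev]
    rw [this]
    congr 1
    fin_cases i <;> simp <;> ring

/-- A nonzero polynomial does not vanish identically on the boundary. -/
theorem Dom.generic {Ω U : Set V} {H : V × V → ℂ} (hD : Dom Ω H U)
    (hne : (frontier Ω ∩ U).Nonempty) {Q : MvPolynomial (Fin 2) ℂ} (hQ : Q ≠ 0) :
    ∃ p ∈ frontier Ω, p ∈ U ∧ ev p Q ≠ 0 := by
  by_contra hcon
  push Not at hcon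
  obtain ⟨p0, hp0, hp0U⟩ := hne
  obtain ⟨ν, R, hR, hb, -, hfr, hRU⟩ := hD.loc hp0 hp0U
  obtain ⟨η, hη, R', hR', hs⟩ := signs hD.sys hR hb (hD.bd p0 hp0 hp0U).1
  have hzero : ∀ y ∈ ball p0 R', ∃ α : ℝ, ev (y + (α : ℂ) • ν) Q = 0 := by
    intro y hy
    obtain ⟨h1, h2, h3⟩ := hs y hy
    have hc : Continuous fun θ : ℝ => PR H (y + θ • ν) :=
      (PR_continuous hD.sys).comp (continuous_const.add (continuous_id.smul continuous_const))
    have hiv := intermediate_value_Icc (f := fun θ : ℝ => PR H (y + θ • ν))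
      (by linarith : -η ≤ η) hc.continuousOn
    obtain ⟨α, hα, hα0⟩ := hiv (show (0 : ℝ) ∈ Icc _ _ from ⟨h1.le, h2.le⟩)
    refine ⟨α, ?_⟩
    have h3' := h3 α (abs_le.2 ⟨by linarith [hα.1], hα.2⟩)
    have h4 : y + α • ν ∈ frontier Ω := hfr _ h3' hα0
    have h5 : (α : ℂ) • ν = α • ν := by
      ext <;> simp
    rw [h5]
    exact hcon _ h4 (hRU h3')
  apply hQ
  refine ev_zero_of_open (isOpen_ball (x := p0) (ε := R' / 2))
    ⟨p0, mem_ball_self (by positivity)⟩ fun y hy => ?_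
  obtain ⟨r, hr⟩ := exists_line_poly Q y ν
  have hr0 : r = 0 := by
    refine Polynomial.eq_zero_of_infinite_isRoot r ?_
    obtain ⟨β0, hβ0⟩ : ∃ β0 : ℝ, β0 = R' / (2 * (‖ν‖ + 1)) := ⟨_, rfl⟩
    have hβpos : 0 < β0 := by rw [hβ0]; positivity
    have hsub : Ioo 0 β0 ⊆ Complex.im '' {τ | r.IsRoot τ} := by
      intro β hβ
      have hin : y + ((β : ℂ) * Complex.I) • ν ∈ ball p0 R' := by
        rw [mem_ball, dist_eq_norm] at hy ⊢
        have h6 : y + ((β : ℂ) * Complex.I) • ν - p0 = (y - p0) + ((β : ℂ) * Complex.I) • ν := by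
          module
        rw [h6]
        have h7 := norm_add_le (y - p0) (((β : ℂ) * Complex.I) • ν)
        rw [norm_smul, norm_mul, Complex.norm_I, mul_one, Complex.norm_real, Real.norm_eq_abs,
          abs_of_pos hβ.1] at h7
        have h8 : β * ‖ν‖ < R' / 2 := by
          have h9 : β < R' / (2 * (‖ν‖ + 1)) := by rw [← hβ0]; exact hβ.2
          rw [lt_div_iff₀ (by positivity)] at h9
          nlinarith [norm_nonneg ν, hβ.1]
        linarith
      obtain ⟨α, hα⟩ := hzero _ hin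
      refine ⟨(α : ℂ) + β * Complex.I, ?_, by simp⟩
      show r.eval _ = 0
      rw [hr, ← hα]
      congr 1
      module
    have hinf : (Complex.im '' {τ | r.IsRoot τ}).Infinite := (Ioo_infinite hβpos).mono hsub
    exact hinf.of_image _
  have := hr 0
  rw [hr0, Polynomial.eval_zero, zero_smul, add_zero] at this
  exact this.symm

/-- Boundary points carry algebraic curves in the zero set. -/
theorem Dom.exists_curve {Ω U : Set V} {H : V × V → ℂ} {d : ℕ} (hP : PSys H d) (hD : Dom Ω H U)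
    {F G : V → V} (hF : DifferentiableOn ℂ F Ω) (hG : Differentiable ℂ G) (hGΩ : ∀ y, G y ∈ Ω)
    (hGF : ∀ x ∈ Ω, G (F x) = x) {p : V} (hp : p ∈ frontier Ω) (hpU : p ∈ U) :
    ∃ q : MvPolynomial (Fin 2) ℂ, q ≠ 0 ∧ q.totalDegree ≤ d ∧ ev p q = 0 ∧
      ∀ z ∈ Ω, ev z q ≠ 0 := by
  obtain ⟨hp0, hne⟩ := hD.bd p hp hpU
  have hHp : H (rl p) = 0 := by rw [← hD.sys.real, hp0, Complex.ofReal_zero]
  obtain ⟨ν, R, hR, -, -, hfr, hRU⟩ := hD.loc hp hpU
  have hflat : ∀ᶠ z in 𝓝 p, H (rl z) = 0 → Lam H (rl z) = 0 := by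
    filter_upwards [ball_mem_nhds p hR] with z hz hz0
    have h1 : PR H z = 0 := by rw [PR, hz0, Complex.zero_re]
    rw [Lam_rl hD.sys]
    exact hD.levi_flat hF hG hGΩ hGF (hfr z hz h1) (hRU hz) (H1_tangent z)
  have hΛ := nullst hD.sys hHp hne (Λ := Lam H) ((Lam_smooth hD.sys.smooth).of_le (by simp)) hflat
  obtain ⟨q, hq0, hqd, hqp, hq⟩ := curve hP hHp hne hΛ
  refine ⟨q, hq0, hqd, hqp, fun z hz h0 => ?_⟩
  have h1 := hD.neg z hz
  rw [PR, hq z h0, Complex.zero_re] at h1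
  exact lt_irrefl 0 h1

theorem main {Ω U : Set V} {H : V × V → ℂ} {d : ℕ} (hP : PSys H d) (hD : Dom Ω H U)
    {F G : V → V} (hF : DifferentiableOn ℂ F Ω) (hG : Differentiable ℂ G) (hGΩ : ∀ y, G y ∈ Ω)
    (hGF : ∀ x ∈ Ω, G (F x) = x) : ¬ (frontier Ω ∩ U).Nonempty := by
  intro hne
  classical
  set W := MvPolynomial.restrictTotalDegree (Fin 2) ℂ d with hW
  set S : Set W := {w | (w : MvPolynomial (Fin 2) ℂ) ≠ 0 ∧ ∀ z ∈ Ω, ev z w ≠ 0} with hS
  obtain ⟨b, hbS, hbspan, hbli⟩ := exists_linearIndependent ℂ S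
  have hbfin : b.Finite := hbli.setFinite
  set B : Finset W := hbfin.toFinset with hB
  have hQ : (∏ w ∈ B, (w : MvPolynomial (Fin 2) ℂ)) ≠ 0 := by
    rw [Finset.prod_ne_zero_iff]
    intro w hw
    exact (hbS (hbfin.mem_toFinset.1 hw)).1
  obtain ⟨p, hp, hpU, hpQ⟩ := hD.generic hne hQ
  have hpb : ∀ w ∈ b, ev p (w : MvPolynomial (Fin 2) ℂ) ≠ 0 := by
    intro w hw h0
    apply hpQ
    rw [ev, map_prod]
    exact Finset.prod_eq_zero (hbfin.mem_toFinset.2 hw) h0
  obtain ⟨q, hq0, hqd, hqp, hqΩ⟩ := hD.exists_curve hP hF hG hGΩ hGF hp hpU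
  set qw : W := ⟨q, (MvPolynomial.mem_restrictTotalDegree _ _ _).2 hqd⟩ with hqw
  have hqS : qw ∈ S := ⟨hq0, hqΩ⟩
  have hqspan : qw ∈ Submodule.span ℂ b := by
    rw [hbspan]
    exact Submodule.subset_span hqS
  have hqb : qw ∉ b := fun h => hpb qw h hqp
  obtain ⟨c, hc1, hc2⟩ := Submodule.mem_span_set.1 hqspan
  set J : Finset W := insert qw c.support with hJ
  have hqc : qw ∉ c.support := fun h => hqb (hc1 h)
  set co : W → ℂ := fun w => if w = qw then 1 else -c w with hco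
  have hJS : ∀ w ∈ J, w ∈ S := by
    intro w hw
    rcases Finset.mem_insert.1 hw with h | h
    · rw [h]; exact hqS
    · exact hbS (hc1 h)
  have hco0 : ∀ w ∈ J, co w ≠ 0 := by
    intro w hw
    rcases Finset.mem_insert.1 hw with h | h
    · simp [hco, h]
    · have h1 : w ≠ qw := fun h2 => hqc (h2 ▸ h)
      simp only [hco]
      rw [if_neg h1]
      exact neg_ne_zero.2 (Finsupp.mem_support_iff.1 h)
  have hsum : ∀ z, ∑ w ∈ J, co w * ev (G z) (w : MvPolynomial (Fin 2) ℂ) = 0 := by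
    intro z
    rw [hJ, Finset.sum_insert hqc]
    have h1 : ∑ w ∈ c.support, co w * ev (G z) (w : MvPolynomial (Fin 2) ℂ)
        = -∑ w ∈ c.support, c w * ev (G z) (w : MvPolynomial (Fin 2) ℂ) := by
      rw [← Finset.sum_neg_distrib]
      refine Finset.sum_congr rfl fun w hw => ?_
      have h2 : w ≠ qw := fun h2 => hqc (h2 ▸ hw)
      simp only [hco]
      rw [if_neg h2]
      ring
    have h3 : ev (G z) (qw : MvPolynomial (Fin 2) ℂ)
        = ∑ w ∈ c.support, c w * ev (G z) (w : MvPolynomial (Fin 2) ℂ) := by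
      rw [← hc2, Finsupp.sum, ev]
      rw [AddSubmonoidClass.coe_finsetSum, map_sum]
      refine Finset.sum_congr rfl fun w _ => ?_
      rw [Submodule.coe_smul, MvPolynomial.smul_eval]
      rfl
    rw [h1, h3]
    have h4 : co qw = 1 := by simp [hco]
    rw [h4, one_mul, ← sub_eq_add_neg, sub_self]
  obtain ⟨i, hi, j, hj, hij, hprop⟩ := borel2 (J := J)
    (h := fun w z => co w * ev (G z) (w : MvPolynomial (Fin 2) ℂ)) (Finset.insert_nonempty _ _)
    (fun w _ => ((ev_diff _).comp hG).const_mul _)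
    (fun w hw z => mul_ne_zero (hco0 w hw) ((hJS w hw).2 _ (hGΩ z))) hsum
  set α : ℂ := co i * (co j * ev (G 0) (j : MvPolynomial (Fin 2) ℂ)) with hα
  set β : ℂ := co j * (co i * ev (G 0) (i : MvPolynomial (Fin 2) ℂ)) with hβ
  have hα0 : α ≠ 0 := mul_ne_zero (hco0 i hi) (mul_ne_zero (hco0 j hj) ((hJS j hj).2 _ (hGΩ 0)))
  have hβ0 : β ≠ 0 := mul_ne_zero (hco0 j hj) (mul_ne_zero (hco0 i hi) ((hJS i hi).2 _ (hGΩ 0)))
  have hpoly : α • (i : MvPolynomial (Fin 2) ℂ) - β • (j : MvPolynomial (Fin 2) ℂ) = 0 := by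
    refine ev_zero_of_open hD.op ⟨G 0, hGΩ 0⟩ fun z hz => ?_
    have h1 := hprop (F z)
    simp only [hGF z hz] at h1
    have h2 : ev z (α • (i : MvPolynomial (Fin 2) ℂ) - β • (j : MvPolynomial (Fin 2) ℂ))
        = α * ev z (i : MvPolynomial (Fin 2) ℂ) - β * ev z (j : MvPolynomial (Fin 2) ℂ) := by
      simp [ev, MvPolynomial.smul_eval]
    rw [h2, hα, hβ]
    linear_combination h1
  have hevp : ∀ w ∈ J, w ≠ qw → ev p (w : MvPolynomial (Fin 2) ℂ) ≠ 0 := by
    intro w hw hne'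
    rcases Finset.mem_insert.1 hw with h | h
    · exact absurd h hne'
    · exact hpb w (hc1 h)
  have hpp : α * ev p (i : MvPolynomial (Fin 2) ℂ) - β * ev p (j : MvPolynomial (Fin 2) ℂ) = 0 := by
    have h2 : ev p (α • (i : MvPolynomial (Fin 2) ℂ) - β • (j : MvPolynomial (Fin 2) ℂ))
        = α * ev p (i : MvPolynomial (Fin 2) ℂ) - β * ev p (j : MvPolynomial (Fin 2) ℂ) := by
      simp [ev, MvPolynomial.smul_eval]
    rw [← h2, hpoly]
    simp [ev]
  by_cases hiq : i = qw
  · have hjq : j ≠ qw := fun h => hij (hiq.trans h.symm)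
    rw [hiq] at hpp
    have h1 : ev p (qw : MvPolynomial (Fin 2) ℂ) = 0 := hqp
    rw [h1, mul_zero, zero_sub, neg_eq_zero] at hpp
    exact (mul_ne_zero hβ0 (hevp j hj hjq)) hpp
  by_cases hjq : j = qw
  · rw [hjq] at hpp
    have h1 : ev p (qw : MvPolynomial (Fin 2) ℂ) = 0 := hqp
    rw [h1, mul_zero, sub_zero] at hpp
    exact (mul_ne_zero hα0 (hevp i hi hiq)) hpp
  have hib : i ∈ b := by
    rcases Finset.mem_insert.1 hi with h | h
    · exact absurd h hiq
    · exact hc1 h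
  have hjb : j ∈ b := by
    rcases Finset.mem_insert.1 hj with h | h
    · exact absurd h hjq
    · exact hc1 h
  have hpair : LinearIndependent ℂ ![i, j] := by
    have h1 := hbli.comp ![(⟨i, hib⟩ : b), ⟨j, hjb⟩] (by
      intro x y hxy
      fin_cases x <;> fin_cases y <;> simp at hxy ⊢
      · exact hij hxy
      · exact hij hxy.symm)
    have h2 : ![i, j] = (Subtype.val ∘ ![(⟨i, hib⟩ : b), ⟨j, hjb⟩]) := by
      funext x
      fin_cases x <;> rfl
    rw [h2]
    exact h1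
  rw [LinearIndependent.pair_iff] at hpair
  have := hpair α (-β) (by
    apply Subtype.ext
    rw [Submodule.coe_add, Submodule.coe_smul, Submodule.coe_smul, neg_smul, ← sub_eq_add_neg,
      hpoly]
    rfl)
  exact hα0 this.1

end Pool.FB74
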