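import Pool.Agent.FB74.Herm

/-!
A local Nullstellensatz for Hermitian functions: a holomorphic function vanishing on the real
points of the smooth hypersurface `H = 0` is bounded by a multiple of `|H|`.
-/

set_option autoImplicit false

namespace Pool.FB74

open Topology Filter Set Metric
open scoped ContDiff ComplexConjugate

theorem local_inv {E F : Type*} [NormedAddCommGroup E] [NormedSpace ℂ E] [CompleteSpace E]
    [NormedAddCommGroup F] [NormedSpace ℂ F]
    {Φ : E → F} {a : E} (h : ContDiffAt ℂ 1 Φ a) {Φ' : E ≃L[ℂ] F}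
    (hΦ' : HasFDerivAt Φ (Φ' : E →L[ℂ] F) a) :
    ∃ Ψ : F → E, ContDiffAt ℂ 1 Ψ (Φ a) ∧ Ψ (Φ a) = a ∧ (∀ᶠ x in 𝓝 a, Ψ (Φ x) = x) ∧
      ∀ᶠ y in 𝓝 (Φ a), Φ (Ψ y) = y := by
  have h1 : (1 : WithTop ℕ∞) ≠ 0 := one_ne_zero
  have hs := h.hasStrictFDerivAt' hΦ' h1
  exact ⟨h.localInverse hΦ' h1, h.to_localInverse hΦ' h1, h.localInverse_apply_image hΦ' h1,
    hs.eventually_left_inverse, hs.eventually_right_inverse⟩

/-- A function holomorphic on `ball 0 2` vanishing at the real points vanishes at `I`. -/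
theorem vanish_I {φ : ℂ → ℂ} (hφ : DifferentiableOn ℂ φ (ball 0 2))
    (h0 : ∀ τ : ℝ, |τ| < 2 → φ τ = 0) : φ Complex.I = 0 := by
  have han : AnalyticOnNhd ℂ φ (ball 0 2) := hφ.analyticOnNhd isOpen_ball
  have hfr : ∃ᶠ z in 𝓝[≠] (0 : ℂ), φ z = 0 := by
    have ht : Tendsto (fun τ : ℝ => (τ : ℂ)) (𝓝[≠] 0) (𝓝[≠] 0) := by
      refine tendsto_nhdsWithin_iff.2 ⟨?_, ?_⟩
      · have := Complex.continuous_ofReal.tendsto 0
        rw [Complex.ofReal_zero] at this
        exact this.mono_left nhdsWithin_le_nhds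
      · filter_upwards [self_mem_nhdsWithin] with τ hτ
        simpa using hτ
    refine ht.frequently (Eventually.frequently ?_)
    have : ∀ᶠ τ : ℝ in 𝓝 0, |τ| < 2 := by
      have h1 : IsOpen {τ : ℝ | |τ| < 2} := isOpen_lt continuous_abs continuous_const
      exact h1.mem_nhds (show |(0 : ℝ)| < 2 by simp)
    filter_upwards [nhdsWithin_le_nhds this] with τ hτ
    exact h0 τ hτ
  have := han.eqOn_zero_of_preconnected_of_frequently_eq_zero
    (convex_ball (0 : ℂ) 2).isPreconnected (mem_ball_self two_pos) hfr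
    (show Complex.I ∈ ball (0 : ℂ) 2 by simp)
  simpa using this

/-- Local Nullstellensatz. -/
theorem nullst {H : V × V → ℂ} (hH : HSys H) {p : V} (hp : H (rl p) = 0)
    (hne : ∃ h, H1 H p h ≠ 0) {Λ : V × V → ℂ} (hΛ : ContDiff ℂ 1 Λ)
    (h0 : ∀ᶠ z in 𝓝 p, H (rl z) = 0 → Λ (rl z) = 0) :
    ∃ C, ∀ᶠ x in 𝓝 (rl p), ‖Λ x‖ ≤ C * ‖H x‖ := by
  obtain ⟨T, hT⟩ := hne
  set x0 : V × V := rl p with hx0
  set L : V × V →L[ℂ] ℂ := fderiv ℂ H x0 with hL
  have hLcc : ∀ v, L (cc v) = conj (L v) := by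
    intro v
    have := hH.dd1 v (rl p)
    rw [cc_rl] at this
    exact this
  set e : V × V := rl ((1 / (2 * H1 H p T)) • T) with he
  have hcce : cc e = e := cc_rl _
  have hLe : L e = 1 := by
    have h1 : L e = dd (rl ((1 / (2 * H1 H p T)) • T)) H (rl p) := rfl
    rw [h1, dd_rl hH, H1_smul]
    have h2 : 1 / (2 * H1 H p T) * H1 H p T = 1 / 2 := by
      field_simp
    rw [h2]
    norm_num
  set Φ : V × V → V × V := fun x => x + (H x - L (x - x0)) • e with hΦ
  have hΦ0 : Φ x0 = x0 := by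
    simp only [hΦ]
    rw [hp, sub_self, map_zero, sub_zero, zero_smul, add_zero]
  have hΦd : ContDiff ℂ ∞ Φ := by
    have h1 : ContDiff ℂ ∞ (fun x : V × V => L (x - x0)) :=
      L.contDiff.comp (contDiff_id.sub contDiff_const)
    exact contDiff_id.add ((hH.smooth.sub h1).smul contDiff_const)
  have hΦ' : HasFDerivAt Φ ((ContinuousLinearEquiv.refl ℂ (V × V)) :
      (V × V) →L[ℂ] (V × V)) x0 := by
    have e1 : HasFDerivAt (fun x : V × V => L (x - x0)) L x0 := by
      have := L.hasFDerivAt.comp x0 ((hasFDerivAt_id x0).sub_const x0)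
      rw [ContinuousLinearMap.comp_id] at this
      exact this
    have e2 := (hasFDerivAt_id x0).add ((((hH.diff x0).hasFDerivAt).sub e1).smul_const e)
    refine e2.congr_fderiv ?_
    rw [← hL, sub_self]
    refine ContinuousLinearMap.ext fun v => ?_
    simp
  have hΦcc : ∀ x, Φ (cc x) = cc (Φ x) := by
    intro x
    simp only [hΦ]
    have h1 : x - x0 = x + (-1 : ℂ) • x0 := by module
    have h2 : cc x - x0 = cc (x - x0) := by
      rw [h1, cc_add, cc_smul, hx0, cc_rl]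
      simp only [map_neg, map_one]
      module
    rw [cc_add, cc_smul, hcce, hH.herm, map_sub (starRingEnd ℂ), ← hLcc, h2]
  have hΦL : ∀ x, L (Φ x - x0) = H x := by
    intro x
    have h1 : Φ x - x0 = (x - x0) + (H x - L (x - x0)) • e := by
      simp only [hΦ]
      module
    rw [h1, map_add, map_smul, hLe, smul_eq_mul]
    ring
  obtain ⟨Ψ, hΨd, hΨ0, hl, hr⟩ := local_inv (hΦd.of_le (by simp)).contDiffAt hΦ'
  rw [hΦ0] at hΨd hΨ0 hr
  have hΨc : Tendsto Ψ (𝓝 x0) (𝓝 x0) := by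
    have := hΨd.continuousAt.tendsto
    rwa [hΨ0] at this
  have hccx0 : Tendsto cc (𝓝 x0) (𝓝 x0) := by
    have := continuous_cc.tendsto x0
    rwa [hx0, cc_rl] at this
  -- real points
  have hreal : ∀ᶠ y in 𝓝 x0, cc y = y → cc (Ψ y) = Ψ y := by
    filter_upwards [hr, (hccx0.comp hΨc).eventually hl] with y h1 h2 h3
    have h4 : Ψ (Φ (cc (Ψ y))) = cc (Ψ y) := h2
    rw [hΦcc, h1, h3] at h4
    exact h4.symm
  set G : V × V → ℂ := fun y => Λ (Ψ y) with hG
  have hGd : ContDiffAt ℂ 1 G x0 := hΛ.contDiffAt.comp x0 hΨd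
  have hG0 : ∀ᶠ y in 𝓝 x0, cc y = y → L (y - x0) = 0 → G y = 0 := by
    have hfst : Tendsto (fun y => (Ψ y).1) (𝓝 x0) (𝓝 p) :=
      ((continuous_fst.tendsto x0).comp hΨc)
    filter_upwards [hr, hreal, hfst.eventually h0] with y h1 h2 h3 h4 h5
    have h6 := eq_rl (h2 h4)
    have h7 : H (Ψ y) = 0 := by
      rw [← hΦL, h1, h5]
    show Λ (Ψ y) = 0
    rw [h6]
    rw [h6] at h7
    exact h3 h7
  have hGdiff : ∀ᶠ y in 𝓝 x0, DifferentiableAt ℂ G y := by
    filter_upwards [hGd.eventually (by simp)] with y hy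
    exact hy.differentiableAt (by simp)
  obtain ⟨K, s, hs, hK⟩ := (hGd.hasStrictFDerivAt (by simp)).exists_lipschitzOnWith
  obtain ⟨r, hr0, hball⟩ := Metric.eventually_nhds_iff_ball.1 ((hG0.and hGdiff).and
    (eventually_mem_set.2 hs))
  have hGker : ∀ y ∈ ball x0 (r / 4), L (y - x0) = 0 → G y = 0 := by
    intro y hy hLy
    obtain ⟨w, hw⟩ : ∃ w : V × V, w = y - x0 := ⟨_, rfl⟩
    rw [← hw] at hLy
    have hwn : ‖w‖ < r / 4 := by rwa [mem_ball, dist_eq_norm, ← hw] at hy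
    obtain ⟨ξ, hξ⟩ : ∃ ξ : V × V, ξ = (1 / 2 : ℂ) • (w + cc w) := ⟨_, rfl⟩
    obtain ⟨η, hη⟩ : ∃ η : V × V, η = (1 / (2 * Complex.I)) • (w + (-1 : ℂ) • cc w) := ⟨_, rfl⟩
    have hξc : cc ξ = ξ := by
      rw [hξ, cc_smul, cc_add, cc_cc, add_comm (cc w), map_div₀, map_one, map_ofNat]
    have hηc : cc η = η := by
      rw [hη, cc_smul, cc_add, cc_smul, cc_cc]
      have h1 : conj (1 / (2 * Complex.I)) = -(1 / (2 * Complex.I)) := by
        rw [map_div₀, map_one, map_mul, map_ofNat, Complex.conj_I]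
        ring
      rw [h1]
      simp only [map_neg, map_one]
      module
    have hξn : ‖ξ‖ ≤ ‖w‖ := by
      rw [hξ, norm_smul]
      have h1 := norm_add_le w (cc w)
      rw [norm_cc] at h1
      have h2 : ‖(1 / 2 : ℂ)‖ = 1 / 2 := by norm_num
      rw [h2]
      linarith
    have hηn : ‖η‖ ≤ ‖w‖ := by
      rw [hη, norm_smul]
      have h1 := norm_add_le w ((-1 : ℂ) • cc w)
      rw [norm_smul, norm_cc] at h1
      have h2 : ‖(1 / (2 * Complex.I) : ℂ)‖ = 1 / 2 := by simp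
      have h3 : ‖(-1 : ℂ)‖ = 1 := by simp
      rw [h2]
      rw [h3] at h1
      linarith
    have hLcw : L (cc w) = 0 := by rw [hLcc, hLy, map_zero]
    have hLξ : L ξ = 0 := by rw [hξ, map_smul, map_add, hLy, hLcw]; simp
    have hLη : L η = 0 := by rw [hη, map_smul, map_add, map_smul, hLy, hLcw]; simp
    have hsum : ξ + Complex.I • η = w := by
      rw [hξ, hη, smul_smul]
      have h1 : Complex.I * (1 / (2 * Complex.I)) = 1 / 2 := by
        field_simp
      rw [h1]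
      module
    have hin : ∀ τ : ℂ, ‖τ‖ < 2 → x0 + (ξ + τ • η) ∈ ball x0 r := by
      intro τ hτ
      rw [mem_ball, dist_eq_norm, add_sub_cancel_left]
      have h1 := norm_add_le ξ (τ • η)
      rw [norm_smul] at h1
      have h2 : ‖τ‖ * ‖η‖ ≤ 2 * ‖w‖ :=
        mul_le_mul hτ.le hηn (norm_nonneg _) (by norm_num)
      linarith
    have hv := vanish_I (φ := fun τ => G (x0 + (ξ + τ • η))) ?_ ?_
    · beta_reduce at hv
      rw [hsum, hw, add_sub_cancel] at hv
      exact hv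
    · intro τ hτ
      have hτ' : ‖τ‖ < 2 := by rwa [mem_ball_zero_iff] at hτ
      have h1 : DifferentiableAt ℂ G (x0 + (ξ + τ • η)) := (hball _ (hin τ hτ')).1.2
      have h2 : DifferentiableAt ℂ (fun τ : ℂ => x0 + (ξ + τ • η)) τ := by fun_prop
      exact (h1.comp τ h2).differentiableWithinAt
    · intro τ hτ
      have hτ' : ‖(τ : ℂ)‖ < 2 := by rwa [Complex.norm_real]
      refine (hball _ (hin τ hτ')).1.1 ?_ ?_
      · rw [cc_add, cc_add, cc_smul, hξc, hηc, hx0, cc_rl]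
        simp
      · rw [add_sub_cancel_left, map_add, map_smul, hLξ, hLη]
        simp
  refine ⟨K * ‖e‖, ?_⟩
  have ht1 : Tendsto Φ (𝓝 x0) (𝓝 x0) := by
    have := hΦd.continuous.tendsto x0
    rwa [hΦ0] at this
  have ht2 : Tendsto (fun x => Φ x - H x • e) (𝓝 x0) (𝓝 x0) := by
    have h1 := ht1.sub ((hH.diff.continuous.tendsto x0).smul (tendsto_const_nhds (x := e)))
    rw [hx0, hp, zero_smul, sub_zero] at h1
    exact h1
  filter_upwards [ht1.eventually (ball_mem_nhds x0 hr0),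
    ht2.eventually (ball_mem_nhds x0 (show 0 < r / 4 by positivity)), hl] with x h1 h2 h3
  have h4 : G (Φ x - H x • e) = 0 := by
    refine hGker _ h2 ?_
    have h5 : Φ x - H x • e - x0 = (Φ x - x0) - H x • e := by module
    rw [h5, map_sub, map_smul, hΦL, hLe, smul_eq_mul, mul_one, sub_self]
  have h5 : Φ x - H x • e ∈ ball x0 r := ball_subset_ball (by linarith) h2
  have h6 := hK.norm_sub_le (hball _ h1).2 (hball _ h5).2
  rw [h4, sub_zero, sub_sub_cancel, norm_smul] at h6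
  have h7 : G (Φ x) = Λ x := by
    show Λ (Ψ (Φ x)) = Λ x
    rw [h3]
  rw [h7] at h6
  linarith

end Pool.FB74
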