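import Pool.Agent.FB74.Main

/-!
Polarisation of a real polynomial and the final theorem.
-/

set_option autoImplicit false

namespace Pool.FB74

open Topology Filter Set Metric
open scoped ContDiff ComplexConjugate

/-- The complexified real coordinates. -/
noncomputable def arg4 (x : V × V) : Fin 4 → ℂ :=
  ![(1 / 2) * (x.1.1 + x.2.1), (1 / (2 * Complex.I)) * (x.1.1 - x.2.1),
    (1 / 2) * (x.1.2 + x.2.2), (1 / (2 * Complex.I)) * (x.1.2 - x.2.2)]

/-- The polarised polynomial. -/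
noncomputable def HP (P : MvPolynomial (Fin 4) ℝ) (x : V × V) : ℂ :=
  MvPolynomial.aeval (arg4 x) P

/-- The real coordinates. -/
noncomputable def rc (z : V) : Fin 4 → ℝ := ![z.1.re, z.1.im, z.2.re, z.2.im]

theorem arg4_rl (z : V) (i : Fin 4) : arg4 (rl z) i = ((rc z i : ℝ) : ℂ) := by
  have h1 : ∀ w : ℂ, (1 / 2 : ℂ) * (w + conj w) = (w.re : ℂ) := by
    intro w
    rw [Complex.add_conj]
    push_cast
    ring
  have h2 : ∀ w : ℂ, (1 / (2 * Complex.I) : ℂ) * (w - conj w) = (w.im : ℂ) := by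
    intro w
    rw [Complex.sub_conj]
    push_cast
    field_simp
  fin_cases i
  · exact h1 z.1
  · exact h2 z.1
  · exact h1 z.2
  · exact h2 z.2

theorem arg4_cc (x : V × V) (i : Fin 4) : arg4 (cc x) i = conj (arg4 x i) := by
  have h1 : ∀ w v : ℂ, (1 / 2 : ℂ) * (conj w + conj v) = conj ((1 / 2 : ℂ) * (v + w)) := by
    intro w v
    rw [map_mul, map_div₀, map_one, map_ofNat, map_add]
    ring
  have h2 : ∀ w v : ℂ, (1 / (2 * Complex.I) : ℂ) * (conj w - conj v)
      = conj ((1 / (2 * Complex.I) : ℂ) * (v - w)) := by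
    intro w v
    rw [map_mul, map_div₀, map_one, map_mul, map_ofNat, map_sub, Complex.conj_I]
    ring
  fin_cases i
  · exact h1 x.2.1 x.1.1
  · exact h2 x.2.1 x.1.1
  · exact h1 x.2.2 x.1.2
  · exact h2 x.2.2 x.1.2

theorem HP_rl (P : MvPolynomial (Fin 4) ℝ) (z : V) :
    HP P (rl z) = ((MvPolynomial.eval (rc z) P : ℝ) : ℂ) := by
  have h1 : arg4 (rl z) = (algebraMap ℝ ℂ) ∘ rc z := funext fun i => arg4_rl z i
  have h2 := MvPolynomial.aeval_algebraMap_apply (A := ℝ) ℂ (rc z) P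
  rw [HP, h1, h2]
  simp only [MvPolynomial.aeval_eq_eval]
  rfl

theorem HP_smooth (P : MvPolynomial (Fin 4) ℝ) : ContDiff ℂ ∞ (HP P) := by
  induction P using MvPolynomial.induction_on with
  | C a =>
    have : HP (MvPolynomial.C a) = fun _ => (a : ℂ) := by
      funext x
      simp [HP]
    rw [this]
    exact contDiff_const
  | add p q hp hq =>
    have : HP (p + q) = fun x => HP p x + HP q x := by
      funext x
      simp [HP]
    rw [this]
    exact hp.add hq
  | mul_X p i hp =>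
    have : HP (p * MvPolynomial.X i) = fun x => HP p x * arg4 x i := by
      funext x
      simp [HP]
    rw [this]
    refine hp.mul ?_
    have c1 : ContDiff ℂ ∞ (fun x : V × V => x.1.1) := contDiff_fst.comp contDiff_fst
    have c2 : ContDiff ℂ ∞ (fun x : V × V => x.1.2) := contDiff_snd.comp contDiff_fst
    have c3 : ContDiff ℂ ∞ (fun x : V × V => x.2.1) := contDiff_fst.comp contDiff_snd
    have c4 : ContDiff ℂ ∞ (fun x : V × V => x.2.2) := contDiff_snd.comp contDiff_snd
    fin_cases i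
    · exact contDiff_const.mul (c1.add c3)
    · exact contDiff_const.mul (c1.sub c3)
    · exact contDiff_const.mul (c2.add c4)
    · exact contDiff_const.mul (c2.sub c4)

theorem HP_herm (P : MvPolynomial (Fin 4) ℝ) (x : V × V) : HP P (cc x) = conj (HP P x) := by
  have h1 := MvPolynomial.comp_aeval_apply (φ := Complex.conjAe.toAlgHom) (arg4 x) P
  have h2 : (fun i => Complex.conjAe.toAlgHom (arg4 x i)) = arg4 (cc x) :=
    funext fun i => (arg4_cc x i).symm
  rw [h2] at h1
  exact h1.symm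

theorem HP_poly (P : MvPolynomial (Fin 4) ℝ) : ∃ d, ∀ ζ : V, ∃ h : MvPolynomial (Fin 2) ℂ,
    h.totalDegree ≤ d ∧ ∀ z : V, ev z h = HP P (z, ζ) := by
  induction P using MvPolynomial.induction_on with
  | C a =>
    refine ⟨0, fun ζ => ⟨MvPolynomial.C (a : ℂ), ?_, fun z => ?_⟩⟩
    · rw [MvPolynomial.totalDegree_C]
    · simp [HP, ev]
  | add p q hp hq =>
    obtain ⟨d1, h1⟩ := hp
    obtain ⟨d2, h2⟩ := hq
    refine ⟨max d1 d2, fun ζ => ?_⟩
    obtain ⟨f, hf, hf'⟩ := h1 ζ
    obtain ⟨g, hg, hg'⟩ := h2 ζ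
    refine ⟨f + g, (MvPolynomial.totalDegree_add _ _).trans (max_le_max hf hg), fun z => ?_⟩
    have e1 : ev z (f + g) = ev z f + ev z g := by simp [ev]
    have e2 : HP (p + q) (z, ζ) = HP p (z, ζ) + HP q (z, ζ) := by simp [HP]
    rw [e1, e2, hf', hg']
  | mul_X p i hp =>
    obtain ⟨d1, h1⟩ := hp
    refine ⟨d1 + 1, fun ζ => ?_⟩
    obtain ⟨f, hf, hf'⟩ := h1 ζ
    have key : ∀ (c e : ℂ) (j : Fin 2), (MvPolynomial.C c * (MvPolynomial.X j +
        MvPolynomial.C e) : MvPolynomial (Fin 2) ℂ).totalDegree ≤ 1 := by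
      intro c e j
      refine (MvPolynomial.totalDegree_mul _ _).trans ?_
      rw [MvPolynomial.totalDegree_C, zero_add]
      refine (MvPolynomial.totalDegree_add _ _).trans ?_
      rw [MvPolynomial.totalDegree_C, MvPolynomial.totalDegree_X]
      simp
    have hg : ∃ g : MvPolynomial (Fin 2) ℂ, g.totalDegree ≤ 1 ∧
        ∀ z : V, ev z g = arg4 (z, ζ) i := by
      fin_cases i
      · exact ⟨_, key (1 / 2) ζ.1 0, fun z => by simp [ev, arg4]⟩
      · exact ⟨_, key (1 / (2 * Complex.I)) (-ζ.1) 0, fun z => by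
          simp [ev, arg4, sub_eq_add_neg]⟩
      · exact ⟨_, key (1 / 2) ζ.2 1, fun z => by simp [ev, arg4]⟩
      · exact ⟨_, key (1 / (2 * Complex.I)) (-ζ.2) 1, fun z => by
          simp [ev, arg4, sub_eq_add_neg]⟩
    obtain ⟨g, hg1, hg2⟩ := hg
    refine ⟨f * g, (MvPolynomial.totalDegree_mul _ _).trans (add_le_add hf hg1), fun z => ?_⟩
    have e1 : ev z (f * g) = ev z f * ev z g := by simp [ev]
    have e2 : HP (p * MvPolynomial.X i) (z, ζ) = HP p (z, ζ) * arg4 (z, ζ) i := by simp [HP]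
    rw [e1, e2, hf', hg2]

theorem exists_PSys (P : MvPolynomial (Fin 4) ℝ) : ∃ d, PSys (HP P) d := by
  obtain ⟨d, hd⟩ := HP_poly P
  exact ⟨d, ⟨⟨HP_smooth P, HP_herm P⟩, hd⟩⟩

theorem PR_HP (P : MvPolynomial (Fin 4) ℝ) (z : V) :
    PR (HP P) z = MvPolynomial.eval (rc z) P := by
  rw [PR, HP_rl, Complex.ofReal_re]

/-- If the holomorphic differential vanishes then so does the real differential. -/
theorem PR_fderiv {H : V × V → ℂ} (hH : HSys H) (z : V) (h : ∀ v, H1 H z v = 0) :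
    HasFDerivAt (PR H) (0 : V →L[ℝ] ℝ) z := by
  have hrl : DifferentiableAt ℝ rl z := by
    unfold rl cj
    have c1 : DifferentiableAt ℝ (fun z : V => z.1) z := differentiableAt_fst
    have c2 : DifferentiableAt ℝ (fun z : V => z.2) z := differentiableAt_snd
    have d1 : DifferentiableAt ℝ (fun z : V => conj z.1) z :=
      Complex.conjCLE.differentiableAt.comp z c1
    have d2 : DifferentiableAt ℝ (fun z : V => conj z.2) z :=
      Complex.conjCLE.differentiableAt.comp z c2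
    exact differentiableAt_id.prodMk (d1.prodMk d2)
  have hd : DifferentiableAt ℝ (PR H) z := by
    have h1 : DifferentiableAt ℝ H (rl z) := (hH.diff (rl z)).restrictScalars ℝ
    have h2 : DifferentiableAt ℝ (fun z => H (rl z)) z := h1.comp z hrl
    exact Complex.reCLM.differentiableAt.comp z h2
  have h0 : fderiv ℝ (PR H) z = 0 := by
    refine ContinuousLinearMap.ext fun v => ?_
    have h1 := PR_hasDerivAt hH z v 0
    simp only [zero_smul, add_zero] at h1
    rw [h v] at h1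
    have h2 : HasDerivAt (fun s : ℝ => z + s • v) v 0 := by
      have := ((hasDerivAt_id (0 : ℝ)).smul_const v).const_add z
      simpa using this
    have h3 : HasFDerivAt (PR H) (fderiv ℝ (PR H) z) (z + (0 : ℝ) • v) := by
      simpa using hd.hasFDerivAt
    have h4 := h3.comp_hasDerivAt (0 : ℝ) h2
    have h5 := h4.unique h1
    rw [h5]
    simp
  rw [← h0]
  exact hd.hasFDerivAt

/-- Main theorem on `ℂ × ℂ`. -/
theorem main_V {Ω : Set V} (hΩ : IsOpen Ω) {F G : V → V}
    (hF : DifferentiableOn ℂ F Ω) (hG : Differentiable ℂ G) (hGΩ : ∀ y, G y ∈ Ω)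
    (hGF : ∀ x ∈ Ω, G (F x) = x) (P : MvPolynomial (Fin 4) ℝ)
    (hP : ∀ z ∈ Ω, MvPolynomial.eval (rc z) P < 0) {p : V} (hp : p ∈ frontier Ω)
    (hloc : ∀ᶠ z in 𝓝 p, z ∈ frontier Ω → MvPolynomial.eval (rc z) P = 0) :
    ∀ v, H1 (HP P) p v = 0 := by
  by_contra hcon
  push Not at hcon
  obtain ⟨v, hv⟩ := hcon
  obtain ⟨d, hd⟩ := exists_PSys P
  have hev : ∀ᶠ z in 𝓝 p, H1 (HP P) z v ≠ 0 :=
    ((H1_continuous hd.toHSys v).tendsto p).eventually (isOpen_ne.mem_nhds hv)
  obtain ⟨U, hU, hUo, hpU⟩ := _root_.eventually_nhds_iff.1 (hloc.and hev)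
  have hD : Dom Ω (HP P) U :=
    { sys := hd.toHSys
      op := hΩ
      neg := fun z hz => by rw [PR_HP]; exact hP z hz
      opU := hUo
      bd := fun z hz hzU => by
        refine ⟨?_, v, (hU z hzU).2⟩
        rw [PR_HP]
        exact (hU z hzU).1 hz }
  exact main hd hD hF hG hGΩ hGF ⟨p, hp, hpU⟩

end Pool.FB74
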