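import Pool.Agent.FB74.Goursat

/-!
The local Segre curve through a point where the hypersurface is Levi flat.
-/

set_option autoImplicit false

namespace Pool.FB74

open Topology Filter Set Metric
open scoped ContDiff ComplexConjugate

/-- Implicit function theorem for the Segre curve. -/
theorem exists_graph {f : V → ℂ} (hf : ContDiff ℂ ∞ f) {p : V} (hp : f p = 0)
    (ha : fderiv ℂ f p (1, 0) ≠ 0) :
    ∃ φ : ℂ → ℂ, AnalyticAt ℂ φ p.2 ∧ φ p.2 = p.1 ∧ ∀ᶠ t in 𝓝 p.2, f (φ t, t) = 0 := by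
  set L : V →L[ℂ] ℂ := fderiv ℂ f p with hL
  have hLv : ∀ v : V, L v = v.1 * L (1, 0) + v.2 * L (0, 1) := by
    intro v
    have h1 : v = v.1 • ((1, 0) : V) + v.2 • ((0, 1) : V) := by simp
    calc L v = L (v.1 • ((1, 0) : V) + v.2 • ((0, 1) : V)) := by rw [← h1]
      _ = _ := by rw [map_add, map_smul, map_smul, smul_eq_mul, smul_eq_mul]
  set F1 : V →L[ℂ] V := L.prod (ContinuousLinearMap.snd ℂ ℂ ℂ) with hF1
  set F2 : V →L[ℂ] V := ((L (1, 0))⁻¹ • (ContinuousLinearMap.fst ℂ ℂ ℂ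
    - L (0, 1) • ContinuousLinearMap.snd ℂ ℂ ℂ)).prod (ContinuousLinearMap.snd ℂ ℂ ℂ) with hF2
  have hl : Function.LeftInverse F2 F1 := by
    intro v
    refine Prod.ext ?_ rfl
    show (L (1, 0))⁻¹ * (L v - L (0, 1) * v.2) = v.1
    rw [hLv v]
    field_simp
    ring
  have hr : Function.RightInverse F2 F1 := by
    intro v
    refine Prod.ext ?_ rfl
    show L ((L (1, 0))⁻¹ * (v.1 - L (0, 1) * v.2), v.2) = v.1
    rw [hLv]
    simp only
    field_simp
    ring
  set K : V → V := fun z => (f z, z.2) with hK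
  have hKd : ContDiff ℂ ∞ K := hf.prodMk contDiff_snd
  have hK' : HasFDerivAt K (ContinuousLinearEquiv.equivOfInverse F1 F2 hl hr : V →L[ℂ] V) p := by
    have h1 : HasFDerivAt f L p := (hf.differentiable (by simp) p).hasFDerivAt
    have h2 := h1.prodMk (hasFDerivAt_snd (𝕜 := ℂ) (p := p))
    exact h2.congr_fderiv (by ext <;> rfl)
  obtain ⟨Ψ, hΨd, hΨ0, -, hri⟩ := local_inv (hKd.of_le (by simp)).contDiffAt hK'
  have hKp : K p = (0, p.2) := by simp [hK, hp]
  rw [hKp] at hΨd hΨ0 hri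
  have hcurve : Tendsto (fun t : ℂ => ((0, t) : V)) (𝓝 p.2) (𝓝 (0, p.2)) := by
    have : Continuous (fun t : ℂ => ((0, t) : V)) := by fun_prop
    exact this.tendsto p.2
  refine ⟨fun t => (Ψ (0, t)).1, ?_, ?_, ?_⟩
  · rw [Complex.analyticAt_iff_eventually_differentiableAt]
    have h1 : ∀ᶠ y in 𝓝 ((0, p.2) : V), DifferentiableAt ℂ Ψ y := by
      filter_upwards [hΨd.eventually (by simp)] with y hy
      exact hy.differentiableAt (by simp)
    filter_upwards [hcurve.eventually h1] with t ht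
    have h2 : DifferentiableAt ℂ (fun t : ℂ => ((0, t) : V)) t := by fun_prop
    exact ((ht.comp t h2)).fst
  · show (Ψ (0, p.2)).1 = p.1
    rw [hΨ0]
  · filter_upwards [hcurve.eventually hri] with t ht
    have h1 : f (Ψ (0, t)) = 0 := congrArg Prod.fst ht
    have h2 : (Ψ (0, t)).2 = t := congrArg Prod.snd ht
    have h3 : ((Ψ (0, t)).1, t) = Ψ (0, t) := Prod.ext rfl h2.symm
    rw [h3, h1]

theorem ana_conj {φ : ℂ → ℂ} {a : ℂ} (hφ : AnalyticAt ℂ φ a) :
    AnalyticAt ℂ (fun s => conj (φ (conj s))) (conj a) := by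
  rw [Complex.analyticAt_iff_eventually_differentiableAt] at hφ ⊢
  have h1 : Tendsto (fun s : ℂ => conj s) (𝓝 (conj a)) (𝓝 a) := by
    have := Complex.continuous_conj.tendsto (conj a)
    rwa [Complex.conj_conj] at this
  filter_upwards [h1.eventually hφ] with s hs
  have h2 := hs.hasDerivAt.conj_conj
  rw [Complex.conj_conj] at h2
  exact h2.differentiableAt

/-- The Segre curve and its polarised vanishing. -/
theorem segre {H : V × V → ℂ} (hH : HSys H) {p : V} (hp : H (rl p) = 0)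
    (ha : dd ea H (rl p) ≠ 0) (hΛ : ∃ C, ∀ᶠ x in 𝓝 (rl p), ‖Lam H x‖ ≤ C * ‖H x‖) :
    ∃ φ : ℂ → ℂ, AnalyticAt ℂ φ p.2 ∧ φ p.2 = p.1 ∧ (∀ᶠ t in 𝓝 p.2, H ((φ t, t), cj p) = 0) ∧
      ∃ δ > 0, ∀ t ∈ ball p.2 δ, ∀ s ∈ ball p.2 δ, H ((φ t, t), cj (φ s, s)) = 0 := by
  have hf : ContDiff ℂ ∞ (fun z : V => H (z, cj p)) :=
    hH.smooth.comp (contDiff_id.prodMk contDiff_const)
  have hfd : fderiv ℂ (fun z : V => H (z, cj p)) p (1, 0) = dd ea H (rl p) := by
    have h1 : HasFDerivAt (fun z : V => ((z, cj p) : V × V))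
        ((ContinuousLinearMap.id ℂ V).prod (0 : V →L[ℂ] V)) p :=
      (hasFDerivAt_id p).prodMk (hasFDerivAt_const (cj p) p)
    have h0 : HasFDerivAt H (fderiv ℂ H (rl p)) (p, cj p) := (hH.diff (rl p)).hasFDerivAt
    have h2 := h0.comp (f := fun z : V => ((z, cj p) : V × V)) p h1
    have h3 : fderiv ℂ (fun z : V => H (z, cj p)) p = _ := h2.fderiv
    rw [h3]
    rfl
  obtain ⟨φ, hφ, hφ0, hφ1⟩ := exists_graph hf hp (by rw [hfd]; exact ha)
  have hc : dd ec H (rl p) ≠ 0 := by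
    have h1 := hH.dd1 ea (rl p)
    rw [cc_rl] at h1
    have h2 : cc ea = ec := by simp [cc, ea, ec, cj]
    rw [h2] at h1
    rw [h1]
    simpa using ha
  have hψ := ana_conj hφ
  have h2 : ∀ᶠ s in 𝓝 (cj p).2, H (p, ((fun s => conj (φ (conj s))) s, s)) = 0 := by
    have h1 : Tendsto (fun s : ℂ => conj s) (𝓝 (conj p.2)) (𝓝 p.2) := by
      have := Complex.continuous_conj.tendsto (conj p.2)
      rwa [Complex.conj_conj] at this
    filter_upwards [h1.eventually hφ1] with s hs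
    have h3 := hH.herm ((φ (conj s), conj s), cj p)
    rw [hs, map_zero] at h3
    simp only [cc, cj_cj] at h3
    simpa [cj] using h3
  obtain ⟨δ, hδ, hG⟩ := goursat_abs hH.smooth (p := p) (q := cj p) ha hc hφ
    (ψ := fun s => conj (φ (conj s))) hψ hφ0 (by simp [cj, hφ0]) hφ1 h2 hΛ
  refine ⟨φ, hφ, hφ0, hφ1, δ, hδ, fun t ht s hs => ?_⟩
  have hs' : conj s ∈ ball (cj p).2 δ := by
    rw [mem_ball, dist_eq_norm] at hs ⊢
    have : conj s - (cj p).2 = conj (s - p.2) := by simp [cj]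
    rw [this, RCLike.norm_conj]
    exact hs
  have := hG t ht (conj s) hs'
  simpa [cj] using this

end Pool.FB74
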